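import Pool.Agent.GSW.Zs
import Pool.Agent.GSW.Cert

/-!
# GSW: a fast test for certificates given by tables of coefficients

`Tb`: tables of coefficients of polynomials in `s`, `t` over `ℤ[r]`. `fchk`: the test for
`den q (J w) = ∑ g_l q'_l (w)`. The values are computed modulo `m = R ^ 2 - δ` at `t = B`,
`r = R` and `s = 0, …, n - 1`; the tables are evaluated once for every value of `s`. `fcert`: the
identity.
-/

set_option autoImplicit false

namespace Pool.Agent.GSW

/-- Tables of coefficients: for every power of `s` the coefficients of the powers of `t` in the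
rational part and in the coefficient of `r`. -/
abbrev Tb : Type := List (List ℤ × List ℤ)

/-- a polynomial in `t` -/
def hzE : List ℤ → E
  | [] => E.c 0
  | a :: l => E.add (E.c a) (E.mul E.t (hzE l))

/-- the coefficient of a power of `s` -/
def rowE (r : List ℤ × List ℤ) : E := E.add (hzE r.1) (E.mul E.r (hzE r.2))

/-- the polynomial of a table -/
def tE : Tb → E
  | [] => E.c 0
  | r :: T => E.add (rowE r) (E.mul E.s (tE T))

/-! ### Numbers -/

/-- the value of a polynomial in `t` -/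
def hzN (κ : ℤ → ℕ) (m y : ℕ) : List ℤ → ℕ
  | [] => 0
  | a :: l => Nat.mod (Nat.add (κ a) (Nat.mul y (hzN κ m y l))) m

/-- the value of the coefficient of a power of `s` -/
def rowN (κ : ℤ → ℕ) (m y z : ℕ) (r : List ℤ × List ℤ) : ℕ :=
  Nat.mod (Nat.add (hzN κ m y r.1) (Nat.mul z (hzN κ m y r.2))) m

/-- the value of a polynomial in `s` -/
def hxN (m x : ℕ) : List ℕ → ℕ
  | [] => 0
  | a :: l => Nat.mod (Nat.add a (Nat.mul x (hxN m x l))) m

/-- the dot product -/
def dotN : List ℕ → List ℕ → ℕ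
  | a :: l, b :: l' => Nat.add (Nat.mul a b) (dotN l l')
  | _, _ => 0

/-- evaluates the number before the continuation -/
def fN (n : ℕ) (k : ℕ → Bool) : Bool :=
  match n with
  | 0 => k 0
  | m + 1 => k (Nat.succ m)

/-- evaluates the list before the continuation -/
def fL : List ℕ → (List ℕ → Bool) → Bool
  | [], k => k []
  | a :: l, k => fN a fun a => fL l fun l => k (a :: l)

/-- evaluates the lists before the continuation -/
def fLL : List (List ℕ) → (List (List ℕ) → Bool) → Bool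
  | [], k => k []
  | a :: l, k => fL a fun a => fLL l fun l => k (a :: l)

/-- evaluates the lists before the continuation -/
def fLLL : List (List (List ℕ)) → (List (List (List ℕ)) → Bool) → Bool
  | [], k => k []
  | a :: l, k => fLL a fun a => fLLL l fun l => k (a :: l)

theorem fN_eq (n : ℕ) (k : ℕ → Bool) : fN n k = k n := by
  cases n <;> rfl

theorem fL_eq (l : List ℕ) (k : List ℕ → Bool) : fL l k = k l := by
  induction l generalizing k with
  | nil => rfl
  | cons a l ih => rw [fL, fN_eq, ih]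

theorem fLL_eq (l : List (List ℕ)) (k : List (List ℕ) → Bool) : fLL l k = k l := by
  induction l generalizing k with
  | nil => rfl
  | cons a l ih => rw [fLL, fL_eq, ih]

theorem fLLL_eq (l : List (List (List ℕ))) (k : List (List (List ℕ)) → Bool) :
    fLLL l k = k l := by
  induction l generalizing k with
  | nil => rfl
  | cons a l ih => rw [fLLL, fLL_eq, ih]

/-- A term `d q (J w)`. -/
structure Tm where
  /-- the columns of `J` -/
  J : List (List Tb)
  /-- the rows of `q` -/
  Q : List (List Tb)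
  /-- the factor -/
  d : Tb

/-- The data of a certificate for one equation. -/
structure FD where
  /-- the terms of the left side -/
  ts : List Tm
  /-- the coefficients -/
  g : List Tb
  /-- the entries of the forms `q'`: a list for every pair of indices -/
  N : List (List (List Tb))

/-- The values of a term, powers of `s` apart. -/
structure Tn where
  /-- the columns of `J` -/
  J : List (List (List ℕ))
  /-- the rows of `q` -/
  Q : List (List (List ℕ))
  /-- the factor -/
  d : List ℕ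

/-- values of lists of tables, powers of `s` apart -/
def pre2 (κ : ℤ → ℕ) (m y z : ℕ) (L : List (List Tb)) : List (List (List ℕ)) :=
  L.map fun l => l.map fun T => T.map (rowN κ m y z)

/-- values -/
def at2 (m x : ℕ) (L : List (List (List ℕ))) : List (List ℕ) := L.map fun l => l.map (hxN m x)

/-- the product of the rows and the columns -/
def prN (m : ℕ) (Q J : List (List ℕ)) : List (List ℕ) :=
  J.map fun c => Q.map fun r => Nat.mod (dotN r c) m

/-- the left side -/
def lhN (m : ℕ) (J U : List (List ℕ)) (d : ℕ) (i j : ℕ) : ℕ :=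
  Nat.mul d (Nat.mod (Nat.add (dotN (J.getD i []) (U.getD j []))
    (dotN (J.getD j []) (U.getD i []))) m)

/-- the right side -/
def rhN (m x : ℕ) (g : List ℕ) (N : List (List (List (List ℕ)))) (i j : ℕ) : ℕ :=
  Nat.add (dotN g (((N.getD i []).getD j []).map (hxN m x)))
    (dotN g (((N.getD j []).getD i []).map (hxN m x)))

/-- the tests for all pairs of indices -/
def pairs (f : ℕ → ℕ → Bool) : Bool :=
  all8 fun i => all8 fun j => !(Nat.ble i.val j.val) || f i.val j.val

/-- the values of the terms -/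
def tsN (m x : ℕ) : List Tn → (ℕ → ℕ → ℕ) → ((ℕ → ℕ → ℕ) → Bool) → Bool
  | [], a, k => k a
  | T :: L, a, k => fLL (at2 m x T.J) fun J' => fLL (at2 m x T.Q) fun Q' =>
      fLL (prN m Q' J') fun U => fN (hxN m x T.d) fun d' =>
        tsN m x L (fun i j => Nat.add (lhN m J' U d' i j) (a i j)) k

/-- the tests at one value of `s` -/
def atN (F : ℕ → ℕ → Bool) (m : ℕ) (ts : List Tn)
    (g : List (List ℕ)) (N : List (List (List (List ℕ)))) (x : ℕ) : Bool :=
  tsN m x ts (fun _ _ => 0) fun h => fL (g.map (hxN m x)) fun g' =>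
      pairs fun i j => F (h i j) (rhN m x g' N i j)

/-- the values of the terms, powers of `s` apart -/
def fTs (κ : ℤ → ℕ) (m y z : ℕ) : List Tm → (List Tn → Bool) → Bool
  | [], k => k []
  | T :: L, k => fLLL (pre2 κ m y z T.J) fun J => fLLL (pre2 κ m y z T.Q) fun Q =>
      fL (T.d.map (rowN κ m y z)) fun d => fTs κ m y z L fun L' => k (⟨J, Q, d⟩ :: L')

/-- all `x < n` -/
def allx (f : ℕ → Bool) : ℕ → Bool
  | 0 => true
  | n + 1 => f n && allx f n

/-- the tests at a list of values of `s` -/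
def runN (F : ℕ → ℕ → Bool) (κ : ℤ → ℕ) (m y z : ℕ) (D : FD) (f : (ℕ → Bool) → Bool) : Bool :=
  fTs κ m y z D.ts fun ts => fLL (D.g.map fun T => T.map (rowN κ m y z)) fun g =>
    f fun x => atN F m ts g (D.N.map (pre2 κ m y z)) x

/-- the lengths of the lists -/
def lenT (D : Tm) : Bool :=
  Nat.beq D.J.length 8 && (D.J.all fun c => Nat.ble c.length 8) &&
    (D.Q.all fun c => Nat.ble c.length 8)

/-- the lengths of the lists -/
def lenN (D : FD) : Bool := D.ts.all lenT && Nat.ble D.g.length 9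

/-- The test. -/
def fchk (dl : ℤ) (M B R n : ℕ) (D : FD) : Bool :=
  lenN D && Nat.ble 1 M && Nat.ble dl.natAbs (Nat.mul M M) &&
  fN (Int.toNat (Int.sub (Int.ofNat (Nat.mul R R)) dl)) fun m =>
    (runN (fun a b => Nat.beq (Nat.mod a m) (Nat.mod b m)) (E.cm m) m B R D fun f => allx f n) &&
    (runN (fun a b => Nat.blt (Nat.add a b) B) Int.natAbs 0 1 M D fun f => f n) &&
    (runN (fun a b => Nat.blt (Nat.add (Nat.mul (Nat.add a b) (Nat.succ R)) dl.natAbs)
      (Nat.mul R R)) Int.natAbs 0 B M D fun f => f n) &&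
    (runN (fun a b => Nat.blt (Nat.add a b) (B ^ n)) Int.natAbs 0 1 M D fun f => f B)

/-- The test with one point. -/
def fchk1 (dl : ℤ) (M B R n : ℕ) (D : FD) : Bool :=
  lenN D && Nat.ble 1 M && Nat.ble dl.natAbs (Nat.mul M M) && Nat.ble 1 n &&
  fN (Int.toNat (Int.sub (Int.ofNat (Nat.mul R R)) dl)) fun m => fN (B ^ n) fun y =>
    (runN (fun a b => Nat.beq (Nat.mod a m) (Nat.mod b m)) (E.cm m) m y R D fun f => f B) &&
    (runN (fun a b => Nat.blt (Nat.add a b) B) Int.natAbs 0 1 M D fun f => f 1) &&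
    (runN (fun a b => Nat.blt (Nat.add (Nat.mul (Nat.add a b) (Nat.succ R)) dl.natAbs)
      (Nat.mul R R)) Int.natAbs 0 y M D fun f => f B) &&
    (runN (fun a b => Nat.blt (Nat.add a b) y) Int.natAbs 0 1 M D fun f => f B)

/-! ### Correctness -/

section

variable {S : Type} [CommRing S]

/-- The values of expressions in a ring, with given values of the constants, and `a + sg b` for
`a - b`. -/
def evG (κ : ℤ → S) (sg x y z : S) : E → S
  | E.c a => κ a
  | E.s => x
  | E.t => y
  | E.r => z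
  | E.add a b => evG κ sg x y z a + evG κ sg x y z b
  | E.sub a b => evG κ sg x y z a + sg * evG κ sg x y z b
  | E.mul a b => evG κ sg x y z a * evG κ sg x y z b

theorem evG_ev (x y z : S) (e : E) : evG (fun a : ℤ => (a : S)) (-1) x y z e = E.ev x y z e := by
  induction e with
  | c z => rfl
  | s => rfl
  | t => rfl
  | r => rfl
  | add a b iha ihb => simp only [evG, E.ev, iha, ihb]
  | sub a b iha ihb =>
    simp only [evG, E.ev, iha, ihb]
    ring
  | mul a b iha ihb => simp only [evG, E.ev, iha, ihb]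

theorem evG_evN (x y M : ℕ) (e : E) :
    evG (fun a : ℤ => ((a.natAbs : ℕ) : S)) 1 (x : S) (y : S) (M : S) e =
      ((E.evN x y M e : ℕ) : S) := by
  induction e with
  | c z => rfl
  | s => rfl
  | t => rfl
  | r => rfl
  | add a b iha ihb =>
    simp only [evG, iha, ihb]
    exact (Nat.cast_add _ _).symm
  | sub a b iha ihb =>
    simp only [evG, iha, ihb, one_mul]
    exact (Nat.cast_add _ _).symm
  | mul a b iha ihb =>
    simp only [evG, iha, ihb]
    exact (Nat.cast_mul _ _).symm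

variable {κ : ℤ → ℕ} {m : ℕ} (h0 : κ 0 = 0) (hm : ∀ a : ℕ, ((Nat.mod a m : ℕ) : S) = (a : S))
  (sg : S) (x y z : ℕ)

include h0 hm

theorem hz_cast (l : List ℤ) : ((hzN κ m y l : ℕ) : S) =
    evG (fun a : ℤ => ((κ a : ℕ) : S)) sg (x : S) (y : S) (z : S) (hzE l) := by
  induction l with
  | nil => simp [hzN, hzE, evG, h0]
  | cons a l ih =>
    unfold hzN
    rw [hm]
    change (((κ a) + y * (hzN κ m y l) : ℕ) : S) = _
    push_cast
    rw [ih]
    rfl

theorem row_cast (u : List ℤ × List ℤ) : ((rowN κ m y z u : ℕ) : S) =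
    evG (fun a : ℤ => ((κ a : ℕ) : S)) sg (x : S) (y : S) (z : S) (rowE u) := by
  unfold rowN
  rw [hm]
  change ((hzN κ m y u.1 + z * hzN κ m y u.2 : ℕ) : S) = _
  push_cast
  rw [hz_cast h0 hm sg x y z, hz_cast h0 hm sg x y z]
  rfl

theorem tb_cast (T : Tb) : ((hxN m x (T.map (rowN κ m y z)) : ℕ) : S) =
    evG (fun a : ℤ => ((κ a : ℕ) : S)) sg (x : S) (y : S) (z : S) (tE T) := by
  induction T with
  | nil => simp [hxN, tE, evG, h0]
  | cons u T ih =>
    rw [List.map_cons]
    unfold hxN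
    rw [hm]
    change ((rowN κ m y z u + x * hxN m x (T.map (rowN κ m y z)) : ℕ) : S) = _
    push_cast
    rw [row_cast h0 hm sg x y z, ih]
    rfl

end

theorem dotN_eq (n : ℕ) (l l' : List ℕ) (h : l.length ≤ n) :
    dotN l l' = ∑ i : Fin n, l.getD i 0 * l'.getD i 0 := by
  induction n generalizing l l' with
  | zero =>
    have h1 : l = [] := List.length_eq_zero_iff.1 (Nat.le_zero.1 h)
    subst h1
    simp [dotN]
  | succ n ih =>
    cases l with
    | nil => simp [dotN]
    | cons a l =>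
      cases l' with
      | nil => simp [dotN]
      | cons b l' =>
        rw [Fin.sum_univ_succ]
        change a * b + dotN l l' = _
        rw [ih l l' (by simpa using h)]
        rfl

theorem getD_map' {α β : Type} (f : α → β) (l : List α) (i : ℕ) (a : α) (b : β) (h : f a = b) :
    (l.map f).getD i b = f (l.getD i a) := by
  subst h
  rw [List.getD_map]

/-! ### The expressions of a certificate -/

/-- the matrix -/
def Tm.Jf (D : Tm) (a i : Fin 8) : E := tE ((D.J.getD i []).getD a [])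

/-- the quadratic form -/
def Tm.Qf (D : Tm) (a b : Fin 8) : E := tE ((D.Q.getD a []).getD b [])

namespace FD

variable (D : FD)

/-- the quadratic forms -/
def Nf (l : Fin 9) (i j : Fin 8) : E := tE (((D.N.getD i []).getD j []).getD l [])

/-- the coefficients -/
def gf (l : Fin 9) : E := tE (D.g.getD l [])

end FD

/-- the list of the terms of a quadratic form -/
def qfM (Q : Fin 8 → Fin 8 → E) : QF :=
  (List.finRange 8).flatMap fun a => (List.finRange 8).map fun b => (Q a b, a, b)

section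

variable {S : Type} [CommRing S] (κ : ℤ → S) (h0 : κ 0 = 0) (sg x y z : S)

include h0

theorem evG_lsum (l : List E) : evG κ sg x y z (lsum l) = (l.map (evG κ sg x y z)).sum := by
  induction l with
  | nil => simp [lsum, evG, h0]
  | cons a l ih => simp [lsum, evG, ih]

theorem evG_pull (J : Fin 8 → Fin 8 → E) (Q : Fin 8 → Fin 8 → E) (i j : Fin 8) :
    evG κ sg x y z (pull J (qfM Q) i j) = ∑ a, evG κ sg x y z (J a i) *
      ∑ b, evG κ sg x y z (Q a b) * evG κ sg x y z (J b j) := by
  unfold pull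
  rw [evG_lsum κ h0, List.map_map]
  unfold qfM
  have h1 : ∀ L : List (Fin 8), (List.map (evG κ sg x y z ∘ fun m : E × Fin 8 × Fin 8 =>
      E.mul m.1 (E.mul (J m.2.1 i) (J m.2.2 j)))
      (L.flatMap fun a => (List.finRange 8).map fun b => (Q a b, a, b))).sum =
      (L.map fun a => evG κ sg x y z (J a i) *
        ∑ b, evG κ sg x y z (Q a b) * evG κ sg x y z (J b j)).sum := by
    intro L
    induction L with
    | nil => simp
    | cons a L ih =>
      rw [List.flatMap_cons, List.map_append, List.sum_append, ih, List.map_cons, List.sum_cons]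
      congr 1
      rw [List.map_map, Finset.mul_sum, ← List.ofFn_eq_map, List.sum_ofFn]
      refine Finset.sum_congr rfl fun b _ => ?_
      simp only [Function.comp_apply, evG]
      ring
  rw [h1, ← List.ofFn_eq_map, List.sum_ofFn]

theorem evG_cf (Q : Fin 8 → Fin 8 → E) (i j : Fin 8) :
    evG κ sg x y z (cf (qfM Q) i j) = evG κ sg x y z (Q i j) := by
  unfold cf
  rw [evG_lsum κ h0, List.map_map]
  unfold qfM
  have hb : ∀ a b : Fin 8, evG κ sg x y z (bif Nat.beq a.val i.val && Nat.beq b.val j.val then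
      Q a b else E.c 0) = if a = i then (if b = j then evG κ sg x y z (Q a b) else 0) else 0 := by
    intro a b
    by_cases ha : a = i
    · by_cases hb : b = j
      · subst ha hb
        simp
      · have h3 : Nat.beq b.val j.val = false := by
          rw [Bool.eq_false_iff]
          intro h
          exact hb (Fin.ext (Nat.eq_of_beq_eq_true h))
        rw [h3, Bool.and_false, if_pos ha, if_neg hb]
        simp [evG, h0]
    · have h3 : Nat.beq a.val i.val = false := by
        rw [Bool.eq_false_iff]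
        intro h
        exact ha (Fin.ext (Nat.eq_of_beq_eq_true h))
      rw [h3, Bool.false_and, if_neg ha]
      simp [evG, h0]
  have h1 : ∀ L : List (Fin 8), (List.map (evG κ sg x y z ∘ fun m : E × Fin 8 × Fin 8 =>
      bif Nat.beq m.2.1.val i.val && Nat.beq m.2.2.val j.val then m.1 else E.c 0)
      (L.flatMap fun a => (List.finRange 8).map fun b => (Q a b, a, b))).sum =
      (L.map fun a => ∑ b, if a = i then (if b = j then evG κ sg x y z (Q a b) else 0)
        else 0).sum := by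
    intro L
    induction L with
    | nil => simp
    | cons a L ih =>
      rw [List.flatMap_cons, List.map_append, List.sum_append, ih, List.map_cons, List.sum_cons]
      congr 1
      rw [List.map_map, ← List.ofFn_eq_map, List.sum_ofFn]
      refine Finset.sum_congr rfl fun b _ => ?_
      exact hb a b
  rw [h1, ← List.ofFn_eq_map, List.sum_ofFn, Finset.sum_eq_single i]
  · rw [Finset.sum_eq_single j]
    · simp
    · intro b _ hb
      rw [if_pos rfl, if_neg hb]
    · simp
  · intro a _ ha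
    refine Finset.sum_eq_zero fun b _ => ?_
    rw [if_neg ha]
  · simp

end

/-! ### The test is correct -/

/-- the value of a table -/
def vT (κ : ℤ → ℕ) (m x y z : ℕ) (T : Tb) : ℕ := hxN m x (T.map (rowN κ m y z))

theorem at2_pre2 (κ : ℤ → ℕ) (m x y z : ℕ) (L : List (List Tb)) :
    at2 m x (pre2 κ m y z L) = L.map fun l => l.map (vT κ m x y z) := by
  simp only [at2, pre2, List.map_map]
  refine List.map_congr_left fun l _ => ?_
  simp only [Function.comp_apply, List.map_map]
  rfl

/-- a term of the left side -/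
def LT (κ : ℤ → ℕ) (m y z : ℕ) (D : Tm) (x i j : ℕ) : ℕ :=
  lhN m (at2 m x (pre2 κ m y z D.J)) (prN m (at2 m x (pre2 κ m y z D.Q))
    (at2 m x (pre2 κ m y z D.J))) (hxN m x (D.d.map (rowN κ m y z))) i j

/-- the left side -/
def LH (κ : ℤ → ℕ) (m y z : ℕ) (D : FD) (x i j : ℕ) : ℕ :=
  D.ts.foldl (fun a T => Nat.add (LT κ m y z T x i j) a) 0

/-- the right side -/
def RH (κ : ℤ → ℕ) (m y z : ℕ) (D : FD) (x i j : ℕ) : ℕ :=
  rhN m x ((D.g.map fun T => T.map (rowN κ m y z)).map (hxN m x)) (D.N.map (pre2 κ m y z)) i j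

theorem fTs_eq (κ : ℤ → ℕ) (m y z : ℕ) (L : List Tm) (k : List Tn → Bool) :
    fTs κ m y z L k = k (L.map fun T =>
      ⟨pre2 κ m y z T.J, pre2 κ m y z T.Q, T.d.map (rowN κ m y z)⟩) := by
  induction L generalizing k with
  | nil => rfl
  | cons T L ih => rw [fTs, fLLL_eq, fLLL_eq, fL_eq, ih, List.map_cons]

theorem tsN_eq (κ : ℤ → ℕ) (m y z x : ℕ) (L : List Tm) (a : ℕ → ℕ → ℕ)
    (k : (ℕ → ℕ → ℕ) → Bool) :
    tsN m x (L.map fun T =>
      ⟨pre2 κ m y z T.J, pre2 κ m y z T.Q, T.d.map (rowN κ m y z)⟩) a k =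
      k fun i j => L.foldl (fun a T => Nat.add (LT κ m y z T x i j) a) (a i j) := by
  induction L generalizing a with
  | nil => rfl
  | cons T L ih =>
    rw [List.map_cons, tsN, fLL_eq, fLL_eq, fLL_eq, fN_eq, ih]
    rfl

theorem runN_eq (F : ℕ → ℕ → Bool) (κ : ℤ → ℕ) (m y z : ℕ) (D : FD) (f : (ℕ → Bool) → Bool) :
    runN F κ m y z D f =
      f fun x => pairs fun i j => F (LH κ m y z D x i j) (RH κ m y z D x i j) := by
  unfold runN
  rw [fTs_eq, fLL_eq]
  congr 1
  funext x
  unfold atN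
  rw [tsN_eq, fL_eq]
  rfl

theorem allx_iff (f : ℕ → Bool) (n : ℕ) : allx f n = true ↔ ∀ x < n, f x = true := by
  induction n with
  | zero => simp [allx]
  | succ n ih =>
    rw [allx, Bool.and_eq_true, ih]
    constructor
    · rintro ⟨h1, h2⟩ x hx
      rcases Nat.lt_succ_iff_lt_or_eq.1 hx with h | h
      · exact h2 x h
      · rw [h]
        exact h1
    · intro h
      exact ⟨h n (Nat.lt_succ_self n), fun x hx => h x (hx.trans (Nat.lt_succ_self n))⟩

theorem pairs_iff (f : ℕ → ℕ → Bool) :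
    pairs f = true ↔ ∀ i j : Fin 8, i.val ≤ j.val → f i.val j.val = true := by
  unfold pairs
  rw [all8_iff]
  constructor
  · intro h i j hij
    have h4 := (all8_iff _).1 (h i) j
    rw [Nat.ble_eq_true_of_le hij, Bool.not_true, Bool.false_or] at h4
    exact h4
  · intro h i
    rw [all8_iff]
    intro j
    by_cases hij : i.val ≤ j.val
    · rw [h i j hij, Bool.or_true]
    · have h1 : Nat.ble i.val j.val = false := by
        rw [Bool.eq_false_iff]
        intro h
        exact hij (Nat.le_of_ble_eq_true h)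
      rw [h1]
      rfl

section

variable {S : Type} [CommRing S] {κ : ℤ → ℕ} {m : ℕ} (h0 : κ 0 = 0)
  (hm : ∀ a : ℕ, ((Nat.mod a m : ℕ) : S) = (a : S)) (sg : S) (x y z : ℕ)

include h0 hm

theorem tm_cast (D : Tm) (hD : lenT D = true) (i j : Fin 8) :
    ((LT κ m y z D x i j : ℕ) : S) =
      evG (fun a : ℤ => ((κ a : ℕ) : S)) sg (x : S) (y : S) (z : S) (tE D.d) *
      (evG (fun a : ℤ => ((κ a : ℕ) : S)) sg (x : S) (y : S) (z : S)
          (pull D.Jf (qfM D.Qf) i j) +
        evG (fun a : ℤ => ((κ a : ℕ) : S)) sg (x : S) (y : S) (z : S)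
          (pull D.Jf (qfM D.Qf) j i)) := by
  simp only [lenT, Bool.and_eq_true, List.all_eq_true] at hD
  obtain ⟨⟨hJ, hJ2⟩, hQ⟩ := hD
  have hJ : D.J.length = 8 := Nat.eq_of_beq_eq_true hJ
  have hJ2 : ∀ i, (D.J.getD i []).length ≤ 8 := by
    intro i
    by_cases hi : i < D.J.length
    · rw [List.getD_eq_getElem _ _ hi]
      exact Nat.le_of_ble_eq_true (hJ2 _ (List.getElem_mem hi))
    · rw [List.getD_eq_default _ _ (not_lt.1 hi)]
      exact Nat.zero_le _
  have hQ : ∀ i, (D.Q.getD i []).length ≤ 8 := by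
    intro i
    by_cases hi : i < D.Q.length
    · rw [List.getD_eq_getElem _ _ hi]
      exact Nat.le_of_ble_eq_true (hQ _ (List.getElem_mem hi))
    · rw [List.getD_eq_default _ _ (not_lt.1 hi)]
      exact Nat.zero_le _
  set κ' : ℤ → S := fun a : ℤ => ((κ a : ℕ) : S) with hκ'
  have h0' : κ' 0 = 0 := by rw [hκ']; simp [h0]
  have hv : ∀ T : Tb, ((vT κ m x y z T : ℕ) : S) = evG κ' sg (x : S) (y : S) (z : S) (tE T) :=
    fun T => tb_cast h0 hm sg x y z T
  have hv0 : vT κ m x y z [] = 0 := rfl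
  have hJe : ∀ i a : ℕ, (((at2 m x (pre2 κ m y z D.J)).getD i []).getD a 0) =
      vT κ m x y z ((D.J.getD i []).getD a []) := by
    intro i a
    rw [at2_pre2, getD_map' (fun l : List Tb => l.map (vT κ m x y z)) _ _ [] [] rfl,
      getD_map' (vT κ m x y z) _ _ [] 0 hv0]
  have hQe : ∀ i a : ℕ, (((at2 m x (pre2 κ m y z D.Q)).getD i []).getD a 0) =
      vT κ m x y z ((D.Q.getD i []).getD a []) := by
    intro i a
    rw [at2_pre2, getD_map' (fun l : List Tb => l.map (vT κ m x y z)) _ _ [] [] rfl,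
      getD_map' (vT κ m x y z) _ _ [] 0 hv0]
  have hJl : ∀ i : ℕ, ((at2 m x (pre2 κ m y z D.J)).getD i []).length ≤ 8 := by
    intro i
    rw [at2_pre2, getD_map' (fun l : List Tb => l.map (vT κ m x y z)) _ _ [] [] rfl,
      List.length_map]
    exact hJ2 i
  have hQl : ∀ i : ℕ, ((at2 m x (pre2 κ m y z D.Q)).getD i []).length ≤ 8 := by
    intro i
    rw [at2_pre2, getD_map' (fun l : List Tb => l.map (vT κ m x y z)) _ _ [] [] rfl,
      List.length_map]
    exact hQ i
  have hU : ∀ (j : Fin 8) (a : ℕ), ((((prN m (at2 m x (pre2 κ m y z D.Q))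
      (at2 m x (pre2 κ m y z D.J))).getD j []).getD a 0 : ℕ) : S) =
      ∑ b : Fin 8, evG κ' sg (x : S) (y : S) (z : S) (tE ((D.Q.getD a []).getD b [])) *
        evG κ' sg (x : S) (y : S) (z : S) (tE ((D.J.getD j []).getD b [])) := by
    intro j a
    have hj : (j : ℕ) < (at2 m x (pre2 κ m y z D.J)).length := by
      rw [at2_pre2, List.length_map, hJ]
      exact j.isLt
    have h1 : (prN m (at2 m x (pre2 κ m y z D.Q)) (at2 m x (pre2 κ m y z D.J))).getD j [] =
        (at2 m x (pre2 κ m y z D.Q)).map fun r =>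
          Nat.mod (dotN r ((at2 m x (pre2 κ m y z D.J)).getD j [])) m := by
      unfold prN
      rw [List.getD_eq_getElem _ _ (by rw [List.length_map]; exact hj), List.getElem_map,
        List.getD_eq_getElem _ _ hj]
    rw [h1, getD_map' (fun r => Nat.mod (dotN r ((at2 m x (pre2 κ m y z D.J)).getD j [])) m)
      _ _ [] 0 (Nat.zero_mod m)]
    rw [hm, dotN_eq 8 _ _ (hQl a)]
    push_cast
    refine Finset.sum_congr rfl fun b _ => ?_
    rw [hQe, hJe, hv, hv]
  have hdot : ∀ i j : Fin 8, ((dotN ((at2 m x (pre2 κ m y z D.J)).getD i [])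
      ((prN m (at2 m x (pre2 κ m y z D.Q)) (at2 m x (pre2 κ m y z D.J))).getD j []) : ℕ) : S) =
      evG κ' sg (x : S) (y : S) (z : S) (pull D.Jf (qfM D.Qf) i j) := by
    intro i j
    rw [dotN_eq 8 _ _ (hJl i), evG_pull κ' h0']
    push_cast
    refine Finset.sum_congr rfl fun a _ => ?_
    rw [hU, hJe, hv]
    rfl
  unfold LT lhN
  change ((hxN m x (D.d.map (rowN κ m y z)) * (Nat.mod (_ + _) m) : ℕ) : S) = _
  rw [Nat.cast_mul, hm, Nat.cast_add, hdot, hdot]
  congr 1
  exact hv D.d

theorem lh_cast (D : FD) (hD : lenN D = true) (i j : Fin 8) :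
    ((LH κ m y z D x i j : ℕ) : S) =
      evG (fun a : ℤ => ((κ a : ℕ) : S)) sg (x : S) (y : S) (z : S) (lsum (D.ts.map fun T =>
        E.mul (tE T.d) (pull T.Jf (qfM T.Qf) i j))) +
      evG (fun a : ℤ => ((κ a : ℕ) : S)) sg (x : S) (y : S) (z : S) (lsum (D.ts.map fun T =>
        E.mul (tE T.d) (pull T.Jf (qfM T.Qf) j i))) := by
  simp only [lenN, Bool.and_eq_true, List.all_eq_true] at hD
  set κ' : ℤ → S := fun a : ℤ => ((κ a : ℕ) : S) with hκ'
  have h0' : κ' 0 = 0 := by rw [hκ']; simp [h0]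
  have h : ∀ (L : List Tm), (∀ T ∈ L, lenT T = true) → ∀ a : ℕ,
      ((L.foldl (fun a T => Nat.add (LT κ m y z T x i j) a) a : ℕ) : S) = (a : S) +
      (evG κ' sg (x : S) (y : S) (z : S) (lsum (L.map fun T =>
        E.mul (tE T.d) (pull T.Jf (qfM T.Qf) i j))) +
      evG κ' sg (x : S) (y : S) (z : S) (lsum (L.map fun T =>
        E.mul (tE T.d) (pull T.Jf (qfM T.Qf) j i)))) := by
    intro L
    induction L with
    | nil =>
      intro _ a
      simp [lsum, evG, h0']
    | cons T L ih =>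
      intro hL a
      rw [List.foldl_cons, ih (fun T hT => hL T (List.mem_cons_of_mem _ hT))]
      change ((LT κ m y z T x i j + a : ℕ) : S) + _ = _
      rw [Nat.cast_add, tm_cast h0 hm sg x y z T (hL T List.mem_cons_self) i j]
      simp only [List.map_cons, lsum, evG]
      ring
  have h1 := h D.ts hD.1 0
  rw [Nat.cast_zero, zero_add] at h1
  exact h1

theorem rh_cast (D : FD) (hD : lenN D = true) (i j : Fin 8) :
    ((RH κ m y z D x i j : ℕ) : S) =
      (∑ l : Fin 9, evG (fun a : ℤ => ((κ a : ℕ) : S)) sg (x : S) (y : S) (z : S) (D.gf l) *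
        evG (fun a : ℤ => ((κ a : ℕ) : S)) sg (x : S) (y : S) (z : S)
          (cf (qfM (D.Nf l)) i j)) +
      ∑ l : Fin 9, evG (fun a : ℤ => ((κ a : ℕ) : S)) sg (x : S) (y : S) (z : S) (D.gf l) *
        evG (fun a : ℤ => ((κ a : ℕ) : S)) sg (x : S) (y : S) (z : S)
          (cf (qfM (D.Nf l)) j i) := by
  simp only [lenN, Bool.and_eq_true, List.all_eq_true] at hD
  have hg : D.g.length ≤ 9 := Nat.le_of_ble_eq_true hD.2
  set κ' : ℤ → S := fun a : ℤ => ((κ a : ℕ) : S) with hκ'
  have h0' : κ' 0 = 0 := by rw [hκ']; simp [h0]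
  have hv : ∀ T : Tb, ((vT κ m x y z T : ℕ) : S) = evG κ' sg (x : S) (y : S) (z : S) (tE T) :=
    fun T => tb_cast h0 hm sg x y z T
  have hv0 : vT κ m x y z [] = 0 := rfl
  have hN : ∀ i j : Fin 8, ((dotN ((D.g.map fun T => T.map (rowN κ m y z)).map (hxN m x))
      ((((D.N.map (pre2 κ m y z)).getD i []).getD j []).map (hxN m x)) : ℕ) : S) =
      ∑ l : Fin 9, evG κ' sg (x : S) (y : S) (z : S) (D.gf l) *
        evG κ' sg (x : S) (y : S) (z : S) (cf (qfM (D.Nf l)) i j) := by
    intro i j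
    have h1 : (D.g.map fun T => T.map (rowN κ m y z)).map (hxN m x) =
        D.g.map (vT κ m x y z) := by
      rw [List.map_map]
      rfl
    have h2 : (((D.N.map (pre2 κ m y z)).getD i []).getD j []).map (hxN m x) =
        ((D.N.getD i []).getD j []).map (vT κ m x y z) := by
      rw [getD_map' (pre2 κ m y z) _ _ [] [] rfl]
      unfold pre2
      rw [getD_map' (fun l : List Tb => l.map fun T => T.map (rowN κ m y z)) _ _ [] [] rfl,
        List.map_map]
      rfl
    rw [h1, h2, dotN_eq 9 _ _ (by rw [List.length_map]; exact hg)]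
    push_cast
    refine Finset.sum_congr rfl fun l _ => ?_
    rw [getD_map' (vT κ m x y z) _ _ [] 0 hv0, getD_map' (vT κ m x y z) _ _ [] 0 hv0, hv, hv,
      evG_cf κ' h0']
    rfl
  unfold RH rhN
  change ((dotN _ _ + dotN _ _ : ℕ) : S) = _
  rw [Nat.cast_add, hN, hN]

end

/-- the difference of the coefficients of `w i * w j` -/
def FD.dif (D : FD) (i j : Fin 8) : E :=
  E.sub (lsum (D.ts.map fun T => E.mul (tE T.d) (pull T.Jf (qfM T.Qf) i j)))
    (lsum [E.mul (D.gf 0) (cf (qfM (D.Nf 0)) i j), E.mul (D.gf 1) (cf (qfM (D.Nf 1)) i j),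
      E.mul (D.gf 2) (cf (qfM (D.Nf 2)) i j), E.mul (D.gf 3) (cf (qfM (D.Nf 3)) i j),
      E.mul (D.gf 4) (cf (qfM (D.Nf 4)) i j), E.mul (D.gf 5) (cf (qfM (D.Nf 5)) i j),
      E.mul (D.gf 6) (cf (qfM (D.Nf 6)) i j), E.mul (D.gf 7) (cf (qfM (D.Nf 7)) i j),
      E.mul (D.gf 8) (cf (qfM (D.Nf 8)) i j)])

theorem dif_cast {S : Type} [CommRing S] {κ : ℤ → ℕ} {m : ℕ} (h0 : κ 0 = 0)
    (hm : ∀ a : ℕ, ((Nat.mod a m : ℕ) : S) = (a : S)) (sg : S) (x y z : ℕ) (D : FD)
    (hD : lenN D = true) (i j : Fin 8) :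
    evG (fun a : ℤ => ((κ a : ℕ) : S)) sg (x : S) (y : S) (z : S)
      (E.add (D.dif i j) (D.dif j i)) =
    ((LH κ m y z D x i j : ℕ) : S) + sg * ((RH κ m y z D x i j : ℕ) : S) := by
  rw [lh_cast h0 hm sg x y z D hD, rh_cast h0 hm sg x y z D hD]
  set κ' : ℤ → S := fun a : ℤ => ((κ a : ℕ) : S) with hκ'
  have h0' : κ' 0 = 0 := by rw [hκ']; simp [h0]
  have hdif : ∀ i j : Fin 8, evG κ' sg (x : S) (y : S) (z : S) (D.dif i j) =
      evG κ' sg (x : S) (y : S) (z : S) (lsum (D.ts.map fun T =>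
        E.mul (tE T.d) (pull T.Jf (qfM T.Qf) i j))) +
      sg * ∑ l : Fin 9, evG κ' sg (x : S) (y : S) (z : S) (D.gf l) *
        evG κ' sg (x : S) (y : S) (z : S) (cf (qfM (D.Nf l)) i j) := by
    intro i j
    simp only [FD.dif, evG]
    congr 2
    simp only [evG, lsum, Fin.sum_univ_succ, h0']
    simp
  change evG κ' sg (x : S) (y : S) (z : S) _ + evG κ' sg (x : S) (y : S) (z : S) _ = _
  rw [hdif, hdif]
  ring

theorem E.cm_cast (m : ℕ) (hm : m ≠ 0) (a : ℤ) : ((E.cm m a : ℕ) : ZMod m) = (a : ZMod m) := by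
  have h := E.evM_eq m 0 0 0 hm (E.c a)
  exact h

theorem fchk_zero {dl : ℤ} {M B R n : ℕ} {D : FD} (h : fchk dl M B R n D = true)
    {S : Type} [CommRing S] (x y z : S) (hz : z * z = (dl : S)) (i j : Fin 8)
    (hij : i.val ≤ j.val) :
    E.ev x y z (D.dif i j) + E.ev x y z (D.dif j i) = 0 := by
  unfold fchk at h
  rw [fN_eq] at h
  set m : ℕ := Int.toNat (Int.sub (Int.ofNat (Nat.mul R R)) dl) with hmdef
  simp only [runN_eq, Bool.and_eq_true, allx_iff, pairs_iff] at h
  obtain ⟨⟨⟨hD, hM1⟩, hM2⟩, ⟨⟨h1, h2⟩, h3⟩, h4⟩ := h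
  have hM1 : 1 ≤ M := Nat.le_of_ble_eq_true hM1
  have hM2 : dl.natAbs ≤ M * M := Nat.le_of_ble_eq_true hM2
  set e := E.add (D.dif i j) (D.dif j i) with he
  have hmaj : ∀ x y : ℕ, E.evN x y M e =
      LH Int.natAbs 0 y M D x i j + RH Int.natAbs 0 y M D x i j := by
    intro x y
    have h5 := dif_cast (S := ℤ) (κ := Int.natAbs) (m := 0) rfl
      (fun a => congrArg Nat.cast (Nat.mod_zero a)) 1 x y M D hD i j
    rw [← he, evG_evN, one_mul] at h5
    exact_mod_cast h5
  have h3' : (LH Int.natAbs 0 B M D n i j + RH Int.natAbs 0 B M D n i j) * (R + 1) +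
      dl.natAbs < R * R := Nat.le_of_ble_eq_true (h3 i j hij)
  have hmR : (m : ℤ) = (R : ℤ) * R - dl := by
    have h5 : (0 : ℤ) ≤ (R : ℤ) * R - dl := by
      have h6 : dl.natAbs < R * R := lt_of_le_of_lt (Nat.le_add_left _ _) h3'
      have h7 : dl ≤ dl.natAbs := Int.le_natAbs
      have h8 : ((dl.natAbs : ℕ) : ℤ) < ((R * R : ℕ) : ℤ) := by exact_mod_cast h6
      push_cast at h8 h7
      linarith
    have h6 : Int.sub (Int.ofNat (Nat.mul R R)) dl = (R : ℤ) * R - dl := by
      change ((R * R : ℕ) : ℤ) - dl = _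
      push_cast
      rfl
    rw [hmdef, h6]
    exact Int.toNat_of_nonneg h5
  have hm0 : m ≠ 0 := by
    intro h5
    rw [h5] at hmR
    have h6 : dl.natAbs < R * R := lt_of_le_of_lt (Nat.le_add_left _ _) h3'
    have h7 : dl ≤ dl.natAbs := Int.le_natAbs
    have h8 : ((dl.natAbs : ℕ) : ℤ) < ((R * R : ℕ) : ℤ) := by exact_mod_cast h6
    push_cast at h8 h7 hmR
    linarith
  have hB : E.evN n 1 M e < B := by
    rw [hmaj]
    exact Nat.le_of_ble_eq_true (h2 i j hij)
  have hn : E.evN B 1 M e < B ^ n := by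
    rw [hmaj]
    exact Nat.le_of_ble_eq_true (h4 i j hij)
  have hB1 : 1 ≤ B := by omega
  have hmod : ∀ x < n, E.ev ((x : ℕ) : ZMod m) ((B : ℕ) : ZMod m) ((R : ℕ) : ZMod m) e = 0 := by
    intro x hx
    have h5 := dif_cast (S := ZMod m) (κ := E.cm m) (m := m) rfl
      (fun a => ZMod.natCast_mod a m) (-1) x B R D hD i j
    rw [← he] at h5
    have h6 : (fun a : ℤ => ((E.cm m a : ℕ) : ZMod m)) = fun a : ℤ => (a : ZMod m) :=
      funext fun a => E.cm_cast m hm0 a
    rw [h6, evG_ev] at h5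
    rw [h5]
    have h7 := Nat.eq_of_beq_eq_true (h1 x hx i j hij)
    have h8 : ((LH (E.cm m) m B R D x i j : ℕ) : ZMod m) =
        ((RH (E.cm m) m B R D x i j : ℕ) : ZMod m) := by
      rw [← ZMod.natCast_mod, ← ZMod.natCast_mod (RH (E.cm m) m B R D x i j)]
      exact congrArg Nat.cast h7
    rw [h8]
    ring
  exact E.zero_of_grid hM1 hM2 hmR hmod hB (by rw [hmaj]; exact h3') hB1 hn x y z hz

theorem fchk1_zero {dl : ℤ} {M B R n : ℕ} {D : FD} (h : fchk1 dl M B R n D = true)
    {S : Type} [CommRing S] (x y z : S) (hz : z * z = (dl : S)) (i j : Fin 8)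
    (hij : i.val ≤ j.val) :
    E.ev x y z (D.dif i j) + E.ev x y z (D.dif j i) = 0 := by
  unfold fchk1 at h
  rw [fN_eq, fN_eq] at h
  set m : ℕ := Int.toNat (Int.sub (Int.ofNat (Nat.mul R R)) dl) with hmdef
  simp only [runN_eq, Bool.and_eq_true, pairs_iff] at h
  obtain ⟨⟨⟨⟨hD, hM1⟩, hM2⟩, hn1⟩, ⟨⟨h1, h2⟩, h3⟩, h4⟩ := h
  have hM1 : 1 ≤ M := Nat.le_of_ble_eq_true hM1
  have hM2 : dl.natAbs ≤ M * M := Nat.le_of_ble_eq_true hM2
  have hn1 : 1 ≤ n := Nat.le_of_ble_eq_true hn1
  set e := E.add (D.dif i j) (D.dif j i) with he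
  have hmaj : ∀ x y : ℕ, E.evN x y M e =
      LH Int.natAbs 0 y M D x i j + RH Int.natAbs 0 y M D x i j := by
    intro x y
    have h5 := dif_cast (S := ℤ) (κ := Int.natAbs) (m := 0) rfl
      (fun a => congrArg Nat.cast (Nat.mod_zero a)) 1 x y M D hD i j
    rw [← he, evG_evN, one_mul] at h5
    exact_mod_cast h5
  have h3' : (LH Int.natAbs 0 (B ^ n) M D B i j + RH Int.natAbs 0 (B ^ n) M D B i j) * (R + 1) +
      dl.natAbs < R * R := Nat.le_of_ble_eq_true (h3 i j hij)
  have hmR : (m : ℤ) = (R : ℤ) * R - dl := by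
    have h5 : (0 : ℤ) ≤ (R : ℤ) * R - dl := by
      have h6 : dl.natAbs < R * R := lt_of_le_of_lt (Nat.le_add_left _ _) h3'
      have h7 : dl ≤ dl.natAbs := Int.le_natAbs
      have h8 : ((dl.natAbs : ℕ) : ℤ) < ((R * R : ℕ) : ℤ) := by exact_mod_cast h6
      push_cast at h8 h7
      linarith
    have h6 : Int.sub (Int.ofNat (Nat.mul R R)) dl = (R : ℤ) * R - dl := by
      change ((R * R : ℕ) : ℤ) - dl = _
      push_cast
      rfl
    rw [hmdef, h6]
    exact Int.toNat_of_nonneg h5
  have hm0 : m ≠ 0 := by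
    intro h5
    rw [h5] at hmR
    have h6 : dl.natAbs < R * R := lt_of_le_of_lt (Nat.le_add_left _ _) h3'
    have h7 : dl ≤ dl.natAbs := Int.le_natAbs
    have h8 : ((dl.natAbs : ℕ) : ℤ) < ((R * R : ℕ) : ℤ) := by exact_mod_cast h6
    push_cast at h8 h7 hmR
    linarith
  have hB : E.evN 1 1 M e < B := by
    rw [hmaj]
    exact Nat.le_of_ble_eq_true (h2 i j hij)
  have hn : E.evN B 1 M e < B ^ n := by
    rw [hmaj]
    exact Nat.le_of_ble_eq_true (h4 i j hij)
  have hmod : E.ev ((B : ℕ) : ZMod m) ((B ^ n : ℕ) : ZMod m) ((R : ℕ) : ZMod m) e = 0 := by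
    have h5 := dif_cast (S := ZMod m) (κ := E.cm m) (m := m) rfl
      (fun a => ZMod.natCast_mod a m) (-1) B (B ^ n) R D hD i j
    rw [← he] at h5
    have h6 : (fun a : ℤ => ((E.cm m a : ℕ) : ZMod m)) = fun a : ℤ => (a : ZMod m) :=
      funext fun a => E.cm_cast m hm0 a
    rw [h6, evG_ev] at h5
    rw [h5]
    have h7 := Nat.eq_of_beq_eq_true (h1 i j hij)
    have h8 : ((LH (E.cm m) m (B ^ n) R D B i j : ℕ) : ZMod m) =
        ((RH (E.cm m) m (B ^ n) R D B i j : ℕ) : ZMod m) := by
      rw [← ZMod.natCast_mod, ← ZMod.natCast_mod (RH (E.cm m) m (B ^ n) R D B i j)]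
      exact congrArg Nat.cast h7
    rw [h8]
    ring
  exact E.zero_of_kr hM1 hM2 hmR hmod hB (by rw [hmaj]; exact h3') hn1 hn x y z hz

/-- The identity. -/
theorem cert_of {D : FD} {S : Type} [CommRing S] (h2 : ∀ z : S, 2 * z = 0 → z = 0) (x y z : S)
    (h : ∀ i j : Fin 8, i.val ≤ j.val → E.ev x y z (D.dif i j) + E.ev x y z (D.dif j i) = 0)
    (w : Fin 8 → S) :
    (D.ts.map fun T => E.ev x y z (tE T.d) * qv x y z (qfM T.Qf) (jw x y z T.Jf w)).sum =
      ∑ l, E.ev x y z (D.gf l) * qv x y z (qfM (D.Nf l)) w := by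
  have h0 : ∀ i j : Fin 8, E.ev x y z (D.dif i j) + E.ev x y z (D.dif j i) = 0 := by
    intro i j
    rcases le_total i.val j.val with h4 | h4
    · exact h i j h4
    · rw [add_comm]
      exact h j i h4
  rw [← sub_eq_zero]
  apply h2
  have hts : ∀ L : List Tm,
      (L.map fun T => E.ev x y z (tE T.d) * qv x y z (qfM T.Qf) (jw x y z T.Jf w)).sum =
      ∑ i, ∑ j, E.ev x y z (lsum (L.map fun T =>
        E.mul (tE T.d) (pull T.Jf (qfM T.Qf) i j))) * (w i * w j) := by
    intro L
    induction L with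
    | nil => simp [lsum, E.ev]
    | cons T L ih =>
      rw [List.map_cons, List.sum_cons, ih, qv_jw]
      simp only [List.map_cons, lsum, E.ev, add_mul, Finset.sum_add_distrib]
      congr 1
      rw [Finset.mul_sum]
      refine Finset.sum_congr rfl fun i _ => ?_
      rw [Finset.mul_sum]
      exact Finset.sum_congr rfl fun j _ => by ring
  have h3 : (D.ts.map fun T =>
      E.ev x y z (tE T.d) * qv x y z (qfM T.Qf) (jw x y z T.Jf w)).sum -
      ∑ l, E.ev x y z (D.gf l) * qv x y z (qfM (D.Nf l)) w =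
      ∑ i, ∑ j, E.ev x y z (D.dif i j) * (w i * w j) := by
    rw [hts]
    simp only [qv_cf]
    have h4 : ∀ i j, E.ev x y z (D.dif i j) =
        E.ev x y z (lsum (D.ts.map fun T => E.mul (tE T.d) (pull T.Jf (qfM T.Qf) i j))) -
        ∑ l, E.ev x y z (D.gf l) * E.ev x y z (cf (qfM (D.Nf l)) i j) := by
      intro i j
      simp only [FD.dif, E.ev]
      congr 1
      simp [E.ev, lsum, Fin.sum_univ_succ]
    simp only [h4, sub_mul, Finset.sum_sub_distrib, Finset.mul_sum, Finset.sum_mul]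
    congr 1
    rw [Finset.sum_comm]
    refine Finset.sum_congr rfl fun i _ => ?_
    rw [Finset.sum_comm]
    refine Finset.sum_congr rfl fun j _ => Finset.sum_congr rfl fun l _ => ?_
    ring
  rw [h3, two_mul]
  nth_rewrite 2 [Finset.sum_comm]
  rw [← Finset.sum_add_distrib]
  refine Finset.sum_eq_zero fun i _ => ?_
  rw [← Finset.sum_add_distrib]
  refine Finset.sum_eq_zero fun j _ => ?_
  rw [mul_comm (w j) (w i), ← add_mul, h0, zero_mul]

/-- A true test is an identity. -/
theorem fcert {dl : ℤ} {M B R n : ℕ} {D : FD} (h : fchk dl M B R n D = true)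
    {S : Type} [CommRing S] (h2 : ∀ z : S, 2 * z = 0 → z = 0) (x y z : S)
    (hz : z * z = (dl : S)) (w : Fin 8 → S) :
    (D.ts.map fun T => E.ev x y z (tE T.d) * qv x y z (qfM T.Qf) (jw x y z T.Jf w)).sum =
      ∑ l, E.ev x y z (D.gf l) * qv x y z (qfM (D.Nf l)) w :=
  cert_of h2 x y z (fun i j hij => fchk_zero h x y z hz i j hij) w

/-- A true test is an identity. -/
theorem fcert1 {dl : ℤ} {M B R n : ℕ} {D : FD} (h : fchk1 dl M B R n D = true)
    {S : Type} [CommRing S] (h2 : ∀ z : S, 2 * z = 0 → z = 0) (x y z : S)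
    (hz : z * z = (dl : S)) (w : Fin 8 → S) :
    (D.ts.map fun T => E.ev x y z (tE T.d) * qv x y z (qfM T.Qf) (jw x y z T.Jf w)).sum =
      ∑ l, E.ev x y z (D.gf l) * qv x y z (qfM (D.Nf l)) w :=
  cert_of h2 x y z (fun i j hij => fchk1_zero h x y z hz i j hij) w

/-- the rows of a form in a table of forms -/
def rowsOf (N : List (List (List Tb))) (l : ℕ) : List (List Tb) :=
  (List.range 8).map fun i => (List.range 8).map fun j => ((N.getD i []).getD j []).getD l []

theorem getD_range_map {α : Type} (f : ℕ → α) (i : Fin 8) (a : α) :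
    ((List.range 8).map f).getD i a = f i := by
  fin_cases i <;> rfl

theorem rowsOf_get (N : List (List (List Tb))) (l : ℕ) (i j : Fin 8) :
    ((rowsOf N l).getD i []).getD j [] = ((N.getD i []).getD j []).getD l [] := by
  unfold rowsOf
  rw [getD_range_map, getD_range_map]

end Pool.Agent.GSW
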