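import Pool.Agent.GSW.HTree
import Pool.Agent.GSE.Fld

/-!
# GSW: tests modulo a prime for data over `ℤ[√δ]`

`exists_hom`: a ring homomorphism from the ring of algebraic integers to a field of characteristic
`p`. `ev_ne`: an expression in `s`, `t`, `r` is not zero in `ℂ(s, t)` if its values modulo `p` at a
point are not zero for both square roots of `δ` modulo `p`. `jdet`: the same for determinants.
`top_of_hom`: two fractions generate `ℂ(s, t)`.
-/

set_option autoImplicit false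

noncomputable section

namespace Pool.Agent.GSW

open MvPolynomial Matrix Pool.Agent.GSH GSX
open Pool.Agent.GSE (top_of_st)

/-- a prime is not invertible in the ring of algebraic integers -/
theorem exists_hom (p : ℕ) (hp : p.Prime) :
    ∃ (κ : Type) (_ : Field κ) (_ : CharP κ p), Nonempty (integralClosure ℤ ℂ →+* κ) := by
  have h1 : Ideal.span {(p : integralClosure ℤ ℂ)} ≠ ⊤ := by
    intro h
    rw [Ideal.span_singleton_eq_top] at h
    obtain ⟨a, ha⟩ := h.exists_right_inv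
    have h2 : (p : ℂ) * (a : ℂ) = 1 := by
      have := congrArg (fun x : integralClosure ℤ ℂ => (x : ℂ)) ha
      simpa using this
    have hp0 : (p : ℚ) ≠ 0 := by exact_mod_cast hp.ne_zero
    have h3 : (a : ℂ) = algebraMap ℚ ℂ (p : ℚ)⁻¹ := by
      rw [map_inv₀, map_natCast]
      exact eq_inv_of_mul_eq_one_right h2
    have h4 : IsIntegral ℤ ((p : ℚ)⁻¹) := by
      have h5 : IsIntegral ℤ (a : ℂ) := a.2
      rw [h3] at h5
      exact (isIntegral_algebraMap_iff (algebraMap ℚ ℂ).injective).1 h5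
    obtain ⟨n, hn⟩ := IsIntegrallyClosed.isIntegral_iff.1 h4
    have h5 : (n : ℚ) * p = 1 := by
      have : (n : ℚ) = (p : ℚ)⁻¹ := hn
      rw [this]
      exact inv_mul_cancel₀ hp0
    have h6 : n * (p : ℤ) = 1 := by exact_mod_cast h5
    have h7 : (p : ℤ) ∣ 1 := ⟨n, by rw [mul_comm]; exact h6.symm⟩
    have h8 : p ∣ 1 := by exact_mod_cast h7
    exact hp.one_lt.ne' (Nat.dvd_one.1 h8)
  obtain ⟨M, hM, hM2⟩ := Ideal.exists_le_maximal _ h1
  let _ : Field (integralClosure ℤ ℂ ⧸ M) := Ideal.Quotient.field M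
  refine ⟨integralClosure ℤ ℂ ⧸ M, inferInstance, ?_, ⟨Ideal.Quotient.mk M⟩⟩
  rw [CharP.charP_iff_prime_eq_zero hp]
  have h2 : (p : integralClosure ℤ ℂ) ∈ M := hM2 (Ideal.mem_span_singleton_self _)
  have h3 := Ideal.Quotient.eq_zero_iff_mem.2 h2
  rwa [map_natCast] at h3

namespace E

/-- the expression does not contain `s`, `t` -/
def cst : E → Bool
  | c _ => true
  | s => false
  | t => false
  | r => true
  | add a b => cst a && cst b
  | sub a b => cst a && cst b
  | mul a b => cst a && cst b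

theorem ev_cst {R : Type} [CommRing R] {e : E} (h : cst e = true) (x y x' y' z : R) :
    ev x y z e = ev x' y' z e := by
  induction e with
  | c a => rfl
  | s => exact absurd h (by simp [cst])
  | t => exact absurd h (by simp [cst])
  | r => rfl
  | add a b iha ihb =>
    rw [cst, Bool.and_eq_true] at h
    rw [ev, ev, iha h.1, ihb h.2]
  | sub a b iha ihb =>
    rw [cst, Bool.and_eq_true] at h
    rw [ev, ev, iha h.1, ihb h.2]
  | mul a b iha ihb =>
    rw [cst, Bool.and_eq_true] at h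
    rw [ev, ev, iha h.1, ihb h.2]

end E

/-- `u` is a square root of `d` modulo `p` -/
def rtChk (p u : ℕ) (d : ℤ) : Bool :=
  Nat.ble u p && Int.emod (Int.sub (Int.mul (Int.ofNat u) (Int.ofNat u)) d) (Int.ofNat p) == 0

theorem rt_of {p u : ℕ} [hp : Fact p.Prime] {d : ℤ} (h : rtChk p u d = true) {κ : Type} [Field κ]
    [CharP κ p] {z : κ} (hz : z * z = d) :
    z = ((u : ℕ) : κ) ∨ z = ((p - u : ℕ) : κ) := by
  unfold rtChk at h
  rw [Bool.and_eq_true, beq_iff_eq] at h
  have h0 : u ≤ p := Nat.le_of_ble_eq_true h.1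
  have h1 : (p : ℤ) ∣ (u : ℤ) * u - d := Int.dvd_of_emod_eq_zero h.2
  have h2 : (((u : ℤ) * u - d : ℤ) : κ) = 0 := (CharP.intCast_eq_zero_iff κ p _).2 h1
  push_cast at h2
  have h3 : (z - u) * (z + u) = 0 := by linear_combination hz - h2
  rcases mul_eq_zero.1 h3 with h4 | h4
  · exact Or.inl (sub_eq_zero.1 h4)
  · right
    rw [Nat.cast_sub h0, CharP.cast_eq_zero κ p]
    linear_combination h4

/-- the value is not zero modulo `p` -/
def nz (p a b u : ℕ) (e : E) : Bool := !Nat.beq (Nat.mod (E.evM p a b u e) p) 0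

theorem nz_of {p a b u : ℕ} [hp : Fact p.Prime] {e : E} (h : nz p a b u e = true) {κ : Type}
    [Field κ] [CharP κ p] : E.ev (a : κ) (b : κ) (u : κ) e ≠ 0 := by
  intro h0
  unfold nz at h
  rw [Bool.not_eq_true'] at h
  have h1 : ((E.evM p a b u e : ℕ) : ZMod p) ≠ 0 := by
    rw [Ne, ZMod.natCast_eq_zero_iff]
    intro h2
    have h3 : Nat.mod (E.evM p a b u e) p = 0 := Nat.mod_eq_zero_of_dvd h2
    rw [h3] at h
    exact absurd h (by simp)
  rw [E.evM_eq _ _ _ _ hp.out.ne_zero] at h1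
  have h2 := E.ev_map (ZMod.castHom (dvd_refl p) κ) (a : ZMod p) (b : ZMod p) (u : ZMod p) e
  simp only [map_natCast] at h2
  rw [h0] at h2
  exact h1 ((map_eq_zero_iff _ (ZMod.castHom_injective κ)).1 h2)

/-- The value at a point is not zero. -/
theorem evC_ne {p a b u : ℕ} [hp : Fact p.Prime] {d : ℤ} (hu : rtChk p u d = true) {e : E}
    (h1 : nz p a b u e = true) (h2 : nz p a b (p - u) e = true) {z : ℂ} (hz : z * z = d) :
    E.ev (a : ℂ) (b : ℂ) z e ≠ 0 := by
  obtain ⟨κ, _, _, ⟨φ⟩⟩ := exists_hom p hp.out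
  have hzi : IsIntegral ℤ z := by
    refine IsIntegral.of_pow (n := 2) two_pos ?_
    rw [pow_two, hz]
    exact isIntegral_algebraMap (R := ℤ) (x := d)
  set z' : integralClosure ℤ ℂ := ⟨z, hzi⟩ with hz'
  have hz2 : z' * z' = (d : integralClosure ℤ ℂ) := by
    apply Subtype.ext
    simp [hz', hz]
  have h3 := E.ev_map (algebraMap (integralClosure ℤ ℂ) ℂ) (a : integralClosure ℤ ℂ) b z' e
  simp only [map_natCast] at h3
  intro h0
  have h4 : algebraMap (integralClosure ℤ ℂ) ℂ z' = z := rfl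
  rw [h4, h0] at h3
  have h5 : E.ev (a : integralClosure ℤ ℂ) b z' e = 0 :=
    (map_eq_zero_iff _ (FaithfulSMul.algebraMap_injective (integralClosure ℤ ℂ) ℂ)).1 h3
  have h6 := E.ev_map φ (a : integralClosure ℤ ℂ) b z' e
  rw [h5, map_zero] at h6
  simp only [map_natCast] at h6
  have h7 : φ z' * φ z' = (d : κ) := by
    rw [← map_mul, hz2, map_intCast]
  rcases rt_of hu h7 with h8 | h8
  · rw [h8] at h6
    exact nz_of h1 h6.symm
  · rw [h8] at h6
    exact nz_of h2 h6.symm

/-! ### Values in the field of rational functions -/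

/-- the square root in `ℂ(s, t)` -/
def zK (z : ℂ) : KK := algebraMap ℂ KK z

theorem zK_sq {z : ℂ} {d : ℤ} (hz : z * z = d) : zK z * zK z = d := by
  unfold zK
  rw [← map_mul, hz, map_intCast]

/-- the polynomial of an expression -/
def mp (z : ℂ) (e : E) : MvPolynomial (Fin 2) ℂ := E.ev (X 0) (X 1) (C z) e

theorem ev_KK (z : ℂ) (e : E) :
    E.ev sK tK (zK z) e = algebraMap (MvPolynomial (Fin 2) ℂ) KK (mp z e) := by
  unfold mp
  rw [E.ev_map (algebraMap (MvPolynomial (Fin 2) ℂ) KK)]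
  have h1 : zK z = algebraMap (MvPolynomial (Fin 2) ℂ) KK (C z) := by
    rw [← MvPolynomial.algebraMap_eq]
    exact IsScalarTower.algebraMap_apply ℂ (MvPolynomial (Fin 2) ℂ) KK z
  rw [h1]
  rfl

theorem eval_mp (a b : ℕ) (z : ℂ) (e : E) :
    eval ![(a : ℂ), (b : ℂ)] (mp z e) = E.ev (a : ℂ) (b : ℂ) z e := by
  rw [mp, E.ev_map (eval ![(a : ℂ), (b : ℂ)])]
  simp

theorem ev_ne {p a b u : ℕ} [hp : Fact p.Prime] {d : ℤ} (hu : rtChk p u d = true) {e : E}
    (h1 : nz p a b u e = true) (h2 : nz p a b (p - u) e = true) {z : ℂ} (hz : z * z = d) :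
    E.ev sK tK (zK z) e ≠ 0 := by
  rw [ev_KK]
  intro h
  have h3 := (map_eq_zero_iff _ (IsFractionRing.injective (MvPolynomial (Fin 2) ℂ) KK)).1 h
  have h4 := eval_mp a b z e
  rw [h3, map_zero] at h4
  exact evC_ne hu h1 h2 hz h4.symm

/-- the entries of the product of `J` at the point `(a, b, u)` and `L` -/
def pe (p a b u : ℕ) (J : Fin 8 → Fin 8 → E) (L : Fin 8 → Fin 8 → ℕ) (i j : Fin 8) : ℕ :=
  E.evM p a b u (J i 0) * L 0 j + E.evM p a b u (J i 1) * L 1 j +
    E.evM p a b u (J i 2) * L 2 j + E.evM p a b u (J i 3) * L 3 j +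
    E.evM p a b u (J i 4) * L 4 j + E.evM p a b u (J i 5) * L 5 j +
    E.evM p a b u (J i 6) * L 6 j + E.evM p a b u (J i 7) * L 7 j

/-- `L` is inverse to `J` at the point `(a, b, u)` modulo `p` -/
def invChk (p a b u : ℕ) (J : Fin 8 → Fin 8 → E) (L : Fin 8 → Fin 8 → ℕ) : Bool :=
  all8 fun i => all8 fun j =>
    Nat.beq (Nat.mod (pe p a b u J L i j) p) (bif Nat.beq i.val j.val then 1 else 0)

theorem det_of_inv {p a b u : ℕ} [hp : Fact p.Prime] {J : Fin 8 → Fin 8 → E}
    {L : Fin 8 → Fin 8 → ℕ} (h : invChk p a b u J L = true) {κ : Type} [Field κ] [CharP κ p] :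
    (Matrix.of fun i j => E.ev (a : κ) (b : κ) (u : κ) (J i j)).det ≠ 0 := by
  have h1 : ∀ i j, (pe p a b u J L i j : ZMod p) = (1 : Matrix (Fin 8) (Fin 8) (ZMod p)) i j := by
    intro i j
    have h2 := Nat.eq_of_beq_eq_true ((all8_iff _).1 ((all8_iff _).1 h i) j)
    have h3 : ((pe p a b u J L i j : ℕ) : ZMod p) =
        ((Nat.mod (pe p a b u J L i j) p : ℕ) : ZMod p) := (ZMod.natCast_mod _ p).symm
    rw [h3, h2]
    by_cases hij : i = j
    · subst hij
      simp
    · have h4 : Nat.beq i.val j.val = false := by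
        rw [Bool.eq_false_iff]
        intro h5
        exact hij (Fin.ext (Nat.eq_of_beq_eq_true h5))
      rw [h4, Matrix.one_apply_ne hij]
      simp
  have h2 : (Matrix.of fun i j => E.ev (a : ZMod p) (b : ZMod p) (u : ZMod p) (J i j)) *
      (Matrix.of fun i j => ((L i j : ℕ) : ZMod p)) = 1 := by
    ext i j
    rw [← h1 i j]
    simp [Matrix.mul_apply, Fin.sum_univ_eight, pe, E.evM_eq _ _ _ _ hp.out.ne_zero]
  have h3 : (Matrix.of fun i j => E.ev (a : ZMod p) (b : ZMod p) (u : ZMod p) (J i j)).det ≠ 0 := by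
    intro h4
    have h5 := congrArg Matrix.det h2
    rw [Matrix.det_mul, Matrix.det_one, h4, zero_mul] at h5
    exact zero_ne_one h5
  intro h4
  apply h3
  have h5 : (Matrix.of fun i j => E.ev (a : κ) (b : κ) (u : κ) (J i j)) =
      (ZMod.castHom (dvd_refl p) κ).mapMatrix
        (Matrix.of fun i j => E.ev (a : ZMod p) (b : ZMod p) (u : ZMod p) (J i j)) := by
    ext i j
    have h6 := E.ev_map (ZMod.castHom (dvd_refl p) κ) (a : ZMod p) (b : ZMod p) (u : ZMod p) (J i j)
    simp only [map_natCast] at h6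
    exact h6.symm
  rw [h5, ← RingHom.map_det] at h4
  exact (map_eq_zero_iff _ (ZMod.castHom_injective κ)).1 h4

theorem jdet {p a b u : ℕ} [hp : Fact p.Prime] {d : ℤ} (hu : rtChk p u d = true)
    {J : Fin 8 → Fin 8 → E} {L L' : Fin 8 → Fin 8 → ℕ} (h : invChk p a b u J L = true)
    (h' : invChk p a b (p - u) J L' = true) {z : ℂ} (hz : z * z = d) :
    IsUnit (jm sK tK (zK z) J).det := by
  obtain ⟨κ, _, _, ⟨φ⟩⟩ := exists_hom p hp.out
  have hzi : IsIntegral ℤ z := by
    refine IsIntegral.of_pow (n := 2) two_pos ?_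
    rw [pow_two, hz]
    exact isIntegral_algebraMap (R := ℤ) (x := d)
  set z' : integralClosure ℤ ℂ := ⟨z, hzi⟩ with hz'
  have hz2 : z' * z' = (d : integralClosure ℤ ℂ) := by
    apply Subtype.ext
    simp [hz', hz]
  have h7 : φ z' * φ z' = (d : κ) := by
    rw [← map_mul, hz2, map_intCast]
  set MA : Matrix (Fin 8) (Fin 8) (integralClosure ℤ ℂ) :=
    Matrix.of fun i j => E.ev (a : integralClosure ℤ ℂ) (b : integralClosure ℤ ℂ) z' (J i j)
    with hMA
  have hA : MA.det ≠ 0 := by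
    intro h0
    have h8 := φ.map_det MA
    rw [h0, map_zero] at h8
    have h9 : φ.mapMatrix MA = Matrix.of fun i j => E.ev (a : κ) (b : κ) (φ z') (J i j) := by
      ext i j
      have h10 := E.ev_map φ (a : integralClosure ℤ ℂ) b z' (J i j)
      simp only [map_natCast] at h10
      exact h10
    rw [h9] at h8
    rcases rt_of hu h7 with h11 | h11
    · rw [h11] at h8
      exact det_of_inv h h8.symm
    · rw [h11] at h8
      exact det_of_inv h' h8.symm
  unfold jm
  rw [GSE.det_m8, isUnit_iff_ne_zero]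
  have h4 : (Matrix.of fun i j => E.ev sK tK (zK z) (J i j)) =
      (algebraMap (MvPolynomial (Fin 2) ℂ) KK).mapMatrix (Matrix.of fun i j => mp z (J i j)) := by
    ext i j
    exact ev_KK z _
  rw [h4, ← RingHom.map_det]
  intro h6
  have h8 := (map_eq_zero_iff _ (IsFractionRing.injective (MvPolynomial (Fin 2) ℂ) KK)).1 h6
  have h9 := (eval ![(a : ℂ), (b : ℂ)]).map_det (Matrix.of fun i j => mp z (J i j))
  rw [h8, map_zero] at h9
  have h10 : (eval ![(a : ℂ), (b : ℂ)]).mapMatrix (Matrix.of fun i j => mp z (J i j)) =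
      (algebraMap (integralClosure ℤ ℂ) ℂ).mapMatrix MA := by
    ext i j
    have h11 := E.ev_map (algebraMap (integralClosure ℤ ℂ) ℂ) (a : integralClosure ℤ ℂ) b z'
      (J i j)
    simp only [map_natCast] at h11
    exact (eval_mp a b z (J i j)).trans h11.symm
  rw [h10, ← RingHom.map_det] at h9
  exact hA ((map_eq_zero_iff _
    (FaithfulSMul.algebraMap_injective (integralClosure ℤ ℂ) ℂ)).1 h9.symm)

/-! ### Generators of the field -/

/-- the power -/
def pw (e : E) : ℕ → E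
  | 0 => E.c 1
  | n + 1 => pw e n * e

/-- the value of a polynomial of degree at most `m`, times `dl ^ m` -/
def hom (m : ℕ) (dl n0 n1 : E) (L : List (E × ℕ × ℕ)) : E :=
  lsum (L.map fun a => a.1 * pw n0 a.2.1 * pw n1 a.2.2 * pw dl (m - a.2.1 - a.2.2))

/-- the degrees are at most `m` and the coefficients are constants -/
def dgs (m : ℕ) (L : List (E × ℕ × ℕ)) : Bool :=
  L.all fun a => Nat.ble (a.2.1 + a.2.2) m && E.cst a.1

theorem ev_pw {R : Type} [CommRing R] (x y z : R) (e : E) (n : ℕ) :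
    E.ev x y z (pw e n) = E.ev x y z e ^ n := by
  induction n with
  | zero => simp [pw, E.ev_c]
  | succ n ih => rw [pw, E.ev_mul, ih, pow_succ]

theorem ev_hom {R : Type} [CommRing R] (x y z : R) {m : ℕ} {dl n0 n1 : E} {c0 c1 : R}
    (h0 : E.ev x y z n0 = E.ev x y z dl * c0) (h1 : E.ev x y z n1 = E.ev x y z dl * c1)
    {L : List (E × ℕ × ℕ)} (hL : dgs m L = true) :
    E.ev x y z (hom m dl n0 n1 L) = E.ev x y z dl ^ m *
      (L.map fun a => E.ev x y z a.1 * c0 ^ a.2.1 * c1 ^ a.2.2).sum := by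
  unfold hom
  rw [ev_lsum, List.map_map]
  induction L with
  | nil => simp
  | cons a L ih =>
    unfold dgs at hL
    rw [List.all_cons, Bool.and_eq_true, Bool.and_eq_true] at hL
    have h2 : a.2.1 + a.2.2 ≤ m := Nat.le_of_ble_eq_true hL.1.1
    rw [List.map_cons, List.sum_cons, ih hL.2, List.map_cons, List.sum_cons]
    simp only [Function.comp_apply, E.ev_mul, ev_pw, h0, h1]
    obtain ⟨k, rfl⟩ : ∃ k, m = a.2.1 + a.2.2 + k := ⟨m - (a.2.1 + a.2.2), by omega⟩
    have h3 : a.2.1 + a.2.2 + k - a.2.1 - a.2.2 = k := by omega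
    rw [h3]
    ring

theorem ev_cst_mem {A : IntermediateField ℂ KK} {e : E} (h : E.cst e = true) (z : ℂ) :
    E.ev sK tK (zK z) e ∈ A := by
  rw [E.ev_cst h sK tK 0 0]
  have h1 := E.ev_map (algebraMap ℂ KK) 0 0 z e
  rw [map_zero] at h1
  rw [zK, ← h1]
  exact A.algebraMap_mem _

/-- the fractions `n0 / dl`, `n1 / dl` generate the field if `s` and `t` are rational functions of
them -/
theorem top_of_hom {p : Pm} {z : ℂ} (hz : z * z = p.dl) {dl n0 n1 : E} {m : ℕ}
    {S T Q : List (E × ℕ × ℕ)}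
    (hS : dgs m S = true) (hT : dgs m T = true) (hQ : dgs m Q = true)
    (h0 : E.isZero p (hom m dl n0 n1 S - E.s * hom m dl n0 n1 Q) = true)
    (h1 : E.isZero p (hom m dl n0 n1 T - E.t * hom m dl n0 n1 Q) = true)
    (hq : E.ev sK tK (zK z) (hom m dl n0 n1 Q) ≠ 0) (hd : E.ev sK tK (zK z) dl ≠ 0)
    {c : Fin 2 → KK} (hc0 : E.ev sK tK (zK z) n0 = E.ev sK tK (zK z) dl * c 0)
    (hc1 : E.ev sK tK (zK z) n1 = E.ev sK tK (zK z) dl * c 1) :
    IntermediateField.adjoin ℂ (Set.range c) = ⊤ := by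
  set A := IntermediateField.adjoin ℂ (Set.range c) with hA
  have hcA : ∀ i, c i ∈ A := fun i => IntermediateField.subset_adjoin _ _ ⟨i, rfl⟩
  have hm : ∀ L : List (E × ℕ × ℕ), dgs m L = true →
      (L.map fun a => E.ev sK tK (zK z) a.1 * c 0 ^ a.2.1 * c 1 ^ a.2.2).sum ∈ A := by
    intro L hL
    induction L with
    | nil => simp
    | cons a L ih =>
      unfold dgs at hL
      rw [List.all_cons, Bool.and_eq_true, Bool.and_eq_true] at hL
      rw [List.map_cons, List.sum_cons]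
      exact add_mem (mul_mem (mul_mem (ev_cst_mem hL.1.2 z) (pow_mem (hcA 0) _))
        (pow_mem (hcA 1) _)) (ih hL.2)
  have hdm : E.ev sK tK (zK z) dl ^ m ≠ 0 := pow_ne_zero _ hd
  have hQ0 := hq
  rw [ev_hom sK tK (zK z) hc0 hc1 hQ] at hQ0
  have hq0 := right_ne_zero_of_mul hQ0
  have key : ∀ (L : List (E × ℕ × ℕ)) (e : E), dgs m L = true →
      E.isZero p (hom m dl n0 n1 L - e * hom m dl n0 n1 Q) = true →
      E.ev sK tK (zK z) e ∈ A := by
    intro L e hL h2
    have h3 := E.zero h2 sK tK (zK z) (zK_sq hz)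
    rw [E.ev_sub, E.ev_mul, ev_hom sK tK (zK z) hc0 hc1 hL, ev_hom sK tK (zK z) hc0 hc1 hQ] at h3
    have h4 : E.ev sK tK (zK z) e =
        (L.map fun a => E.ev sK tK (zK z) a.1 * c 0 ^ a.2.1 * c 1 ^ a.2.2).sum /
        (Q.map fun a => E.ev sK tK (zK z) a.1 * c 0 ^ a.2.1 * c 1 ^ a.2.2).sum := by
      rw [eq_div_iff hq0]
      apply mul_left_cancel₀ hdm
      linear_combination -h3
    rw [h4]
    exact A.div_mem (hm L hL) (hm Q hQ)
  exact top_of_st (key S E.s hS h0) (key T E.t hT h1)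

end Pool.Agent.GSW
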