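import Pool.Agent.GSE.GoodZ
import Pool.Agent.GSW.Fld

/-!
# GSW: the condition `Good` for a datum over `ℤ[√δ]`, tested modulo a prime

`Gp`: the conditions of `Good` at one point. `goodW`: the datum `T.map (ev 0 0 z)` over `ℂ`, `z = √δ`,
is `Good` if the conditions hold modulo `p` for all four choices of the square roots of `δ` and of
`s2` modulo `p`.
-/

set_option autoImplicit false

namespace Pool.Agent.GSW

open Matrix Pool.Agent.GSR Pool.Agent.GSN
open Pool.Agent.GSE (GZ.GC GZ.GC.Ok)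

section

variable {F F' : Type} [CommRing F] [CommRing F']

/-- the conditions at one point -/
structure Gp (D : Dat F) (c : Fin 2 → F) (s m n : F) : Prop where
  B : D.B.det ≠ 0
  w : WW D c s 0 0 ≠ 0
  M : (MM D c s).det ≠ 0
  r : res (MM D c s) (NN D c s) ≠ 0
  h : D.hP (GSN.v3 D c s ![1, m, n]) ≠ 0

theorem vec_map (f : F →+* F') (m n : F) :
    (![1, f m, f n] : Fin 3 → F') = fun i => f ((![1, m, n] : Fin 3 → F) i) := by
  funext i
  fin_cases i <;> simp

theorem Gp.map_inj {f : F →+* F'} (hf : Function.Injective f) {D : Dat F} {c : Fin 2 → F}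
    {s m n : F} (h : Gp D c s m n) : Gp (D.map f) (fun i => f (c i)) (f s) (f m) (f n) := by
  have hne : ∀ {a : F}, a ≠ 0 → f a ≠ 0 := fun ha h0 => ha ((map_eq_zero_iff f hf).1 h0)
  refine ⟨?_, ?_, ?_, ?_, ?_⟩
  · change (D.B.map f).det ≠ 0
    rw [map_det']
    exact hne h.B
  · rw [map_WW]
    exact hne h.w
  · rw [map_MM, map_det3]
    exact hne h.M
  · rw [map_MM, map_NN, map_res]
    exact hne h.r
  · rw [vec_map, map_v3, Dat.map_hP]
    exact hne h.h

theorem Gp.of_map {f : F →+* F'} {D : Dat F} {c : Fin 2 → F} {s m n : F}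
    (h : Gp (D.map f) (fun i => f (c i)) (f s) (f m) (f n)) : Gp D c s m n := by
  have hne : ∀ {a : F}, f a ≠ 0 → a ≠ 0 := fun ha h0 => ha (by rw [h0, map_zero])
  refine ⟨?_, ?_, ?_, ?_, ?_⟩
  · have h1 := h.B
    change (D.B.map f).det ≠ 0 at h1
    rw [map_det'] at h1
    exact hne h1
  · have h1 := h.w
    rw [map_WW] at h1
    exact hne h1
  · have h1 := h.M
    rw [map_MM, map_det3] at h1
    exact hne h1
  · have h1 := h.r
    rw [map_MM, map_NN, map_res] at h1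
    exact hne h1
  · have h1 := h.h
    rw [vec_map, map_v3, Dat.map_hP] at h1
    exact hne h1

end

/-- a datum which is good at a point -/
theorem ok_gp {F : Type} [CommRing F] {D : Dat F} {g : GSE.GZ.GC F} (h : g.Ok D) :
    Gp D g.c g.s g.m g.n ∧ g.s ^ 2 = D.s2 g.c := by
  have hz : D.Z g.c = g.z := by
    rw [← GSE.GZ.Z_eq]
    ext i j
    exact h.z i j
  have hχ : D.χ g.c = fun i => D.δ i - g.c 1 * D.γ i := rfl
  have hw1 : WW D g.c g.s = g.w1 := by
    rw [← GSE.GZ.W_eq, hz]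
    ext i j
    exact h.w1 i j
  have hw2 : WW D g.c (-g.s) = g.w2 := by
    rw [← GSE.GZ.W_eq, hz]
    ext i j
    exact h.w2 i j
  have hh1 : hh D g.c g.s = g.h1 := by
    rw [← GSE.GZ.hv_eq, hz, hw1, hχ]
    funext i j
    exact h.h1 i j
  have hh2 : hh D g.c (-g.s) = g.h2 := by
    rw [← GSE.GZ.hv_eq, hz, hw2, hχ]
    funext i j
    exact h.h2 i j
  have hM : MM D g.c g.s = g.M := by
    ext j i
    have h1 : GSE.GZ.wx (g.h1 i) (g.h2 j) = g.M j i := h.M j i
    rw [← h1, GSE.GZ.wx_eq, MM, hh1, hh2]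
  have hN : NN D g.c g.s = g.N := by
    ext j i
    have h1 : GSE.GZ.tau D g.c (g.h1 i) (g.h2 j) = g.N j i := h.N j i
    rw [← h1, GSE.GZ.tau_eq, NN, hh1, hh2]
  have hp : pp D g.c g.s ![1, g.m, g.n] = g.p := by
    funext i
    rw [← h.p i, pp, hh1]
    simp
  have hy : Phi D g.c g.s ![1, g.m, g.n] = g.y := by
    funext i
    rw [← h.y i, Phi, hM, hN, GSE.GZ.mv3_eq, GSE.GZ.mv3_eq]
  have hq : qq D g.c g.s ![1, g.m, g.n] = g.q := by
    funext i
    rw [← h.q i, qq, hy, pp, hh2]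
  have hv : GSN.v3 D g.c g.s ![1, g.m, g.n] = g.v := by
    funext i
    rw [← h.v i, GSN.v3, hp, hq, ← GSE.GZ.f21_eq, ← GSE.GZ.f21_eq, h.f1, h.f2]
  have he0 : D.e0 g.v = g.e0 := by
    funext i
    rw [← GSE.GZ.e0_eq, h.e0 i]
  have he1 : D.e1 g.v = g.e1 := by
    funext i
    rw [← GSE.GZ.e1_eq, h.e1 i]
  have he2 : D.e2 g.v = g.e2 := by
    funext i
    rw [← GSE.GZ.e2_eq, h.e2 i]
  have hm : D.m g.v = g.mm := by rw [Dat.m, he1, he2, h.mm]
  have hp0 : D.p0 g.v = g.p0 := by rw [Dat.p0, he0, he2, h.p0]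
  have hp1 : D.p1 g.v = g.p1 := by rw [Dat.p1, he1, he0, h.p1]
  have hM0 : D.hM0 g.v = g.M0 := by
    rw [Dat.hM0, hm, hp0, hp1, he1, ← GSE.GZ.tau0_eq, ← GSE.GZ.ta_eq, ← GSE.GZ.tb_eq,
      ← GSE.GZ.rho_eq, ← GSE.GZ.A0_eq, h.M0]
  have hM1 : D.hM1 g.v = g.M1 := by
    rw [Dat.hM1, hm, hp0, hp1, he2, ← GSE.GZ.tau0_eq, ← GSE.GZ.ta_eq, ← GSE.GZ.tb_eq,
      ← GSE.GZ.rho_eq, ← GSE.GZ.A1_eq, h.M1]
  refine ⟨⟨?_, ?_, ?_, ?_, ?_⟩, ?_⟩
  · rw [← GSE.GZ.de_eq]
    exact h.B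
  · rw [hw1]
    exact h.w
  · rw [hM, ← GSE.GZ.de3_eq]
    exact h.dM
  · rw [hM, hN, ← GSE.GZ.rs_eq]
    exact h.rM
  · have h1 := h.P
    rw [hv, Dat.hP, hm, hM0, hM1, ← GSE.GZ.lam_eq, ← GSE.GZ.mu_eq, ← GSE.GZ.mu_eq,
      ← GSE.GZ.su_eq]
    exact h1
  · rw [Dat.s2, disc, hz, ← GSE.GZ.de_eq, ← GSE.GZ.de_eq, pow_two, pow_two, h.s]

/-! ### Reduction modulo `p` -/

/-- the datum over a ring -/
def dr {R : Type} [CommRing R] (T : Dat E) (z : R) : Dat R := T.map (E.ev 0 0 z)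

theorem dr_map {R R' : Type} [CommRing R] [CommRing R'] (f : R →+* R') (T : Dat E) (z : R) :
    (dr T z).map f = dr T (f z) := by
  have h : ∀ e : E, f (E.ev 0 0 z e) = E.ev 0 0 (f z) e := by
    intro e
    rw [E.ev_map f, map_zero]
  unfold dr Dat.map
  simp only [Matrix.map_map]
  congr 1
  · ext i j
    exact h _
  · ext i j
    exact h _
  · ext i j
    exact h _
  · funext i
    exact h _
  · funext i
    exact h _
  · ext i j
    exact h _

/-- The conditions modulo `p`: for both square roots `z` of `δ` there are a square root of `s2` and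
the conditions of `Good` for it and for its negative. -/
structure Red (p : ℕ) (T : Dat E) (c0 c1 m n : ℕ) (z : ZMod p) (s : ZMod p) : Prop where
  sq : s ^ 2 = (dr T z).s2 ![(c0 : ZMod p), (c1 : ZMod p)]
  g1 : Gp (dr T z) ![(c0 : ZMod p), (c1 : ZMod p)] s m n
  g2 : Gp (dr T z) ![(c0 : ZMod p), (c1 : ZMod p)] (-s) m n

theorem goodW {p u : ℕ} [hp : Fact p.Prime] {d : ℤ} (hu : rtChk p u d = true) {T : Dat E}
    {c0 c1 m n : ℕ} {s1 s2 : ZMod p} (h1 : Red p T c0 c1 m n (u : ZMod p) s1)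
    (h2 : Red p T c0 c1 m n ((p - u : ℕ) : ZMod p) s2) {z : ℂ} (hz : z * z = d) :
    Good (dr T z) := by
  obtain ⟨κ, _, _, ⟨φ⟩⟩ := exists_hom p hp.out
  have hzi : IsIntegral ℤ z := by
    refine IsIntegral.of_pow (n := 2) two_pos ?_
    rw [pow_two, hz]
    exact isIntegral_algebraMap (R := ℤ) (x := d)
  set z' : integralClosure ℤ ℂ := ⟨z, hzi⟩ with hz'
  have hz2 : z' * z' = (d : integralClosure ℤ ℂ) := by
    apply Subtype.ext
    simp [hz', hz]
  have h7 : φ z' * φ z' = (d : κ) := by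
    rw [← map_mul, hz2, map_intCast]
  set cA : Fin 2 → integralClosure ℤ ℂ := ![(c0 : integralClosure ℤ ℂ), c1] with hcA
  obtain ⟨s, hs⟩ := IsAlgClosed.exists_pow_nat_eq
    (algebraMap (integralClosure ℤ ℂ) ℂ ((dr T z').s2 cA)) two_pos
  have hsi : IsIntegral ℤ s := by
    refine IsIntegral.of_pow (n := 2) two_pos ?_
    rw [hs]
    exact ((dr T z').s2 cA).2
  set s' : integralClosure ℤ ℂ := ⟨s, hsi⟩ with hs'
  have hs2 : s' ^ 2 = (dr T z').s2 cA := by
    apply Subtype.ext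
    simpa [hs'] using hs
  -- the reduction
  have hcκ : (fun i => φ (cA i)) = ![(c0 : κ), (c1 : κ)] := by
    funext i
    fin_cases i <;> simp [hcA]
  have hcp : (fun i => (ZMod.castHom (dvd_refl p) κ) (![(c0 : ZMod p), (c1 : ZMod p)] i)) =
      ![(c0 : κ), (c1 : κ)] := by
    funext i
    fin_cases i <;> simp
  have key : ∀ {w t : ZMod p}, Red p T c0 c1 m n w t →
      (ZMod.castHom (dvd_refl p) κ) w = φ z' →
      Gp (dr T (φ z')) (fun i => φ (cA i)) (φ s') (φ (m : integralClosure ℤ ℂ))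
        (φ (n : integralClosure ℤ ℂ)) := by
    intro w t hr hw
    have e1 : (φ s') ^ 2 = ((ZMod.castHom (dvd_refl p) κ) t) ^ 2 := by
      rw [← map_pow, hs2, ← map_s2, dr_map, hcκ, ← map_pow, hr.sq, ← map_s2, dr_map, hcp, hw]
    have e2 := (Gp.map_inj (ZMod.castHom_injective κ) hr.g1)
    have e3 := (Gp.map_inj (ZMod.castHom_injective κ) hr.g2)
    rw [dr_map, hcp, hw, map_natCast, map_natCast] at e2 e3
    rw [map_neg] at e3
    rw [hcκ, map_natCast, map_natCast]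
    rcases sq_eq_sq_iff_eq_or_eq_neg.1 e1 with e4 | e4
    · rw [e4]
      exact e2
    · rw [e4]
      exact e3
  have h8 : Gp (dr T (φ z')) (fun i => φ (cA i)) (φ s') (φ (m : integralClosure ℤ ℂ))
      (φ (n : integralClosure ℤ ℂ)) := by
    rcases rt_of hu h7 with h9 | h9
    · exact key h1 (by rw [map_natCast, h9])
    · exact key h2 (by rw [map_natCast, h9])
  rw [← dr_map] at h8
  have h10 := Gp.map_inj (FaithfulSMul.algebraMap_injective (integralClosure ℤ ℂ) ℂ) h8.of_map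
  rw [dr_map] at h10
  have h11 : algebraMap (integralClosure ℤ ℂ) ℂ z' = z := rfl
  rw [h11] at h10
  refine ⟨fun i => algebraMap (integralClosure ℤ ℂ) ℂ (cA i),
    algebraMap (integralClosure ℤ ℂ) ℂ s', algebraMap (integralClosure ℤ ℂ) ℂ m,
    algebraMap (integralClosure ℤ ℂ) ℂ n, ?_, h10.B, h10.w, h10.M, h10.r, h10.h⟩
  rw [← map_pow, hs2, ← map_s2, dr_map, h11]

/-! ### The test -/

/-- the residues of the entries of the datum -/
def datChk (p u : ℕ) (T : Dat E) (D : Dat ℕ) : Bool :=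
  (List.finRange 2).all (fun i => (List.finRange 2).all fun j =>
    Nat.beq (Nat.mod (E.evM p 0 0 u (T.B i j)) p) (D.B i j) &&
    Nat.beq (Nat.mod (E.evM p 0 0 u (T.N i j)) p) (D.N i j) &&
    Nat.beq (Nat.mod (E.evM p 0 0 u (T.E i j)) p) (D.E i j)) &&
  (List.finRange 4).all (fun i =>
    Nat.beq (Nat.mod (E.evM p 0 0 u (T.γ i)) p) (D.γ i) &&
    Nat.beq (Nat.mod (E.evM p 0 0 u (T.δ i)) p) (D.δ i)) &&
  (List.finRange 6).all (fun i => (List.finRange 6).all fun j =>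
    Nat.beq (Nat.mod (E.evM p 0 0 u (T.t i j)) p) (D.t i j))

theorem dr_of {p u : ℕ} [hp : Fact p.Prime] {T : Dat E} {D : Dat ℕ}
    (h : datChk p u T D = true) : dr T (u : ZMod p) = D.map (fun a : ℕ => (a : ZMod p)) := by
  unfold datChk at h
  simp only [Bool.and_eq_true, List.all_eq_true, List.mem_finRange, forall_const] at h
  obtain ⟨⟨h1, h2⟩, h3⟩ := h
  have key : ∀ (e : E) (k : ℕ), Nat.beq (Nat.mod (E.evM p 0 0 u e) p) k = true →
      E.ev 0 0 (u : ZMod p) e = (k : ZMod p) := by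
    intro e k hk
    have h4 := E.evM_eq p 0 0 u hp.out.ne_zero e
    rw [Nat.cast_zero] at h4
    rw [← h4, ← Nat.eq_of_beq_eq_true hk]
    exact (ZMod.natCast_mod _ p).symm
  unfold dr Dat.map
  congr 1
  · ext i j
    exact key _ _ (h1 i j).1.1
  · ext i j
    exact key _ _ (h1 i j).1.2
  · ext i j
    exact key _ _ (h1 i j).2
  · funext i
    exact key _ _ (h2 i).1
  · funext i
    exact key _ _ (h2 i).2
  · ext i j
    exact key _ _ (h3 i j)

/-- the conditions from two tables of intermediate values -/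
theorem red_of {p u : ℕ} [hp : Fact p.Prime] {T : Dat E} {D : Dat ℕ}
    (h : datChk p u T D = true) {c0 c1 m n : ℕ} {g g' : GSE.GZ.GC (ZMod p)}
    (hg : g.Ok (D.map (fun a : ℕ => (a : ZMod p)))) (hg' : g'.Ok (D.map (fun a : ℕ => (a : ZMod p))))
    (e1 : g.c = ![(c0 : ZMod p), (c1 : ZMod p)]) (e2 : g.m = m) (e3 : g.n = n)
    (e4 : g'.c = ![(c0 : ZMod p), (c1 : ZMod p)]) (e5 : g'.m = m) (e6 : g'.n = n)
    (e7 : g'.s = -g.s) : Red p T c0 c1 m n (u : ZMod p) g.s := by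
  have h1 := ok_gp hg
  have h2 := ok_gp hg'
  rw [← dr_of h, e1, e2, e3] at h1
  rw [← dr_of h, e4, e5, e6, e7] at h2
  exact ⟨h1.2, h1.1, h2.1⟩

end Pool.Agent.GSW
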