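import Pool.Agent.GSW.Step
import Pool.Agent.GSW.GoodW

/-!
# GSW: data with constant entries

`cstD`: the entries of a datum are constants. `dr_eq`: the datum over the field of functions.
`li_of`: the matrices `B`, `E`, `1`, `N` are linearly independent.
-/

set_option autoImplicit false

noncomputable section

namespace Pool.Agent.GSW

open Matrix Pool.Agent.GSR GSX

/-- the entries are constants -/
def cstD (T : Dat E) : Bool :=
  (List.finRange 2).all (fun i => (List.finRange 2).all fun j =>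
    E.cst (T.B i j) && E.cst (T.N i j) && E.cst (T.E i j)) &&
  (List.finRange 4).all (fun i => E.cst (T.γ i) && E.cst (T.δ i)) &&
  (List.finRange 6).all (fun i => (List.finRange 6).all fun j => E.cst (T.t i j))

theorem dr_eq (z : ℂ) {T : DT} (h : cstD T.D = true) :
    (dr T.D z).map (algebraMap ℂ KK) = T.dat sK tK (zK z) := by
  unfold cstD at h
  simp only [Bool.and_eq_true, List.all_eq_true, List.mem_finRange, forall_const] at h
  obtain ⟨⟨h1, h2⟩, h3⟩ := h
  rw [dr_map]
  have key : ∀ {e : E}, E.cst e = true →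
      E.ev 0 0 (algebraMap ℂ KK z) e = E.ev sK tK (zK z) e := fun he =>
    E.ev_cst he _ _ _ _ _
  unfold dr DT.dat Dat.map
  congr 1
  · ext i j
    exact key (h1 i j).1.1
  · ext i j
    exact key (h1 i j).1.2
  · ext i j
    exact key (h1 i j).2
  · funext i
    exact key (h2 i).1
  · funext i
    exact key (h2 i).2
  · ext i j
    exact key (h3 i j)

/-- the determinant of `B`, `E`, `N` modulo `1` -/
def liE (T : Dat E) : E :=
  (T.B 0 0 - T.B 1 1) * (T.E 0 1 * T.N 1 0 - T.E 1 0 * T.N 0 1) -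
    T.B 0 1 * ((T.E 0 0 - T.E 1 1) * T.N 1 0 - T.E 1 0 * (T.N 0 0 - T.N 1 1)) +
    T.B 1 0 * ((T.E 0 0 - T.E 1 1) * T.N 0 1 - T.E 0 1 * (T.N 0 0 - T.N 1 1))

theorem li_of {T : Dat E} {z : ℂ} (h : E.ev 0 0 z (liE T) ≠ 0) :
    LinearIndependent ℂ ![(dr T z).B, (dr T z).E, 1, (dr T z).N] := by
  set M : Matrix (Fin 3) (Fin 3) ℂ := !![(dr T z).B 0 0 - (dr T z).B 1 1, (dr T z).B 0 1,
    (dr T z).B 1 0; (dr T z).E 0 0 - (dr T z).E 1 1, (dr T z).E 0 1, (dr T z).E 1 0;
    (dr T z).N 0 0 - (dr T z).N 1 1, (dr T z).N 0 1, (dr T z).N 1 0] with hM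
  have hdet : M.det ≠ 0 := by
    have h1 : M.det = E.ev 0 0 z (liE T) := by
      rw [hM, Matrix.det_fin_three]
      simp [liE, E.ev_add, E.ev_sub, E.ev_mul, dr, Dat.map]
      ring
    rw [h1]
    exact h
  rw [Fintype.linearIndependent_iff]
  intro g hg
  simp only [Fin.sum_univ_four, Matrix.cons_val, Fin.isValue] at hg
  have h00 := congrFun (congrFun hg 0) 0
  have h01 := congrFun (congrFun hg 0) 1
  have h10 := congrFun (congrFun hg 1) 0
  have h11 := congrFun (congrFun hg 1) 1
  simp only [Matrix.add_apply, Matrix.smul_apply, smul_eq_mul, Matrix.zero_apply,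
    Matrix.one_apply_eq, Matrix.one_apply_ne (show (0 : Fin 2) ≠ 1 by decide),
    Matrix.one_apply_ne (show (1 : Fin 2) ≠ 0 by decide)] at h00 h01 h10 h11
  have h1 : ![g 0, g 1, g 3] ᵥ* M = 0 := by
    funext i
    fin_cases i
    · simp [vecMul, dotProduct, Fin.sum_univ_three, hM]
      linear_combination h00 - h11
    · simp [vecMul, dotProduct, Fin.sum_univ_three, hM]
      linear_combination h01
    · simp [vecMul, dotProduct, Fin.sum_univ_three, hM]
      linear_combination h10
  have h2 := Matrix.eq_zero_of_vecMul_eq_zero hdet h1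
  have g0 : g 0 = 0 := congrFun h2 0
  have g1 : g 1 = 0 := congrFun h2 1
  have g3 : g 3 = 0 := congrFun h2 2
  have g2 : g 2 = 0 := by
    rw [g0, g1, g3] at h00
    simpa using h00
  intro i
  fin_cases i
  · exact g0
  · exact g1
  · exact g2
  · exact g3

end Pool.Agent.GSW
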