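import Pool.Agent.GSW.Glue

/-!
# GSW: pencils of hermitian forms given by expressions

`HT`: the data of a pencil of hermitian forms as expressions. `HT.tp`: its equations (`HT.is`).
`HT.nq`: the matrix of the ninth equation (`vm_nqT`).
-/

set_option autoImplicit false

namespace Pool.Agent.GSW

open E

namespace E

/-- the expression is the constant zero -/
def isz : E → Bool
  | .c (Int.ofNat 0) => true
  | _ => false

/-- the expression is the constant one -/
def iso : E → Bool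
  | .c (Int.ofNat 1) => true
  | _ => false

/-- the sum -/
def ad (a b : E) : E := bif isz a then b else bif isz b then a else E.add a b

/-- the difference -/
def su (a b : E) : E := bif isz b then a else E.sub a b

/-- the product -/
def mu (a b : E) : E :=
  bif isz a then a else bif isz b then b else bif iso a then b else bif iso b then a else E.mul a b

instance : Add E := ⟨ad⟩
instance : Sub E := ⟨su⟩
instance : Mul E := ⟨mu⟩
instance : Neg E := ⟨fun a => su (E.c 0) a⟩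

variable {R : Type} [CommRing R] (x y z : R)

theorem ev_isz {a : E} (h : isz a = true) : ev x y z a = 0 := by
  unfold isz at h
  split at h
  · simp [ev]
  · exact absurd h (by simp)

theorem ev_iso {a : E} (h : iso a = true) : ev x y z a = 1 := by
  unfold iso at h
  split at h
  · simp [ev]
  · exact absurd h (by simp)

theorem ev_add (a b : E) : ev x y z (a + b) = ev x y z a + ev x y z b := by
  change ev x y z (ad a b) = _
  unfold ad
  cases ha : isz a
  · cases hb : isz b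
    · rfl
    · simp [ev_isz x y z hb]
  · simp [ev_isz x y z ha]

theorem ev_sub (a b : E) : ev x y z (a - b) = ev x y z a - ev x y z b := by
  change ev x y z (su a b) = _
  unfold su
  cases hb : isz b
  · rfl
  · simp [ev_isz x y z hb]

theorem ev_neg (a : E) : ev x y z (-a) = -ev x y z a := by
  change ev x y z (E.c 0 - a) = _
  rw [ev_sub]
  simp [ev]

theorem ev_mul (a b : E) : ev x y z (a * b) = ev x y z a * ev x y z b := by
  change ev x y z (mu a b) = _
  unfold mu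
  cases ha : isz a
  · cases hb : isz b
    · cases ha' : iso a
      · cases hb' : iso b
        · rfl
        · simp [ev_iso x y z hb']
      · simp [ev_iso x y z ha']
    · simp [ev_isz x y z hb]
  · simp [ev_isz x y z ha]

theorem ev_c (a : ℤ) : ev x y z (E.c a) = a := rfl

end E

/-- The data of a pencil of hermitian forms. -/
structure HT where
  /-- `L = K(√d)` -/
  d : E
  /-- the symmetric parts -/
  p : Fin 2 → Fin 6 → E
  /-- the antisymmetric parts -/
  q : Fin 2 → Fin 3 → E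

namespace HT

variable (T : HT)

/-- as `Herm.E` -/
def El (j : Fin 2) (i : Fin 3) : Fin 6 → E :=
  ![![T.p j 0, T.p j 1, T.p j 2, E.c 0, -(T.d * T.q j 0), -(T.d * T.q j 1)],
    ![T.p j 1, T.p j 3, T.p j 4, T.d * T.q j 0, E.c 0, -(T.d * T.q j 2)],
    ![T.p j 2, T.p j 4, T.p j 5, T.d * T.q j 1, T.d * T.q j 2, E.c 0]] i

/-- as `Herm.F` -/
def Fl (j : Fin 2) (i : Fin 3) : Fin 6 → E :=
  ![![E.c 0, T.q j 0, T.q j 1, -T.p j 0, -T.p j 1, -T.p j 2],
    ![-T.q j 0, E.c 0, T.q j 2, -T.p j 1, -T.p j 3, -T.p j 4],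
    ![-T.q j 1, -T.q j 2, E.c 0, -T.p j 2, -T.p j 4, -T.p j 5]] i

/-- as `Herm.S` -/
def S : Fin 6 → Fin 6 → E :=
  ![![E.c 0, E.c 0, E.c 0, T.d, E.c 0, E.c 0], ![E.c 0, E.c 0, E.c 0, E.c 0, T.d, E.c 0],
    ![E.c 0, E.c 0, E.c 0, E.c 0, E.c 0, T.d], ![E.c 1, E.c 0, E.c 0, E.c 0, E.c 0, E.c 0],
    ![E.c 0, E.c 1, E.c 0, E.c 0, E.c 0, E.c 0], ![E.c 0, E.c 0, E.c 1, E.c 0, E.c 0, E.c 0]]

/-- the form `j` -/
def Q (j : Fin 2) : Fin 6 → Fin 6 → E :=
  ![T.El j 0, T.El j 1, T.El j 2, fun k => T.d * T.Fl j 0 k, fun k => T.d * T.Fl j 1 k,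
    fun k => T.d * T.Fl j 2 k]

/-- as `Herm.crR`, not symmetrized -/
def crR (k : Fin 3) : Fin 6 → Fin 6 → E := fun i j =>
  T.El 0 (k + 1) i * T.El 1 (k + 2) j - T.El 0 (k + 2) i * T.El 1 (k + 1) j +
    T.d * (T.Fl 0 (k + 1) i * T.Fl 1 (k + 2) j - T.Fl 0 (k + 2) i * T.Fl 1 (k + 1) j)

/-- as `Herm.crI`, not symmetrized -/
def crI (k : Fin 3) : Fin 6 → Fin 6 → E := fun i j =>
  T.El 0 (k + 1) i * T.Fl 1 (k + 2) j - T.El 0 (k + 2) i * T.Fl 1 (k + 1) j +
    (T.Fl 0 (k + 1) i * T.El 1 (k + 2) j - T.Fl 0 (k + 2) i * T.El 1 (k + 1) j)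

/-- the equations -/
def tp : TP where
  m := E.c 1
  S := T.S
  Q := T.Q
  P := ![T.crR 0, T.crR 1, T.crR 2, T.crI 0, T.crI 1, T.crI 2]

end HT

/-! ### The ninth equation -/

/-- matrices of order three -/
abbrev M3 : Type := Fin 3 → Fin 3 → E

/-- the product -/
def mm3 (A B : M3) : M3 := fun i j => A i 0 * B 0 j + A i 1 * B 1 j + A i 2 * B 2 j

/-- the sum -/
def ad3 (A B : M3) : M3 := fun i j => A i j + B i j

/-- the difference -/
def su3 (A B : M3) : M3 := fun i j => A i j - B i j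

/-- the multiple -/
def sm3 (a : E) (B : M3) : M3 := fun i j => a * B i j

/-- the adjugate -/
def adj3 (A : M3) : M3 :=
  ![![A 1 1 * A 2 2 - A 1 2 * A 2 1, A 0 2 * A 2 1 - A 0 1 * A 2 2, A 0 1 * A 1 2 - A 0 2 * A 1 1],
    ![A 1 2 * A 2 0 - A 1 0 * A 2 2, A 0 0 * A 2 2 - A 0 2 * A 2 0, A 0 2 * A 1 0 - A 0 0 * A 1 2],
    ![A 1 0 * A 2 1 - A 1 1 * A 2 0, A 0 1 * A 2 0 - A 0 0 * A 2 1, A 0 0 * A 1 1 - A 0 1 * A 1 0]]

namespace HT

variable (T : HT)

/-- the symmetric part of `B j` -/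
def pm (j : Fin 2) : M3 :=
  ![![T.p j 0, T.p j 1, T.p j 2], ![T.p j 1, T.p j 3, T.p j 4], ![T.p j 2, T.p j 4, T.p j 5]]

/-- the antisymmetric part of `B j` -/
def qm (j : Fin 2) : M3 :=
  ![![E.c 0, T.q j 0, T.q j 1], ![-T.q j 0, E.c 0, T.q j 2], ![-T.q j 1, -T.q j 2, E.c 0]]

/-- the real part of the adjugate of `B 0` -/
def adR : M3 := ad3 (adj3 (T.pm 0)) (sm3 T.d (adj3 (T.qm 0)))

/-- the coefficient of `√d` of the adjugate of `B 0` -/
def adI : M3 := su3 (su3 (adj3 (ad3 (T.pm 0) (T.qm 0))) (adj3 (T.pm 0))) (adj3 (T.qm 0))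

/-- the real part of `B 1 adj(B 0) B 1` -/
def cR : M3 :=
  ad3 (mm3 (mm3 (T.pm 1) T.adR) (T.pm 1)) (sm3 T.d (ad3 (ad3 (mm3 (mm3 (T.qm 1) T.adI) (T.pm 1))
    (mm3 (mm3 (T.qm 1) T.adR) (T.qm 1))) (mm3 (mm3 (T.pm 1) T.adI) (T.qm 1))))

/-- the coefficient of `√d` of `B 1 adj(B 0) B 1` -/
def cI : M3 :=
  ad3 (ad3 (ad3 (mm3 (mm3 (T.qm 1) T.adR) (T.pm 1)) (mm3 (mm3 (T.pm 1) T.adI) (T.pm 1)))
    (mm3 (mm3 (T.pm 1) T.adR) (T.qm 1))) (sm3 T.d (mm3 (mm3 (T.qm 1) T.adI) (T.qm 1)))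

/-- the matrix of the ninth equation -/
def nq : Fin 6 → Fin 6 → E :=
  ![![T.cR 0 0, T.cR 0 1, T.cR 0 2, -(T.d * T.cI 0 0), -(T.d * T.cI 0 1), -(T.d * T.cI 0 2)],
    ![T.cR 1 0, T.cR 1 1, T.cR 1 2, -(T.d * T.cI 1 0), -(T.d * T.cI 1 1), -(T.d * T.cI 1 2)],
    ![T.cR 2 0, T.cR 2 1, T.cR 2 2, -(T.d * T.cI 2 0), -(T.d * T.cI 2 1), -(T.d * T.cI 2 2)],
    ![T.d * T.cI 0 0, T.d * T.cI 0 1, T.d * T.cI 0 2,
      -(T.d * T.cR 0 0), -(T.d * T.cR 0 1), -(T.d * T.cR 0 2)],
    ![T.d * T.cI 1 0, T.d * T.cI 1 1, T.d * T.cI 1 2,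
      -(T.d * T.cR 1 0), -(T.d * T.cR 1 1), -(T.d * T.cR 1 2)],
    ![T.d * T.cI 2 0, T.d * T.cI 2 1, T.d * T.cI 2 2,
      -(T.d * T.cR 2 0), -(T.d * T.cR 2 1), -(T.d * T.cR 2 2)]]

end HT

noncomputable section

open Matrix Pool.Agent.GSH Pool.Agent.GSX
open Pool.Agent.GSE (pm qm adR adI cR cI nq)

variable {K : Type} [Field K] (T : HT) (x y z : K)

/-- the pencil for given values of `s`, `t` -/
def HT.herm : Herm K where
  d := ev x y z T.d
  p := fun j i => ev x y z (T.p j i)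
  q := fun j i => ev x y z (T.q j i)

theorem HT.ev_El (j : Fin 2) (i : Fin 3) (k : Fin 6) :
    ev x y z (T.El j i k) = (T.herm x y z).E j i k := by
  fin_cases i <;> fin_cases k <;> simp [HT.El, Herm.E, HT.herm, ev_neg, ev_mul, ev_c]

theorem HT.ev_Fl (j : Fin 2) (i : Fin 3) (k : Fin 6) :
    ev x y z (T.Fl j i k) = (T.herm x y z).F j i k := by
  fin_cases i <;> fin_cases k <;> simp [HT.Fl, Herm.F, HT.herm, ev_neg, ev_c]

theorem HT.is [CharZero K] : T.tp.Is x y z (T.herm x y z).pen where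
  m0 := by
    change ((1 : ℤ) : K) ≠ 0
    simp
  S := by
    intro i j
    fin_cases i <;> fin_cases j <;> simp [HT.tp, HT.S, Herm.pen, Herm.S, HT.herm, ev_c]
  Q := by
    intro j
    refine ⟨1, one_ne_zero, ?_⟩
    have h1 : vm x y z (T.tp.Q j) = (T.herm x y z).pen.Q j := by
      ext a b
      have hd : (T.herm x y z).d = ev x y z T.d := rfl
      fin_cases a <;>
        simp [vm, HT.tp, HT.Q, Herm.pen, HT.ev_El, HT.ev_Fl, ev_mul, hd]
    rw [h1, one_smul]
  P := by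
    intro i
    have hm : ev x y z T.tp.m = 1 := by
      change ((1 : ℤ) : K) = 1
      simp
    rw [hm, one_smul]
    have hd : (T.herm x y z).d = ev x y z T.d := rfl
    have h2 : (2 : K) ≠ 0 := two_ne_zero
    have hR : ∀ k : Fin 3, vm x y z (T.crR k) + (vm x y z (T.crR k))ᵀ =
        (T.herm x y z).crR k + ((T.herm x y z).crR k)ᵀ := by
      intro k
      ext a b
      simp only [vm, HT.crR, Herm.crR, Herm.sy, Matrix.add_apply, Matrix.transpose_apply,
        Matrix.of_apply, Matrix.sub_apply, Matrix.smul_apply, vecMulVec_apply, smul_eq_mul,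
        ev_add, ev_sub, ev_mul, HT.ev_El, HT.ev_Fl, hd]
      field_simp
      ring
    have hI : ∀ k : Fin 3, vm x y z (T.crI k) + (vm x y z (T.crI k))ᵀ =
        (T.herm x y z).crI k + ((T.herm x y z).crI k)ᵀ := by
      intro k
      ext a b
      simp only [vm, HT.crI, Herm.crI, Herm.sy, Matrix.add_apply, Matrix.transpose_apply,
        Matrix.of_apply, Matrix.sub_apply, Matrix.smul_apply, vecMulVec_apply, smul_eq_mul,
        ev_add, ev_sub, ev_mul, HT.ev_El, HT.ev_Fl]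
      field_simp
      ring
    fin_cases i
    · exact hR 0
    · exact hR 1
    · exact hR 2
    · exact hI 0
    · exact hI 1
    · exact hI 2

/-! ### The ninth equation -/

/-- the matrix of values -/
def v3 (A : M3) : Matrix (Fin 3) (Fin 3) K := Matrix.of fun i j => ev x y z (A i j)

theorem v3_mul (A B : M3) : v3 x y z (mm3 A B) = v3 x y z A * v3 x y z B := by
  ext i j
  simp [v3, mm3, Matrix.mul_apply, Fin.sum_univ_three, ev_add, ev_mul]

theorem v3_add (A B : M3) : v3 x y z (ad3 A B) = v3 x y z A + v3 x y z B := by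
  ext i j
  simp [v3, ad3, ev_add]

theorem v3_sub (A B : M3) : v3 x y z (su3 A B) = v3 x y z A - v3 x y z B := by
  ext i j
  simp [v3, su3, ev_sub]

theorem v3_smul (a : E) (B : M3) : v3 x y z (sm3 a B) = ev x y z a • v3 x y z B := by
  ext i j
  simp [v3, sm3, ev_mul]

theorem v3_adj (A : M3) : v3 x y z (adj3 A) = (v3 x y z A).adjugate := by
  rw [adjugate_fin_three]
  ext i j
  fin_cases i <;> fin_cases j <;>
    simp [v3, adj3, ev_sub, ev_mul] <;> ring

theorem v3_pm (j : Fin 2) : v3 x y z (T.pm j) = pm (T.herm x y z) j := by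
  ext a b
  fin_cases a <;> fin_cases b <;> simp [v3, HT.pm, pm, HT.herm]

theorem v3_qm (j : Fin 2) : v3 x y z (T.qm j) = qm (T.herm x y z) j := by
  ext a b
  fin_cases a <;> fin_cases b <;> simp [v3, HT.qm, qm, HT.herm, ev_neg, ev_c]

theorem v3_adR : v3 x y z T.adR = adR (T.herm x y z) := by
  unfold HT.adR adR
  rw [v3_add, v3_smul, v3_adj, v3_adj, v3_pm, v3_qm]
  rfl

theorem v3_adI : v3 x y z T.adI = adI (T.herm x y z) := by
  unfold HT.adI adI
  rw [v3_sub, v3_sub, v3_adj, v3_adj, v3_adj, v3_add, v3_pm, v3_qm]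

theorem v3_cR : v3 x y z T.cR = cR (T.herm x y z) := by
  unfold HT.cR cR
  rw [v3_add, v3_smul, v3_add, v3_add]
  simp only [v3_mul, v3_pm, v3_qm, v3_adR, v3_adI]
  rfl

theorem v3_cI : v3 x y z T.cI = cI (T.herm x y z) := by
  unfold HT.cI cI
  rw [v3_add, v3_add, v3_add, v3_smul]
  simp only [v3_mul, v3_pm, v3_qm, v3_adR, v3_adI]
  rfl

theorem vm_nqT : vm x y z T.nq = nq (T.herm x y z) := by
  have hR : ∀ i j, ev x y z (T.cR i j) = cR (T.herm x y z) i j := fun i j =>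
    congrFun (congrFun (v3_cR T x y z) i) j
  have hI : ∀ i j, ev x y z (T.cI i j) = cI (T.herm x y z) i j := fun i j =>
    congrFun (congrFun (v3_cI T x y z) i) j
  have hd : (T.herm x y z).d = ev x y z T.d := rfl
  ext a b
  fin_cases a <;> fin_cases b <;> simp [vm, HT.nq, nq, ev_neg, ev_mul, hR, hI, hd]

end

end Pool.Agent.GSW
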