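import Pool.Agent.GSW.Fast
import Pool.Agent.GSW.HTree

/-!
# GSW: the ninth equation of the cone of a pencil of hermitian forms in factored form

`V8`: the values of `B 1 ū`. `AD8`: the form `N(ξ) + v̄ᵀ adj(B 0) v`. `norm9`: its value at
`V8 w` is zero for `w` in the cone with `u ≠ 0`.
-/

set_option autoImplicit false

namespace Pool.Agent.GSW

open E

/-- the coefficients of a linear form in `u` -/
def row8 (f : Fin 6 → E) : Fin 8 → E :=
  ![E.c 0, E.c 0, f 0, f 1, f 2, f 3, f 4, f 5]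

/-- the coordinates of `ξ` and of `B 1 ū` as linear forms in `w` -/
def V8 (T : HT) : Fin 8 → Fin 8 → E :=
  ![![E.c 1, E.c 0, E.c 0, E.c 0, E.c 0, E.c 0, E.c 0, E.c 0],
    ![E.c 0, E.c 1, E.c 0, E.c 0, E.c 0, E.c 0, E.c 0, E.c 0],
    row8 (T.El 1 0), row8 (T.El 1 1), row8 (T.El 1 2),
    row8 (T.Fl 1 0), row8 (T.Fl 1 1), row8 (T.Fl 1 2)]

/-- the matrix of the form `N(ξ) + v̄ᵀ adj(B 0) v` -/
def AD8 (T : HT) : Fin 8 → Fin 8 → E :=
  ![![E.c 1, E.c 0, E.c 0, E.c 0, E.c 0, E.c 0, E.c 0, E.c 0],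
    ![E.c 0, -T.d, E.c 0, E.c 0, E.c 0, E.c 0, E.c 0, E.c 0],
    ![E.c 0, E.c 0, T.adR 0 0, T.adR 0 1, T.adR 0 2,
      T.d * T.adI 0 0, T.d * T.adI 0 1, T.d * T.adI 0 2],
    ![E.c 0, E.c 0, T.adR 1 0, T.adR 1 1, T.adR 1 2,
      T.d * T.adI 1 0, T.d * T.adI 1 1, T.d * T.adI 1 2],
    ![E.c 0, E.c 0, T.adR 2 0, T.adR 2 1, T.adR 2 2,
      T.d * T.adI 2 0, T.d * T.adI 2 1, T.d * T.adI 2 2],
    ![E.c 0, E.c 0, -(T.d * T.adI 0 0), -(T.d * T.adI 0 1), -(T.d * T.adI 0 2),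
      -(T.d * T.adR 0 0), -(T.d * T.adR 0 1), -(T.d * T.adR 0 2)],
    ![E.c 0, E.c 0, -(T.d * T.adI 1 0), -(T.d * T.adI 1 1), -(T.d * T.adI 1 2),
      -(T.d * T.adR 1 0), -(T.d * T.adR 1 1), -(T.d * T.adR 1 2)],
    ![E.c 0, E.c 0, -(T.d * T.adI 2 0), -(T.d * T.adI 2 1), -(T.d * T.adI 2 2),
      -(T.d * T.adR 2 0), -(T.d * T.adR 2 1), -(T.d * T.adR 2 2)]]

noncomputable section

open Matrix Pool.Agent.GSH Pool.Agent.GSX
open Pool.Agent.GSE (t8 pm qm adR adI cR cI nq BB up BB_up BBt_up adj_BB nq_up adR_t adI_t norm_eq)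

theorem qv_qfM {R : Type} [CommRing R] (x y z : R) (Q : Fin 8 → Fin 8 → E) (v : Fin 8 → R) :
    qv x y z (qfM Q) v = ∑ a, ∑ b, ev x y z (Q a b) * (v a * v b) := by
  unfold qfM
  have h1 : ∀ L : List (Fin 8), qv x y z
      (L.flatMap fun a => (List.finRange 8).map fun b => (Q a b, a, b)) v =
      (L.map fun a => ∑ b, ev x y z (Q a b) * (v a * v b)).sum := by
    intro L
    induction L with
    | nil => simp [qv]
    | cons a L ih =>
      rw [List.flatMap_cons, qv_append, ih, List.map_cons, List.sum_cons]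
      congr 1
  rw [h1, ← List.ofFn_eq_map, List.sum_ofFn]

variable {K Ω : Type} [Field K] [Field Ω] [Algebra K Ω]

/-- the factored form of the hermitian form of `B 1 adj(B 0) B 1` -/
theorem bl_nq [CharZero K] (H : Herm K) (u : Fin 6 → Ω) :
    bl (nq H) u u = ∑ i, ∑ j,
      (algebraMap K Ω (adR H i j) * (Herm.lv (H.E 1 i) u * Herm.lv (H.E 1 j) u) +
        algebraMap K Ω (H.d * adI H i j) * (Herm.lv (H.E 1 i) u * Herm.lv (H.F 1 j) u) -
        algebraMap K Ω (H.d * adI H i j) * (Herm.lv (H.F 1 i) u * Herm.lv (H.E 1 j) u) -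
        algebraMap K Ω (H.d * adR H i j) * (Herm.lv (H.F 1 i) u * Herm.lv (H.F 1 j) u)) := by
  obtain ⟨s, hs⟩ := IsAlgClosed.exists_pow_nat_eq
    (algebraMap K (AlgebraicClosure Ω) H.d) (n := 2) (by norm_num)
  have hT : ∀ x : K, algebraMap Ω (AlgebraicClosure Ω) (algebraMap K Ω x) =
      algebraMap K (AlgebraicClosure Ω) x := fun x =>
    (IsScalarTower.algebraMap_apply K Ω (AlgebraicClosure Ω) x).symm
  apply (algebraMap Ω (AlgebraicClosure Ω)).injective
  rw [← nq_up H hs u, ← mulVec_mulVec, ← mulVec_mulVec, dotProduct_mulVec, ← mulVec_transpose,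
    adj_BB H hs]
  have r10 : adR H 1 0 = adR H 0 1 := congrFun (congrFun (adR_t H) 0) 1
  have r20 : adR H 2 0 = adR H 0 2 := congrFun (congrFun (adR_t H) 0) 2
  have r21 : adR H 2 1 = adR H 1 2 := congrFun (congrFun (adR_t H) 1) 2
  have i10 : adI H 1 0 = -adI H 0 1 := congrFun (congrFun (adI_t H) 0) 1
  have i20 : adI H 2 0 = -adI H 0 2 := congrFun (congrFun (adI_t H) 0) 2
  have i21 : adI H 2 1 = -adI H 1 2 := congrFun (congrFun (adI_t H) 1) 2
  have i00 : adI H 0 0 = 0 := by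
    have h : adI H 0 0 = -adI H 0 0 := congrFun (congrFun (adI_t H) 0) 0
    exact self_eq_neg.1 h
  have i11 : adI H 1 1 = 0 := by
    have h : adI H 1 1 = -adI H 1 1 := congrFun (congrFun (adI_t H) 1) 1
    exact self_eq_neg.1 h
  have i22 : adI H 2 2 = 0 := by
    have h : adI H 2 2 = -adI H 2 2 := congrFun (congrFun (adI_t H) 2) 2
    exact self_eq_neg.1 h
  simp only [dotProduct, mulVec, Fin.sum_univ_three, mK, Matrix.map_apply, Matrix.add_apply,
    Matrix.smul_apply, smul_eq_mul] at *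
  have hB := fun i => BB_up H hs u 1 i
  have hBt := fun i => BBt_up H hs u 1 i
  simp only [mulVec, dotProduct, Fin.sum_univ_three] at hB hBt
  simp only [hB, hBt]
  simp only [map_add, map_sub, map_mul, map_neg, hT, r10, r20, r21, i10, i20, i21, i00, i11, i22,
    ← hs, map_zero]
  ring

theorem jw_V8 (T : HT) (x y z : K) (w : I8 → Ω) :
    jw (algebraMap K Ω x) (algebraMap K Ω y) (algebraMap K Ω z) (V8 T) (t8 w) =
      ![pL w 0, pL w 1, Herm.lv ((T.herm x y z).E 1 0) (pU w),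
        Herm.lv ((T.herm x y z).E 1 1) (pU w), Herm.lv ((T.herm x y z).E 1 2) (pU w),
        Herm.lv ((T.herm x y z).F 1 0) (pU w), Herm.lv ((T.herm x y z).F 1 1) (pU w),
        Herm.lv ((T.herm x y z).F 1 2) (pU w)] := by
  have e0 : t8 w 0 = pL w 0 := rfl
  have e1 : t8 w 1 = pL w 1 := rfl
  have e2 : t8 w 2 = pU w 0 := rfl
  have e3 : t8 w 3 = pU w 1 := rfl
  have e4 : t8 w 4 = pU w 2 := rfl
  have e5 : t8 w 5 = pU w 3 := rfl
  have e6 : t8 w 6 = pU w 4 := rfl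
  have e7 : t8 w 7 = pU w 5 := rfl
  have hr : ∀ f : Fin 6 → E, ∑ i, ev (algebraMap K Ω x) (algebraMap K Ω y) (algebraMap K Ω z)
      (row8 f i) * t8 w i = Herm.lv (fun i => ev x y z (f i)) (pU w) := by
    intro f
    simp [Fin.sum_univ_eight, row8, Herm.lv, vK, dotProduct, Fin.sum_univ_six, ev_alg, ev_c,
      e2, e3, e4, e5, e6, e7]
  have hE : ∀ i, (fun k => ev x y z (T.El 1 i k)) = (T.herm x y z).E 1 i := fun i =>
    funext fun k => HT.ev_El T x y z 1 i k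
  have hF : ∀ i, (fun k => ev x y z (T.Fl 1 i k)) = (T.herm x y z).F 1 i := fun i =>
    funext fun k => HT.ev_Fl T x y z 1 i k
  funext a
  unfold jw
  fin_cases a
  · simp [Fin.sum_univ_eight, V8, ev_c, e0]
  · simp [Fin.sum_univ_eight, V8, ev_c, e1]
  · exact (hr _).trans (by rw [hE]; rfl)
  · exact (hr _).trans (by rw [hE]; rfl)
  · exact (hr _).trans (by rw [hE]; rfl)
  · exact (hr _).trans (by rw [hF]; rfl)
  · exact (hr _).trans (by rw [hF]; rfl)
  · exact (hr _).trans (by rw [hF]; rfl)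

/-- **The ninth equation in factored form.** -/
theorem norm9 [CharZero K] (T : HT) (x y z : K) (hd : (T.herm x y z).d ≠ 0) {w : I8 → Ω}
    (hw : w ∈ (T.herm x y z).pen.W Ω) (hu : pU w ≠ 0) :
    qv (algebraMap K Ω x) (algebraMap K Ω y) (algebraMap K Ω z) (qfM (AD8 T))
      (jw (algebraMap K Ω x) (algebraMap K Ω y) (algebraMap K Ω z) (V8 T) (t8 w)) = 0 := by
  have h := norm_eq (T.herm x y z) hd hw hu
  rw [bl_nq] at h
  rw [qv_qfM, jw_V8]
  have hR : ∀ i j, ev x y z (T.adR i j) = adR (T.herm x y z) i j := fun i j =>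
    congrFun (congrFun (v3_adR T x y z) i) j
  have hI : ∀ i j, ev x y z (T.adI i j) = adI (T.herm x y z) i j := fun i j =>
    congrFun (congrFun (v3_adI T x y z) i) j
  have hdd : ev x y z T.d = (T.herm x y z).d := rfl
  have hv : ∀ Q : Fin 8 → Fin 8 → E, ∀ a b,
      ev (algebraMap K Ω x) (algebraMap K Ω y) (algebraMap K Ω z) (Q a b) =
        algebraMap K Ω (ev x y z (Q a b)) := fun Q a b => ev_alg x y z _
  rw [← h]
  simp only [hv]
  simp only [Fin.sum_univ_eight, Fin.sum_univ_three, AD8, Matrix.cons_val_zero,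
    Matrix.cons_val_one, Matrix.cons_val, ev_c, ev_neg, ev_mul, hR, hI, hdd, map_neg, map_mul,
    Int.cast_zero, Int.cast_one, map_zero, map_one]
  ring

end

end Pool.Agent.GSW
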