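import Pool.Agent.GSW.Dc
import Pool.Agent.GSW.XE
import Pool.Agent.GSW.Norm9
import Pool.Agent.GSE.Fld
import Pool.Agent.GSF.FinJ2

/-!
# GSW: the explicit form of the theorem

`rational_of`: a cubic with integer coefficients and a type O datum over `ℤ[√δ]`: all hypotheses of
the theorem as tests.
-/

set_option autoImplicit false

noncomputable section

namespace Pool.Agent.GSW

open MvPolynomial Matrix Pool.Agent.GSH GSX Pool.Agent.GSD Pool.Agent.GSR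
open Pool.Agent.GSE (t8 map_cast)

/-- the parameters -/
def par (z : ℂ) (T : DT) : Fin 2 → KK := fun i =>
  E.ev sK tK (zK z) (T.n i) / E.ev sK tK (zK z) T.dl

/-- The hypothesis `J (W_X) ⊆ W_D` as certificates; `T₁`: the pencil of the cubic. -/
structure Cert (dl : ℤ) (T₁ : HT) (T : DT) (J1 J2 : List (List Tb)) : Prop where
  cst : cstD T.D = true
  c1 : ∃ (XN NN : List (List (List Tb))) (V A : List (List Tb)) (G : Fin 9 → List Tb) (h8 : Tb)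
    (p : Pm), p.dl = dl ∧ (∀ l : Fin 8, lnk p (T₁.tp.q l) (nf XN l) = true) ∧
    eqM p (V8 T₁) (jf V) = true ∧ eqM p (AD8 T₁) (rf A) = true ∧
    (∀ l, (G l).length ≤ 8) ∧
    (∀ l : Fin 8, FD.Id dl ⟨[⟨J1, rowsOf NN l, [([1], [])]⟩], G l.castSucc, XN⟩) ∧
    FD.Id dl ⟨[⟨J1, rowsOf NN 8, [([1], [])]⟩, ⟨V, A, h8⟩], G 8, XN⟩ ∧
    ∃ (WQ : List (List (List Tb))) (G' : Fin 8 → List Tb) (den : Fin 8 → Tb) (p' : Pm),
      p'.dl = dl ∧ (∀ k : Fin 8, lnk p' (tq T.tp k) (nf WQ k) = true) ∧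
      (∀ k : Fin 8, FD.Id dl ⟨[⟨J2, rowsOf WQ k, den k⟩], G' k, NN⟩) ∧
      ∀ z : ℂ, z * z = dl → ∀ k, E.ev sK tK (zK z) (tE (den k)) ≠ 0

/-- **The explicit form of the theorem.** -/
theorem rational_of {dl : ℤ} {z : ℂ} (hz : z * z = dl) {X : Cub ℂ} {T₁ : HT}
    (hT : T₁.herm sK tK (zK z) = (X.map (algebraMap ℂ KK)).herm2 sK tK)
    (hn : X.NonDeg) (hirr : Irreducible X.F) (hD2 : ¬ IsSquare X.D2) {T : DT}
    (hD : GSN.Good (dr T.D z))
    (hli : LinearIndependent ℂ ![(dr T.D z).B, (dr T.D z).E, 1, (dr T.D z).N])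
    (hdl : E.ev sK tK (zK z) T.dl ≠ 0)
    (hc : IntermediateField.adjoin ℂ (Set.range (par z T)) = ⊤) {J1 J2 : List (List Tb)}
    (hJ1 : IsUnit (jm sK tK (zK z) (jf J1)).det)
    (hJ2 : IsUnit (jm sK tK (zK z) (dg8 T.tp.m (jf J2))).det)
    (hcert : Cert dl T₁ T J1 J2) : P28.Rational X.F := by
  obtain ⟨hcst, XN, NN, V, A, G, h8, p, hp, hX, hV, hA, hG, hc1, hc8, WQ, G', den, p', hp', hW,
    hc2, hden⟩ := hcert
  have hzK := zK_sq hz
  have hpen : X.pen2 = (T₁.herm sK tK (zK z)).pen := by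
    rw [Cub.pen2, hT]
  have hdat : (dr T.D z).map (algebraMap ℂ KK) = T.dat sK tK (zK z) := dr_eq z hcst
  have hD20 : (T₁.herm sK tK (zK z)).d ≠ 0 := by
    rw [hT]
    intro h0
    exact hD2 (by
      rw [Cub.D2]
      change (X.map (algebraMap ℂ KK)).d2 sK tK = 0 at h0
      rw [h0]
      exact IsSquare.zero)
  refine GSF.linked_rational2 _ hn hirr hD2 _ hD hli hc
    (J := jm sK tK (zK z) (dg8 T.tp.m (jf J2)) * jm sK tK (zK z) (jf J1)) ⟨?_, ?_⟩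
  · rw [det_mul]
    exact hJ2.mul hJ1
  intro Ω _ _ w hw hu
  rw [hpen] at hw
  rw [hdat]
  have hpar : ∀ i, E.ev sK tK (zK z) (T.n i) = E.ev sK tK (zK z) T.dl * par z T i := fun i => by
    rw [par, mul_div_cancel₀ _ hdl]
  have h1 := step1 hzK (HT.is T₁ sK tK (zK z)) hp hX hV hA hG hc1 hc8 hw
    (norm9 T₁ sK tK (zK z) hD20 hw hu)
  rw [← hd_W]
  refine step2 hzK (dt_is T sK tK (zK z) hpar hdl) hp' hW hc2 (hden z hz) h1 ?_
  have h2 : mK (jm sK tK (zK z) (dg8 T.tp.m (jf J2)) * jm sK tK (zK z) (jf J1)) *ᵥ w =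
      mK (jm sK tK (zK z) (dg8 T.tp.m (jf J2))) *ᵥ (mK (jm sK tK (zK z) (jf J1)) *ᵥ w) := by
    have h3 : (mK (jm sK tK (zK z) (dg8 T.tp.m (jf J2)) * jm sK tK (zK z) (jf J1)) :
        Matrix I8 I8 Ω) = mK (jm sK tK (zK z) (dg8 T.tp.m (jf J2))) *
          mK (jm sK tK (zK z) (jf J1)) := Matrix.map_mul
    rw [h3, mulVec_mulVec]
  rw [h2, t8_jm, t8_jm]

/-- The case of integer coefficients. -/
theorem rational_ofZ {dl : ℤ} {z : ℂ} (hz : z * z = dl) {X : Cub ℤ}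
    (hn : (X.map (Int.castRingHom ℂ)).NonDeg)
    (hirr : Irreducible (X.map (Int.castRingHom ℂ)).F)
    (hD2 : ¬ IsSquare (X.map (Int.castRingHom ℂ)).D2) {T : DT}
    (hD : GSN.Good (dr T.D z))
    (hli : LinearIndependent ℂ ![(dr T.D z).B, (dr T.D z).E, 1, (dr T.D z).N])
    (hdl : E.ev sK tK (zK z) T.dl ≠ 0)
    (hc : IntermediateField.adjoin ℂ (Set.range (par z T)) = ⊤) {J1 J2 : List (List Tb)}
    (hJ1 : IsUnit (jm sK tK (zK z) (jf J1)).det)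
    (hJ2 : IsUnit (jm sK tK (zK z) (dg8 T.tp.m (jf J2))).det)
    (hcert : Cert dl (xh2 X) T J1 J2) : P28.Rational (X.map (Int.castRingHom ℂ)).F :=
  rational_of hz (by rw [xh2_herm, map_cast]) hn hirr hD2 hD hli hdl hc hJ1 hJ2 hcert

end Pool.Agent.GSW
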