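import Pool.Agent.GSW.Fast
import Pool.Agent.GSW.Glue

/-!
# GSW: trees and tables

`lnk`: the test for `q = Q`, `q` a list of terms, `Q` a matrix of expressions. `eqM`: the test for
the equality of two matrices of expressions. `tq`: the equations of a pencil with a rescaled first
coordinate.
-/

set_option autoImplicit false

namespace Pool.Agent.GSW

open E

/-- the test for the equality of two quadratic forms -/
def lnk (p : Pm) (q : QF) (Q : Fin 8 → Fin 8 → E) : Bool :=
  all8 fun i => all8 fun j => !(Nat.ble i.val j.val) ||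
    isZero p (E.sub (E.add (cf q i j) (cf q j i)) (E.add (Q i j) (Q j i)))

/-- the test for the equality of two matrices -/
def eqM (p : Pm) (A B : Fin 8 → Fin 8 → E) : Bool :=
  all8 fun i => all8 fun j => isZero p (E.sub (A i j) (B i j))

section

variable {S : Type} [CommRing S] (x y z : S)

theorem ev_cf (Q : Fin 8 → Fin 8 → E) (i j : Fin 8) :
    ev x y z (cf (qfM Q) i j) = ev x y z (Q i j) := by
  rw [← evG_ev, ← evG_ev]
  exact evG_cf _ Int.cast_zero _ _ _ _ _ _ _

theorem qv_qfs (Q : Fin 8 → Fin 8 → E) (w : Fin 8 → S) :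
    qv x y z (qfM Q) w = ∑ i, ∑ j, ev x y z (Q i j) * (w i * w j) := by
  rw [qv_cf]
  simp only [ev_cf]

theorem qv_qfM_congr {Q Q' : Fin 8 → Fin 8 → E} (h : ∀ i j, ev x y z (Q i j) = ev x y z (Q' i j))
    (w : Fin 8 → S) : qv x y z (qfM Q) w = qv x y z (qfM Q') w := by
  rw [qv_qfs, qv_qfs]
  simp only [h]

theorem jw_congr {J J' : Fin 8 → Fin 8 → E} (h : ∀ i j, ev x y z (J i j) = ev x y z (J' i j))
    (w : Fin 8 → S) : jw x y z J w = jw x y z J' w := by
  funext a
  simp only [jw, h]

theorem eqM_ev {p : Pm} {A B : Fin 8 → Fin 8 → E} (h : eqM p A B = true)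
    (hz : z * z = p.dl) (i j : Fin 8) : ev x y z (A i j) = ev x y z (B i j) := by
  have h1 := (all8_iff _).1 ((all8_iff _).1 h i) j
  have h2 := E.zero h1 x y z hz
  exact sub_eq_zero.1 h2

theorem lnk_eq {p : Pm} {q : QF} {Q : Fin 8 → Fin 8 → E} (h : lnk p q Q = true)
    (h2 : ∀ z : S, 2 * z = 0 → z = 0) (hz : z * z = p.dl) (w : Fin 8 → S) :
    qv x y z q w = qv x y z (qfM Q) w := by
  have h0 : ∀ i j : Fin 8, (ev x y z (cf q i j) - ev x y z (Q i j)) +
      (ev x y z (cf q j i) - ev x y z (Q j i)) = 0 := by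
    have h3 : ∀ i j : Fin 8, i.val ≤ j.val → (ev x y z (cf q i j) - ev x y z (Q i j)) +
        (ev x y z (cf q j i) - ev x y z (Q j i)) = 0 := by
      intro i j hij
      have h4 := (all8_iff _).1 ((all8_iff _).1 h i) j
      rw [Nat.ble_eq_true_of_le hij, Bool.not_true, Bool.false_or] at h4
      have h5 := E.zero h4 x y z hz
      simp only [ev] at h5
      linear_combination h5
    intro i j
    rcases le_total i.val j.val with h4 | h4
    · exact h3 i j h4
    · rw [add_comm]
      exact h3 j i h4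
  rw [← sub_eq_zero]
  apply h2
  have h3 : qv x y z q w - qv x y z (qfM Q) w =
      ∑ i, ∑ j, (ev x y z (cf q i j) - ev x y z (Q i j)) * (w i * w j) := by
    rw [qv_cf, qv_qfs, ← Finset.sum_sub_distrib]
    refine Finset.sum_congr rfl fun i _ => ?_
    rw [← Finset.sum_sub_distrib]
    refine Finset.sum_congr rfl fun j _ => ?_
    ring
  rw [h3, two_mul]
  nth_rewrite 2 [Finset.sum_comm]
  rw [← Finset.sum_add_distrib]
  refine Finset.sum_eq_zero fun i _ => ?_
  rw [← Finset.sum_add_distrib]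
  refine Finset.sum_eq_zero fun j _ => ?_
  rw [mul_comm (w j) (w i), ← add_mul, h0, zero_mul]

/-- the equations with the first coordinate multiplied by `T.m` -/
def tq (T : TP) : Fin 8 → QF := TP.q { T with m := E.c 1 }

/-- `(ξ₀, m ξ₁, m u)` -/
def dg8 (m : E) (J : Fin 8 → Fin 8 → E) (i j : Fin 8) : E :=
  bif Nat.beq i.val 0 then J i j else E.mul m (J i j)

theorem jw_dg8 (m : E) (J : Fin 8 → Fin 8 → E) (w : Fin 8 → S) (i : Fin 8) :
    jw x y z (dg8 m J) w i = if i = 0 then jw x y z J w i else ev x y z m * jw x y z J w i := by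
  by_cases hi : i = 0
  · rw [if_pos hi]
    subst hi
    rfl
  · rw [if_neg hi]
    have h1 : Nat.beq i.val 0 = false := by
      rw [Bool.eq_false_iff]
      intro h
      exact hi (Fin.ext (Nat.eq_of_beq_eq_true h))
    simp only [jw, dg8, h1, cond_false, ev, Finset.mul_sum, mul_assoc]

theorem tq_eq (T : TP) (J : Fin 8 → Fin 8 → E) (w : Fin 8 → S) (k : Fin 8) :
    qv x y z (T.q k) (jw x y z (dg8 T.m J) w) =
      ev x y z T.m ^ 2 * qv x y z (tq T k) (jw x y z J w) := by
  have hu : ∀ i : Fin 6, jw x y z (dg8 T.m J) w (Fin.natAdd 2 i) =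
      ev x y z T.m * jw x y z J w (Fin.natAdd 2 i) := by
    intro i
    rw [jw_dg8, if_neg]
    intro h
    have h1 := congrArg Fin.val h
    simp at h1
  have h0 : jw x y z (dg8 T.m J) w 0 = jw x y z J w 0 := by rw [jw_dg8, if_pos rfl]
  have h1 : jw x y z (dg8 T.m J) w 1 = ev x y z T.m * jw x y z J w 1 := by
    rw [jw_dg8, if_neg (by decide)]
  have hsq : ∀ M : Fin 6 → Fin 6 → E, qv x y z (sq M) (jw x y z (dg8 T.m J) w) =
      ev x y z T.m ^ 2 * qv x y z (sq M) (jw x y z J w) := by
    intro M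
    rw [qv_sq, qv_sq, Finset.mul_sum]
    refine Finset.sum_congr rfl fun i _ => ?_
    rw [Finset.mul_sum]
    refine Finset.sum_congr rfl fun j _ => ?_
    rw [hu, hu]
    ring
  have hS : ∀ (i : Fin 6) (v : Fin 8 → S), qv x y z ((List.finRange 6).map fun j =>
      (T.S i j, (1 : Fin 8), Fin.natAdd 2 j)) v = ∑ j, ev x y z (T.S i j) *
        (v 1 * v (Fin.natAdd 2 j)) := by
    intro i v
    unfold qv
    rw [List.map_map, sum_finRange]
    rfl
  have hpq : ∀ i : Fin 6, qv x y z (T.pq i) (jw x y z (dg8 T.m J) w) =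
      ev x y z T.m ^ 2 * qv x y z (TP.pq { T with m := E.c 1 } i) (jw x y z J w) := by
    intro i
    unfold TP.pq
    rw [qv_append, qv_cons, qv_append, qv_cons, hsq, hS, hS, hu, h0, h1]
    simp only [hu]
    have e1 : ∑ j, ev x y z (T.S i j) * (ev x y z T.m * jw x y z J w 1 *
        (ev x y z T.m * jw x y z J w (Fin.natAdd 2 j))) =
        ev x y z T.m ^ 2 * ∑ j, ev x y z (T.S i j) *
          (jw x y z J w 1 * jw x y z J w (Fin.natAdd 2 j)) := by
      rw [Finset.mul_sum]
      exact Finset.sum_congr rfl fun j _ => by ring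
    rw [e1]
    simp only [ev, Int.cast_zero, Int.cast_one]
    ring
  unfold tq
  fin_cases k
  · exact hsq _
  · exact hsq _
  · exact hpq 0
  · exact hpq 1
  · exact hpq 2
  · exact hpq 3
  · exact hpq 4
  · exact hpq 5

end

end Pool.Agent.GSW
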