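import Pool.Agent.GSW.Link
import Pool.Agent.GSW.DTree

/-!
# GSW: the two steps

`step1`: the nine equations of a pencil of hermitian forms imply the nine equations of a table in new
coordinates `J w`. `step2`: the nine equations of a table at `y` imply the equations of the second
pencil at `J y`.
-/

set_option autoImplicit false

noncomputable section

namespace Pool.Agent.GSW

open Matrix Pool.Agent.GSH Pool.Agent.GSX E
open Pool.Agent.GSE (t8)

/-- the identity of a certificate -/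
def FD.Id (dl : ℤ) (D : FD) : Prop :=
  ∀ (S : Type) [CommRing S], (∀ z : S, 2 * z = 0 → z = 0) → ∀ x y z : S, z * z = (dl : S) →
    ∀ w : Fin 8 → S,
      (D.ts.map fun T => E.ev x y z (tE T.d) * qv x y z (qfM T.Qf) (jw x y z T.Jf w)).sum =
        ∑ l, E.ev x y z (D.gf l) * qv x y z (qfM (D.Nf l)) w

theorem id_of {dl : ℤ} {M B R n : ℕ} {D : FD} (h : fchk dl M B R n D = true) : D.Id dl :=
  fun _ _ h2 x y z hz w => fcert h h2 x y z hz w

theorem id_of1 {dl : ℤ} {M B R n : ℕ} {D : FD} (h : fchk1 dl M B R n D = true) : D.Id dl :=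
  fun _ _ h2 x y z hz w => fcert1 h h2 x y z hz w

/-- the forms of a table -/
def nf (N : List (List (List Tb))) (l : ℕ) (i j : Fin 8) : E :=
  tE (((N.getD i []).getD j []).getD l [])

/-- the matrix of a table of columns -/
def jf (J : List (List Tb)) (a i : Fin 8) : E := tE ((J.getD i []).getD a [])

/-- the matrix of a table of rows -/
def rf (Q : List (List Tb)) (a b : Fin 8) : E := tE ((Q.getD a []).getD b [])

theorem rf_rowsOf (N : List (List (List Tb))) (l : ℕ) : rf (rowsOf N l) = nf N l := by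
  funext i j
  unfold rf nf
  rw [rowsOf_get]

theorem tE_one {S : Type} [CommRing S] (x y z : S) : ev x y z (tE [([1], [])]) = 1 := by
  simp [tE, rowE, hzE, ev]

variable {K Ω : Type} [Field K] [Field Ω] [Algebra K Ω]

theorem step1 [CharZero K] {dl : ℤ} {x y z : K} (hz : z * z = dl) {T : TP} {H : Pen K}
    (h : T.Is x y z H) {XN NN : List (List (List Tb))} {J V A : List (List Tb)}
    {VT AT : Fin 8 → Fin 8 → E} {G : Fin 9 → List Tb} {h8 : Tb} {p : Pm} (hp : p.dl = dl)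
    (hX : ∀ l : Fin 8, lnk p (T.q l) (nf XN l) = true) (hV : eqM p VT (jf V) = true)
    (hA : eqM p AT (rf A) = true) (hG : ∀ l, (G l).length ≤ 8)
    (hc : ∀ l : Fin 8, FD.Id dl ⟨[⟨J, rowsOf NN l, [([1], [])]⟩], G l.castSucc, XN⟩)
    (hc8 : FD.Id dl ⟨[⟨J, rowsOf NN 8, [([1], [])]⟩, ⟨V, A, h8⟩], G 8, XN⟩)
    {w : I8 → Ω} (hw : w ∈ H.W Ω)
    (h9 : qv (algebraMap K Ω x) (algebraMap K Ω y) (algebraMap K Ω z) (qfM AT)
      (jw (algebraMap K Ω x) (algebraMap K Ω y) (algebraMap K Ω z) VT (t8 w)) = 0) (l : Fin 9) :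
    qv (algebraMap K Ω x) (algebraMap K Ω y) (algebraMap K Ω z) (qfM (nf NN l))
      (jw (algebraMap K Ω x) (algebraMap K Ω y) (algebraMap K Ω z) (jf J) (t8 w)) = 0 := by
  have : CharZero Ω := charZero_of_injective_algebraMap (algebraMap K Ω).injective
  have hc2 : ∀ z : Ω, 2 * z = 0 → z = 0 := fun z hz => (mul_eq_zero.1 hz).resolve_left two_ne_zero
  set X := algebraMap K Ω x
  set Y := algebraMap K Ω y
  set Z := algebraMap K Ω z with hZ
  have hzΩ : Z * Z = (dl : Ω) := by rw [hZ, ← map_mul, hz, map_intCast]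
  have hzp : Z * Z = (p.dl : Ω) := by rw [hp, hzΩ]
  have h1 := (h.mem_iff w).1 hw
  have h2 : ∀ l : Fin 8, qv X Y Z (qfM (nf XN l)) (t8 w) = 0 := by
    intro l
    rw [← lnk_eq X Y Z (hX l) hc2 hzp]
    exact h1 l
  have hr : ∀ (D : FD) (h : D.N = XN) (hg : D.g.length ≤ 8),
      ∑ l, E.ev X Y Z (D.gf l) * qv X Y Z (qfM (D.Nf l)) (t8 w) = 0 := by
    intro D hN hg
    rw [Fin.sum_univ_castSucc]
    have h3 : E.ev X Y Z (D.gf (Fin.last 8)) = 0 := by
      unfold FD.gf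
      rw [List.getD_eq_default _ _ (by simpa using hg)]
      simp [tE, ev]
    rw [h3, zero_mul, add_zero]
    refine Finset.sum_eq_zero fun l _ => ?_
    have h4 : D.Nf l.castSucc = nf XN l := by
      funext i j
      unfold FD.Nf nf
      rw [hN]
      rfl
    rw [h4, h2, mul_zero]
  have h9' : qv X Y Z (qfM (rf A)) (jw X Y Z (jf V) (t8 w)) = 0 := by
    rw [← qv_qfM_congr X Y Z (fun i j => eqM_ev X Y Z hA hzp i j),
      ← jw_congr X Y Z (fun i j => eqM_ev X Y Z hV hzp i j)]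
    exact h9
  have key : ∀ l : Fin 8, qv X Y Z (qfM (nf NN l)) (jw X Y Z (jf J) (t8 w)) = 0 := by
    intro l
    have h3 := hc l Ω hc2 X Y Z hzΩ (t8 w)
    rw [hr _ rfl (hG _)] at h3
    simp only [List.map_cons, List.map_nil, List.sum_cons, List.sum_nil, add_zero] at h3
    rw [tE_one, one_mul] at h3
    have h4 : Tm.Qf ⟨J, rowsOf NN l, [([1], [])]⟩ = nf NN l := rf_rowsOf NN l
    rw [h4] at h3
    exact h3
  have key8 : qv X Y Z (qfM (nf NN 8)) (jw X Y Z (jf J) (t8 w)) = 0 := by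
    have h3 := hc8 Ω hc2 X Y Z hzΩ (t8 w)
    rw [hr _ rfl (hG _)] at h3
    simp only [List.map_cons, List.map_nil, List.sum_cons, List.sum_nil, add_zero] at h3
    rw [tE_one, one_mul] at h3
    have h4 : Tm.Qf ⟨J, rowsOf NN 8, [([1], [])]⟩ = nf NN 8 := rf_rowsOf NN 8
    have h5 : qv X Y Z (qfM (Tm.Qf ⟨V, A, h8⟩)) (jw X Y Z (Tm.Jf ⟨V, A, h8⟩) (t8 w)) = 0 := h9'
    rw [h4, h5, mul_zero, add_zero] at h3
    exact h3
  refine Fin.lastCases ?_ (fun l => ?_) l
  · exact key8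
  · exact key l

theorem step2 [CharZero K] {dl : ℤ} {x y z : K} (hz : z * z = dl) {T : TP} {H : Pen K}
    (h : T.Is x y z H) {WQ NN : List (List (List Tb))} {J : List (List Tb)}
    {G : Fin 8 → List Tb} {den : Fin 8 → Tb} {p : Pm} (hp : p.dl = dl)
    (hW : ∀ k : Fin 8, lnk p (tq T k) (nf WQ k) = true)
    (hc : ∀ k : Fin 8, FD.Id dl ⟨[⟨J, rowsOf WQ k, den k⟩], G k, NN⟩)
    (hden : ∀ k, ev x y z (tE (den k)) ≠ 0) {w : I8 → Ω} {v : Fin 8 → Ω}
    (hv : ∀ l : Fin 9, qv (algebraMap K Ω x) (algebraMap K Ω y) (algebraMap K Ω z)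
      (qfM (nf NN l)) v = 0)
    (hw : t8 w = jw (algebraMap K Ω x) (algebraMap K Ω y) (algebraMap K Ω z)
      (dg8 T.m (jf J)) v) : w ∈ H.W Ω := by
  have : CharZero Ω := charZero_of_injective_algebraMap (algebraMap K Ω).injective
  have hc2 : ∀ z : Ω, 2 * z = 0 → z = 0 := fun z hz => (mul_eq_zero.1 hz).resolve_left two_ne_zero
  rw [h.mem_iff]
  intro k
  rw [hw, tq_eq]
  have hzΩ : algebraMap K Ω z * algebraMap K Ω z = (dl : Ω) := by
    rw [← map_mul, hz, map_intCast]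
  have h3 := hc k Ω hc2 (algebraMap K Ω x) (algebraMap K Ω y) (algebraMap K Ω z) hzΩ v
  simp only [List.map_cons, List.map_nil, List.sum_cons, List.sum_nil, add_zero] at h3
  have h4 : Tm.Qf ⟨J, rowsOf WQ k, den k⟩ = nf WQ k := rf_rowsOf WQ k
  have h5 : ∑ l, E.ev (algebraMap K Ω x) (algebraMap K Ω y) (algebraMap K Ω z)
      (FD.gf ⟨[⟨J, rowsOf WQ k, den k⟩], G k, NN⟩ l) *
      qv (algebraMap K Ω x) (algebraMap K Ω y) (algebraMap K Ω z)
        (qfM (FD.Nf ⟨[⟨J, rowsOf WQ k, den k⟩], G k, NN⟩ l)) v = 0 := by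
    refine Finset.sum_eq_zero fun l _ => ?_
    have h6 : FD.Nf ⟨[⟨J, rowsOf WQ k, den k⟩], G k, NN⟩ l = nf NN l := rfl
    rw [h6, hv, mul_zero]
  rw [h5, h4] at h3
  have h7 : ev (algebraMap K Ω x) (algebraMap K Ω y) (algebraMap K Ω z) (tE (den k)) ≠ 0 := by
    rw [ev_alg]
    exact fun h0 => hden k ((map_eq_zero _).1 h0)
  have h8 := (mul_eq_zero.1 h3).resolve_left h7
  rw [lnk_eq _ _ _ (hW k) hc2 (by rw [hp]; exact hzΩ)]
  have h9 : qv (algebraMap K Ω x) (algebraMap K Ω y) (algebraMap K Ω z) (qfM (nf WQ k))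
      (jw (algebraMap K Ω x) (algebraMap K Ω y) (algebraMap K Ω z) (jf J) v) = 0 := h8
  rw [h9, mul_zero]

end Pool.Agent.GSW
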