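import Pool.Agent.GSW.Zt

/-!
# GSW: a zero test with small values of `s`

`zero_of_grid`: if the value of `e` modulo `m = R ^ 2 - δ` at `s = x`, `t = B`, `r = R` is zero
for `x = 0, …, n - 1`, and the values of the majorant at three points are small, then the value of
`e` is `0` in every commutative ring, for all `s`, `t` and every square root of `δ`.
-/

set_option autoImplicit false

namespace Pool.Agent.GSW

open Polynomial

namespace E

theorem evN_mono {x x' y M : ℕ} (h : x ≤ x') (e : E) : evN x y M e ≤ evN x' y M e := by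
  induction e with
  | c z => exact le_rfl
  | s => exact h
  | t => exact le_rfl
  | r => exact le_rfl
  | add a b iha ihb => exact Nat.add_le_add iha ihb
  | sub a b iha ihb => exact Nat.add_le_add iha ihb
  | mul a b iha ihb => exact Nat.mul_le_mul iha ihb

/-- a pair of small numbers which is zero modulo `R ^ 2 - δ` is zero -/
theorem pair_zero {dl : ℤ} {M R N : ℕ} (hM1 : 1 ≤ M) (hR : N * (R + 1) + dl.natAbs < R * R)
    {m : ℕ} (hm1 : (m : ℤ) = (R : ℤ) * R - dl) {A : ℤ × ℤ}
    (h10 : A.1.natAbs + M * A.2.natAbs ≤ N) (h9 : (m : ℤ) ∣ A.1 + R * A.2) : A = (0, 0) := by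
  have h11 : A.1.natAbs ≤ N := (Nat.le_add_right _ _).trans h10
  have h12 : A.2.natAbs ≤ N := by
    refine le_trans ?_ ((Nat.le_add_left _ _).trans h10)
    exact Nat.le_mul_of_pos_left _ hM1
  have h13 : A.1 + R * A.2 = 0 := by
    by_contra hne
    have h14 := Int.natAbs_dvd_natAbs.2 h9
    have h15 := Nat.le_of_dvd (Int.natAbs_pos.2 hne) h14
    rw [Int.natAbs_natCast] at h15
    have h16 : (A.1 + R * A.2).natAbs ≤ N + R * N := by
      refine (Int.natAbs_add_le _ _).trans (Nat.add_le_add h11 ?_)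
      rw [Int.natAbs_mul, Int.natAbs_natCast]
      exact Nat.mul_le_mul_left _ h12
    have h17 : (m : ℤ) ≤ ((N + R * N : ℕ) : ℤ) := by exact_mod_cast h15.trans h16
    rw [hm1] at h17
    have h18 : ((N * (R + 1) + dl.natAbs : ℕ) : ℤ) < ((R * R : ℕ) : ℤ) := by
      exact_mod_cast hR
    have h19 : dl ≤ |dl| := le_abs_self _
    push_cast at h17 h18
    linarith
  have h14 : A.2 = 0 := by
    by_contra hne
    have h15 : 1 ≤ A.2.natAbs := Int.natAbs_pos.2 hne
    have h16 : A.1.natAbs = R * A.2.natAbs := by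
      have h17 : A.1 = -(R * A.2) := eq_neg_of_add_eq_zero_left h13
      rw [h17, Int.natAbs_neg, Int.natAbs_mul, Int.natAbs_natCast]
    have h17 : R ≤ N := by
      calc R = R * 1 := (mul_one _).symm
        _ ≤ R * A.2.natAbs := Nat.mul_le_mul_left _ h15
        _ = A.1.natAbs := h16.symm
        _ ≤ N := h11
    have h18 : R * R ≤ N * (R + 1) := Nat.mul_le_mul h17 (Nat.le_succ _)
    omega
  have h15 : A.1 = 0 := by
    rw [h14, mul_zero, add_zero] at h13
    exact h13
  exact Prod.ext h15 h14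

/-- the degree in `s` is less than `n` if the value of the majorant at `s = S` is less than
`S ^ n` -/
theorem natDegree_lt {p : ℤ[X][X]} {q : ℕ[X][X]} (h : Le p q) {S n : ℕ} (hS : 1 ≤ S)
    (hq : (eval (1 : ℕ[X]) q).eval S < S ^ n) (j : ℕ) (i : ℕ) (hi : n ≤ i) :
    (p.coeff j).coeff i = 0 := by
  by_contra hne
  have h1 : 1 ≤ (q.coeff j).coeff i := (Int.natAbs_pos.2 hne).trans_le (h j i)
  have h2 : (q.coeff j).coeff i ≤ (eval (1 : ℕ[X]) q).coeff i := by
    rw [eval_eq_sum, Polynomial.sum, finsetSum_coeff]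
    by_cases h : j ∈ q.support
    · calc (q.coeff j).coeff i = (q.coeff j * 1 ^ j).coeff i := by simp
        _ ≤ _ := Finset.single_le_sum (f := fun j => (q.coeff j * 1 ^ j).coeff i)
            (fun _ _ => Nat.zero_le _) h
    · rw [notMem_support_iff.1 h]
      simp
  have h3 : (eval (1 : ℕ[X]) q).coeff i * S ^ i ≤ (eval (1 : ℕ[X]) q).eval S := by
    set u := eval (1 : ℕ[X]) q
    rw [eval_eq_sum, Polynomial.sum]
    by_cases h : i ∈ u.support
    · exact Finset.single_le_sum (f := fun i => u.coeff i * S ^ i) (fun _ _ => Nat.zero_le _) h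
    · rw [notMem_support_iff.1 h]
      simp
  have h4 : S ^ n ≤ S ^ i := Nat.pow_le_pow_right hS hi
  have h5 : S ^ i ≤ (eval (1 : ℕ[X]) q).coeff i * S ^ i :=
    Nat.le_mul_of_pos_left _ (h1.trans h2)
  omega

/-- a polynomial whose specialisations for `s = x`, `x < n`, have a zero at `t = B` -/
theorem grid_zero {p : ℤ[X][X]} {q : ℕ[X][X]} (h : Le p q) {S n B : ℕ} (hS : 1 ≤ S)
    (hq : (eval (1 : ℕ[X]) q).eval S < S ^ n)
    (hB : ∀ x < n, (eval (1 : ℕ[X]) q).eval x < B)
    (h0 : ∀ x < n, ((p.map (evalRingHom (x : ℤ))).eval (B : ℤ)) = 0) : p = 0 := by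
  have h1 : ∀ x < n, p.map (evalRingHom (x : ℤ)) = 0 := by
    intro x hx
    refine GSE.E.uni_zero B _ _ le_rfl (fun j => ?_) (h0 x hx)
    rw [coeff_map, coe_evalRingHom]
    refine lt_of_le_of_lt ?_ (hB x hx)
    have h2 : ((p.coeff j).eval (x : ℤ)).natAbs ≤ (q.coeff j).eval x := by
      have h3 : ∀ m, (p.coeff j).natDegree < m → (q.coeff j).natDegree < m →
          ((p.coeff j).eval (x : ℤ)).natAbs ≤ (q.coeff j).eval x := by
        intro m h4 h5
        rw [eval_eq_sum_range' h4, eval_eq_sum_range' h5]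
        refine (Int.natAbs_sum_le _ _).trans (Finset.sum_le_sum fun i _ => ?_)
        rw [Int.natAbs_mul, Int.natAbs_pow, Int.natAbs_natCast]
        exact Nat.mul_le_mul_right _ (h j i)
      exact h3 (max (p.coeff j).natDegree (q.coeff j).natDegree + 1) (by omega) (by omega)
    refine h2.trans ?_
    have h3 : eval x (eval (1 : ℕ[X]) q) = eval 1 (q.map (evalRingHom x)) := by
      have h4 := eval₂_hom (p := q) (evalRingHom x) 1
      rw [map_one] at h4
      rw [eval_map, h4, coe_evalRingHom]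
    rw [h3]
    have h4 : (q.coeff j).eval x = (q.map (evalRingHom x)).coeff j := by
      rw [coeff_map, coe_evalRingHom]
    rw [h4]
    exact GSE.E.coeff_le_eval _ _
  ext j i
  rw [coeff_zero, coeff_zero]
  have h2 : p.coeff j = 0 := by
    by_contra hne
    have h3 : (p.coeff j).natDegree < n := by
      by_contra h4
      push Not at h4
      exact leadingCoeff_ne_zero.2 hne (natDegree_lt h hS hq j _ h4)
    apply hne
    refine eq_zero_of_natDegree_lt_card_of_eval_eq_zero (p.coeff j)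
      (f := fun x : Fin n => ((x : ℕ) : ℤ)) (fun a b hab => by
        have : ((a : ℕ) : ℤ) = ((b : ℕ) : ℤ) := hab
        exact Fin.ext (by exact_mod_cast this)) (fun x => ?_) (by simpa using h3)
    have h4 := congrArg (fun r => r.coeff j) (h1 x x.2)
    simp only [coeff_map, coe_evalRingHom, coeff_zero] at h4
    exact h4
  rw [h2, coeff_zero]

/-- **The zero test.** -/
theorem zero_of_grid {dl : ℤ} {M B R S n m : ℕ} {e : E} (hM1 : 1 ≤ M) (hM : dl.natAbs ≤ M * M)
    (hm1 : (m : ℤ) = (R : ℤ) * R - dl)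
    (h0 : ∀ x < n, ev (x : ZMod m) (B : ZMod m) (R : ZMod m) e = 0)
    (hB : evN n 1 M e < B) (hR : evN n B M e * (R + 1) + dl.natAbs < R * R)
    (hS1 : 1 ≤ S) (hS : evN S 1 M e < S ^ n)
    {K : Type} [CommRing K] (x y z : K) (hz : z * z = dl) : ev x y z e = 0 := by
  have hz' : (R : ZMod m) * (R : ZMod m) = (dl : ZMod m) := by
    have h8 : ((m : ℤ) : ZMod m) = (((R : ℤ) * R - dl : ℤ) : ZMod m) := by rw [hm1]
    push_cast at h8
    rw [ZMod.natCast_self] at h8
    linear_combination -h8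
  have h1 : ∀ x < n, pv dl (x : ℤ) (B : ℤ) e = (0, 0) := by
    intro x hx
    have h7 := h0 x hx
    rw [ev_eq_pv _ _ _ _ hz'] at h7
    have h8 : (((pv dl (x : ℤ) (B : ℤ) e).1 + R * (pv dl (x : ℤ) (B : ℤ) e).2 : ℤ) : ZMod m) =
        0 := by
      have h9 := pv_map (Int.castRingHom (ZMod m)) dl (x : ℤ) (B : ℤ) e
      simp only [eq_intCast, Int.cast_natCast] at h9
      rw [h9] at h7
      push_cast
      exact h7
    have h9 := (ZMod.intCast_zmod_eq_zero_iff_dvd _ _).1 h8
    refine pair_zero hM1 ?_ hm1 (pv_evN dl M x B hM e) h9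
    refine lt_of_le_of_lt ?_ hR
    exact Nat.add_le_add_right (Nat.mul_le_mul_right _ (evN_mono hx.le e)) _
  have hb := mj_bound dl e
  have hmaj : ∀ x : ℕ, (eval (C 1) (mj dl.natAbs e).1).eval x +
      M * (eval (C 1) (mj dl.natAbs e).2).eval x ≤ evN x 1 M e := fun x =>
    mj_evN dl.natAbs M x 1 hM e
  have hC1 : (C 1 : ℕ[X]) = 1 := C_1
  rw [hC1] at hmaj
  have key : ∀ x < n, (((pol dl e).1.map (evalRingHom (x : ℤ))).eval (B : ℤ)) = 0 ∧
      (((pol dl e).2.map (evalRingHom (x : ℤ))).eval (B : ℤ)) = 0 := by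
    intro x hx
    have h16 := pv_map ((evalRingHom (B : ℤ)).comp (mapRingHom (evalRingHom (x : ℤ))))
      (C (C dl)) (C X) X e
    simp only [RingHom.coe_comp, Function.comp_apply, coe_evalRingHom, coe_mapRingHom, map_C,
      eval_C, eval_X, map_X] at h16
    rw [h1 x hx] at h16
    exact ⟨(congrArg Prod.fst h16).symm, (congrArg Prod.snd h16).symm⟩
  have e1 : (pol dl e).1 = 0 := by
    refine grid_zero hb.1 hS1 ?_ (fun x hx => ?_) (fun x hx => (key x hx).1)
    · exact ((Nat.le_add_right _ _).trans (hmaj S)).trans_lt hS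
    · exact (((Nat.le_add_right _ _).trans (hmaj x)).trans (evN_mono hx.le e)).trans_lt hB
  have e2 : (pol dl e).2 = 0 := by
    have hle : ∀ x, (eval 1 (mj dl.natAbs e).2).eval x ≤ evN x 1 M e := fun x =>
      (Nat.le_mul_of_pos_left _ hM1).trans ((Nat.le_add_left _ _).trans (hmaj x))
    refine grid_zero hb.2 hS1 ((hle S).trans_lt hS) (fun x hx => ?_) (fun x hx => (key x hx).2)
    exact ((hle x).trans (evN_mono hx.le e)).trans_lt hB
  have h2 := pv_map (R := ℤ[X][X]) (eval₂RingHom (eval₂RingHom (Int.castRingHom K) x) y)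
    (C (C dl)) (C X) X e
  have h3 : pv (C (C dl) : ℤ[X][X]) (C X) X e = (0, 0) := Prod.ext e1 e2
  rw [h3, map_zero] at h2
  rw [ev_eq_pv _ _ _ _ hz]
  have h4 : (eval₂RingHom (eval₂RingHom (Int.castRingHom K) x) y) (C (C dl)) = (dl : K) := by
    simp
  have h5 : (eval₂RingHom (eval₂RingHom (Int.castRingHom K) x) y) (C X) = x := by
    simp
  have h6 : (eval₂RingHom (eval₂RingHom (Int.castRingHom K) x) y) X = y := by
    simp
  rw [h4, h5, h6] at h2
  rw [h2]
  simp

/-- **The zero test with one point.** -/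
theorem zero_of_kr {dl : ℤ} {M B R D m : ℕ} {e : E} (hM1 : 1 ≤ M) (hM : dl.natAbs ≤ M * M)
    (hm1 : (m : ℤ) = (R : ℤ) * R - dl)
    (h0 : ev (B : ZMod m) ((B ^ D : ℕ) : ZMod m) (R : ZMod m) e = 0)
    (hB : evN 1 1 M e < B) (hR : evN B (B ^ D) M e * (R + 1) + dl.natAbs < R * R)
    (hD1 : 1 ≤ D) (hD : evN B 1 M e < B ^ D)
    {K : Type} [CommRing K] (x y z : K) (hz : z * z = dl) : ev x y z e = 0 := by
  have hB1 : 1 ≤ B := by omega
  have hz' : (R : ZMod m) * (R : ZMod m) = (dl : ZMod m) := by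
    have h8 : ((m : ℤ) : ZMod m) = (((R : ℤ) * R - dl : ℤ) : ZMod m) := by rw [hm1]
    push_cast at h8
    rw [ZMod.natCast_self] at h8
    linear_combination -h8
  have h1 : pv dl (B : ℤ) ((B ^ D : ℕ) : ℤ) e = (0, 0) := by
    have h7 := h0
    rw [ev_eq_pv _ _ _ _ hz'] at h7
    have h8 : (((pv dl (B : ℤ) ((B ^ D : ℕ) : ℤ) e).1 +
        R * (pv dl (B : ℤ) ((B ^ D : ℕ) : ℤ) e).2 : ℤ) : ZMod m) = 0 := by
      have h9 := pv_map (Int.castRingHom (ZMod m)) dl (B : ℤ) ((B ^ D : ℕ) : ℤ) e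
      simp only [eq_intCast, Int.cast_natCast] at h9
      rw [h9] at h7
      push_cast
      push_cast at h7
      exact h7
    have h9 := (ZMod.intCast_zmod_eq_zero_iff_dvd _ _).1 h8
    exact pair_zero hM1 hR hm1 (pv_evN dl M B (B ^ D) hM e) h9
  have hb := mj_bound dl e
  have hmaj : ∀ x : ℕ, (eval (C 1) (mj dl.natAbs e).1).eval x +
      M * (eval (C 1) (mj dl.natAbs e).2).eval x ≤ evN x 1 M e := fun x =>
    mj_evN dl.natAbs M x 1 hM e
  have h17 := hmaj 1
  have hC1 : (C 1 : ℕ[X]) = 1 := C_1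
  have hmaj' := hmaj B
  rw [hC1] at hmaj'
  have hle : (eval 1 (mj dl.natAbs e).2).eval B ≤ evN B 1 M e :=
    (Nat.le_mul_of_pos_left _ hM1).trans ((Nat.le_add_left _ _).trans hmaj')
  have h16 := pv_map ((evalRingHom (B : ℤ)).comp (evalRingHom (C (((B ^ D : ℕ) : ℤ)))))
    (C (C dl)) (C X) X e
  simp only [RingHom.coe_comp, Function.comp_apply, coe_evalRingHom, eval_C, eval_X] at h16
  rw [h1] at h16
  have hpw : (((B ^ D : ℕ) : ℤ)) = (B : ℤ) ^ D := by push_cast; ring
  have hq1 : ∀ j i, (((pol dl e).1.coeff j).coeff i).natAbs < B := by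
    intro j i
    refine ((hb.1 j i).trans (GSE.E.coeff_coeff_le _ j i)).trans_lt ?_
    exact lt_of_le_of_lt ((Nat.le_add_right _ _).trans h17) hB
  have hq2 : ∀ j i, (((pol dl e).2.coeff j).coeff i).natAbs < B := by
    intro j i
    refine ((hb.2 j i).trans (GSE.E.coeff_coeff_le _ j i)).trans_lt ?_
    refine lt_of_le_of_lt ?_ hB
    refine le_trans ?_ ((Nat.le_add_left _ _).trans h17)
    exact Nat.le_mul_of_pos_left _ hM1
  have hdeg : ∀ {P : ℤ[X][X]} {Q : ℕ[X][X]}, Le P Q → (eval (1 : ℕ[X]) Q).eval B < B ^ D →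
      ∀ j, (P.coeff j).natDegree < D := by
    intro P Q hPQ hQ j
    by_contra h4
    push Not at h4
    have h5 := natDegree_lt hPQ hB1 hQ j _ h4
    have h6 : P.coeff j = 0 := leadingCoeff_eq_zero.1 h5
    rw [h6, natDegree_zero] at h4
    omega
  have e1 : (pol dl e).1 = 0 := by
    refine GSE.E.biv_zero B D _ _ le_rfl hq1
      (hdeg hb.1 (((Nat.le_add_right _ _).trans hmaj').trans_lt hD)) ?_
    have h20 := congrArg Prod.fst h16
    rw [← hpw]
    exact h20.symm
  have e2 : (pol dl e).2 = 0 := by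
    refine GSE.E.biv_zero B D _ _ le_rfl hq2 (hdeg hb.2 (hle.trans_lt hD)) ?_
    have h20 := congrArg Prod.snd h16
    rw [← hpw]
    exact h20.symm
  have h2 := pv_map (R := ℤ[X][X]) (eval₂RingHom (eval₂RingHom (Int.castRingHom K) x) y)
    (C (C dl)) (C X) X e
  have h3 : pv (C (C dl) : ℤ[X][X]) (C X) X e = (0, 0) := Prod.ext e1 e2
  rw [h3, map_zero] at h2
  rw [ev_eq_pv _ _ _ _ hz]
  have h4 : (eval₂RingHom (eval₂RingHom (Int.castRingHom K) x) y) (C (C dl)) = (dl : K) := by
    simp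
  have h5 : (eval₂RingHom (eval₂RingHom (Int.castRingHom K) x) y) (C X) = x := by
    simp
  have h6 : (eval₂RingHom (eval₂RingHom (Int.castRingHom K) x) y) X = y := by
    simp
  rw [h4, h5, h6] at h2
  rw [h2]
  simp

end E

end Pool.Agent.GSW
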