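import Pool.Agent.GSE.Zt

/-!
# GSW: a zero test for polynomials in two variables over `ℤ[√δ]`

`E`: expressions in `s`, `t`, `r` (`r = √δ`) with integer constants. `E.zero`: the test `isZero` shows
that the value is `0` in every commutative ring, for all values of `s`, `t` and every square root of
`δ`. The test computes modulo `m = R ^ 2 - δ`, with `s = B`, `t = B ^ D`, `r = R`.
-/

set_option autoImplicit false

namespace Pool.Agent.GSW

open Polynomial

/-- Expressions in two variables and a square root. -/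
inductive E where
  | c : ℤ → E
  | s : E
  | t : E
  | r : E
  | add : E → E → E
  | sub : E → E → E
  | mul : E → E → E

/-- The parameters of the test. -/
structure Pm where
  /-- the number under the root -/
  dl : ℤ
  /-- a bound for the root -/
  M : ℕ
  /-- a bound for the coefficients -/
  B : ℕ
  /-- a bound for the degree in `s` -/
  D : ℕ
  /-- the value of the root -/
  R : ℕ

namespace E

/-- the value in a commutative ring -/
def ev {R : Type} [CommRing R] (x y z : R) : E → R
  | c a => (a : R)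
  | s => x
  | t => y
  | r => z
  | add a b => ev x y z a + ev x y z b
  | sub a b => ev x y z a - ev x y z b
  | mul a b => ev x y z a * ev x y z b

/-- the residue of an integer -/
def cm (m : ℕ) : ℤ → ℕ
  | Int.ofNat n => n
  | Int.negSucc n => Nat.sub m (Nat.mod (Nat.succ n) m)

/-- the value modulo `m`, for the kernel -/
def evM (m x y z : ℕ) : E → ℕ
  | c a => cm m a
  | s => x
  | t => y
  | r => z
  | add a b => Nat.add (evM m x y z a) (evM m x y z b)
  | sub a b => Nat.add (evM m x y z a) (Nat.sub m (Nat.mod (evM m x y z b) m))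
  | mul a b => Nat.mod (Nat.mul (evM m x y z a) (evM m x y z b)) m

/-- the value of the majorant -/
def evN (x y M : ℕ) : E → ℕ
  | c z => z.natAbs
  | s => x
  | t => y
  | r => M
  | add a b => Nat.add (evN x y M a) (evN x y M b)
  | sub a b => Nat.add (evN x y M a) (evN x y M b)
  | mul a b => Nat.mul (evN x y M a) (evN x y M b)

/-- a bound for the degree in `s` -/
def dg : E → ℕ
  | c _ => 0
  | s => 1
  | t => 0
  | r => 0
  | add a b => max (dg a) (dg b)
  | sub a b => max (dg a) (dg b)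
  | mul a b => Nat.add (dg a) (dg b)

theorem ev_map {R R' : Type} [CommRing R] [CommRing R'] (f : R →+* R') (x y z : R) (e : E) :
    f (ev x y z e) = ev (f x) (f y) (f z) e := by
  induction e with
  | c z => simp [ev]
  | s => rfl
  | t => rfl
  | r => rfl
  | add a b iha ihb => simp only [ev, map_add, iha, ihb]
  | sub a b iha ihb => simp only [ev, map_sub, iha, ihb]
  | mul a b iha ihb => simp only [ev, map_mul, iha, ihb]

/-- the value modulo `m` -/
theorem evM_eq (m x y z : ℕ) (hm : m ≠ 0) (e : E) :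
    ((evM m x y z e : ℕ) : ZMod m) = ev (x : ZMod m) (y : ZMod m) (z : ZMod m) e := by
  have hsub : ∀ b : ℕ, m ≠ 0 → ((Nat.sub m (Nat.mod b m) : ℕ) : ZMod m) = -(b : ZMod m) := by
    intro b hm
    have h1 : Nat.mod b m ≤ m := (Nat.mod_lt b (Nat.pos_of_ne_zero hm)).le
    have h2 : ((Nat.sub m (Nat.mod b m) : ℕ) : ZMod m) + ((Nat.mod b m : ℕ) : ZMod m) = 0 := by
      rw [← Nat.cast_add]
      have h3 : Nat.sub m (Nat.mod b m) + Nat.mod b m = m := Nat.sub_add_cancel h1
      rw [h3, ZMod.natCast_self]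
    have h3 : ((Nat.mod b m : ℕ) : ZMod m) = (b : ZMod m) := ZMod.natCast_mod b m
    rw [h3] at h2
    exact eq_neg_of_add_eq_zero_left h2
  induction e with
  | c a =>
    cases a with
    | ofNat n => simp [evM, cm, ev]
    | negSucc n =>
      change ((Nat.sub m (Nat.mod (Nat.succ n) m) : ℕ) : ZMod m) = ((Int.negSucc n : ℤ) : ZMod m)
      rw [hsub _ hm, Int.cast_negSucc]
  | s => rfl
  | t => rfl
  | r => rfl
  | add a b iha ihb =>
    change ((evM m x y z a + evM m x y z b : ℕ) : ZMod m) = _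
    rw [Nat.cast_add, iha, ihb]
    rfl
  | sub a b iha ihb =>
    change ((evM m x y z a + Nat.sub m (Nat.mod (evM m x y z b) m) : ℕ) : ZMod m) = _
    rw [Nat.cast_add, iha, hsub _ hm, ihb, ← sub_eq_add_neg]
    rfl
  | mul a b iha ihb =>
    have h1 : ((Nat.mod (Nat.mul (evM m x y z a) (evM m x y z b)) m : ℕ) : ZMod m) =
        ((evM m x y z a * evM m x y z b : ℕ) : ZMod m) := ZMod.natCast_mod _ m
    change ((Nat.mod (Nat.mul (evM m x y z a) (evM m x y z b)) m : ℕ) : ZMod m) = _
    rw [h1, Nat.cast_mul, iha, ihb]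
    rfl

/-- the value as `a + b √d` -/
def pv {R : Type} [CommRing R] (d x y : R) : E → R × R
  | c a => (a, 0)
  | s => (x, 0)
  | t => (y, 0)
  | r => (0, 1)
  | add a b => ((pv d x y a).1 + (pv d x y b).1, (pv d x y a).2 + (pv d x y b).2)
  | sub a b => ((pv d x y a).1 - (pv d x y b).1, (pv d x y a).2 - (pv d x y b).2)
  | mul a b => ((pv d x y a).1 * (pv d x y b).1 + d * ((pv d x y a).2 * (pv d x y b).2),
      (pv d x y a).1 * (pv d x y b).2 + (pv d x y a).2 * (pv d x y b).1)

theorem ev_eq_pv {R : Type} [CommRing R] (d x y z : R) (hz : z * z = d) (e : E) :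
    ev x y z e = (pv d x y e).1 + z * (pv d x y e).2 := by
  induction e with
  | c a => simp [ev, pv]
  | s => simp [ev, pv]
  | t => simp [ev, pv]
  | r => simp [ev, pv]
  | add a b iha ihb =>
    simp only [ev, pv, iha, ihb]
    ring
  | sub a b iha ihb =>
    simp only [ev, pv, iha, ihb]
    ring
  | mul a b iha ihb =>
    simp only [ev, pv, iha, ihb]
    linear_combination (pv d x y a).2 * (pv d x y b).2 * hz

theorem pv_map {R R' : Type} [CommRing R] [CommRing R'] (f : R →+* R') (d x y : R) (e : E) :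
    pv (f d) (f x) (f y) e = (f (pv d x y e).1, f (pv d x y e).2) := by
  induction e with
  | c z => simp [pv]
  | s => simp [pv]
  | t => simp [pv]
  | r => simp [pv]
  | add a b iha ihb => simp only [pv, map_add, iha, ihb]
  | sub a b iha ihb => simp only [pv, map_sub, iha, ihb]
  | mul a b iha ihb => simp only [pv, map_mul, map_add, iha, ihb]

/-- the majorants -/
noncomputable def mj (n : ℕ) : E → ℕ[X][X] × ℕ[X][X]
  | c z => (C (C z.natAbs), 0)
  | s => (C X, 0)
  | t => (X, 0)
  | r => (0, 1)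
  | add a b => ((mj n a).1 + (mj n b).1, (mj n a).2 + (mj n b).2)
  | sub a b => ((mj n a).1 + (mj n b).1, (mj n a).2 + (mj n b).2)
  | mul a b => ((mj n a).1 * (mj n b).1 + C (C n) * ((mj n a).2 * (mj n b).2),
      (mj n a).1 * (mj n b).2 + (mj n a).2 * (mj n b).1)

/-- the polynomials -/
noncomputable def pol (d : ℤ) (e : E) : ℤ[X][X] × ℤ[X][X] := pv (C (C d)) (C X) X e

/-- coefficientwise inequality -/
def Le (p : ℤ[X][X]) (q : ℕ[X][X]) : Prop :=
  ∀ j i, ((p.coeff j).coeff i).natAbs ≤ (q.coeff j).coeff i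

theorem Le.add {p p' : ℤ[X][X]} {q q' : ℕ[X][X]} (h : Le p q) (h' : Le p' q') :
    Le (p + p') (q + q') := by
  intro j i
  rw [coeff_add, coeff_add, coeff_add, coeff_add]
  exact (Int.natAbs_add_le _ _).trans (Nat.add_le_add (h _ _) (h' _ _))

theorem Le.sub {p p' : ℤ[X][X]} {q q' : ℕ[X][X]} (h : Le p q) (h' : Le p' q') :
    Le (p - p') (q + q') := by
  intro j i
  rw [coeff_sub, coeff_sub, coeff_add, coeff_add]
  exact (Int.natAbs_sub_le _ _).trans (Nat.add_le_add (h _ _) (h' _ _))

theorem Le.mul {p p' : ℤ[X][X]} {q q' : ℕ[X][X]} (h : Le p q) (h' : Le p' q') :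
    Le (p * p') (q * q') := by
  intro j i
  rw [coeff_mul, coeff_mul, finsetSum_coeff, finsetSum_coeff]
  refine (Int.natAbs_sum_le _ _).trans (Finset.sum_le_sum fun x _ => ?_)
  exact GSE.E.coeff_mul_bound _ _ _ _ (h _) (h' _) i

theorem Le.const (d : ℤ) : Le (C (C d)) (C (C d.natAbs)) := by
  intro j i
  rw [coeff_C, coeff_C]
  split_ifs
  · rw [coeff_C, coeff_C]
    split_ifs <;> simp
  · simp

theorem Le.x : Le (C X) (C X) := by
  intro j i
  rw [coeff_C, coeff_C]
  split_ifs
  · rw [coeff_X, coeff_X]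
    split_ifs <;> simp
  · simp

theorem Le.y : Le X X := by
  intro j i
  rw [coeff_X, coeff_X]
  split_ifs
  · rw [coeff_one, coeff_one]
    split_ifs <;> simp
  · simp

theorem Le.zero : Le 0 0 := by
  intro j i
  simp

theorem Le.one : Le 1 1 := by
  have h := Le.const 1
  simpa using h

theorem mj_bound (d : ℤ) (e : E) :
    Le (pol d e).1 (mj d.natAbs e).1 ∧ Le (pol d e).2 (mj d.natAbs e).2 := by
  induction e with
  | c z =>
    refine ⟨?_, Le.zero⟩
    have h := Le.const z
    simpa [pol, pv, mj] using h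
  | s => exact ⟨Le.x, Le.zero⟩
  | t => exact ⟨Le.y, Le.zero⟩
  | r => exact ⟨Le.zero, Le.one⟩
  | add a b iha ihb => exact ⟨iha.1.add ihb.1, iha.2.add ihb.2⟩
  | sub a b iha ihb => exact ⟨iha.1.sub ihb.1, iha.2.sub ihb.2⟩
  | mul a b iha ihb =>
    exact ⟨(iha.1.mul ihb.1).add ((Le.const d).mul (iha.2.mul ihb.2)),
      (iha.1.mul ihb.2).add (iha.2.mul ihb.1)⟩

/-- the value of the majorants -/
theorem mj_evN (n M x y : ℕ) (hM : n ≤ M * M) (e : E) :
    (eval (C y) (mj n e).1).eval x + M * (eval (C y) (mj n e).2).eval x ≤ evN x y M e := by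
  induction e with
  | c z => simp [mj, evN]
  | s => simp [mj, evN]
  | t => simp [mj, evN]
  | r => simp [mj, evN]
  | add a b iha ihb =>
    have h := Nat.add_le_add iha ihb
    simp only [mj, eval_add]
    refine le_trans (le_of_eq ?_) h
    ring
  | sub a b iha ihb =>
    have h := Nat.add_le_add iha ihb
    simp only [mj, eval_add]
    refine le_trans (le_of_eq ?_) h
    ring
  | mul a b iha ihb =>
    have h := Nat.mul_le_mul iha ihb
    simp only [mj, eval_add, eval_mul, eval_C]
    refine le_trans ?_ h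
    set a1 := (eval (C y) (mj n a).1).eval x
    set a2 := (eval (C y) (mj n a).2).eval x
    set b1 := (eval (C y) (mj n b).1).eval x
    set b2 := (eval (C y) (mj n b).2).eval x
    have h1 : n * (a2 * b2) ≤ M * M * (a2 * b2) := Nat.mul_le_mul_right _ hM
    calc a1 * b1 + n * (a2 * b2) + M * (a1 * b2 + a2 * b1)
        ≤ a1 * b1 + M * M * (a2 * b2) + M * (a1 * b2 + a2 * b1) := by omega
      _ = (a1 + M * a2) * (b1 + M * b2) := by ring

/-- the values are bounded by the majorant -/
theorem pv_evN (d : ℤ) (M x y : ℕ) (hM : d.natAbs ≤ M * M) (e : E) :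
    (pv d x y e).1.natAbs + M * (pv d x y e).2.natAbs ≤ evN x y M e := by
  induction e with
  | c z => simp [pv, evN]
  | s => simp [pv, evN]
  | t => simp [pv, evN]
  | r => simp [pv, evN]
  | add a b iha ihb =>
    have h := Nat.add_le_add iha ihb
    refine le_trans ?_ h
    simp only [pv]
    have h1 := Int.natAbs_add_le (pv d x y a).1 (pv d x y b).1
    have h2 := Nat.mul_le_mul_left M (Int.natAbs_add_le (pv d (x : ℤ) y a).2 (pv d (x : ℤ) y b).2)
    rw [Nat.mul_add] at h2
    omega
  | sub a b iha ihb =>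
    have h := Nat.add_le_add iha ihb
    refine le_trans ?_ h
    simp only [pv]
    have h1 := Int.natAbs_sub_le (pv d x y a).1 (pv d x y b).1
    have h2 := Nat.mul_le_mul_left M (Int.natAbs_sub_le (pv d (x : ℤ) y a).2 (pv d (x : ℤ) y b).2)
    rw [Nat.mul_add] at h2
    omega
  | mul a b iha ihb =>
    have h := Nat.mul_le_mul iha ihb
    refine le_trans ?_ h
    simp only [pv]
    set a1 := (pv d (x : ℤ) y a).1
    set a2 := (pv d (x : ℤ) y a).2
    set b1 := (pv d (x : ℤ) y b).1
    set b2 := (pv d (x : ℤ) y b).2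
    have h1 : (a1 * b1 + d * (a2 * b2)).natAbs ≤
        a1.natAbs * b1.natAbs + d.natAbs * (a2.natAbs * b2.natAbs) := by
      refine (Int.natAbs_add_le _ _).trans ?_
      rw [Int.natAbs_mul, Int.natAbs_mul, Int.natAbs_mul]
    have h2 : (a1 * b2 + a2 * b1).natAbs ≤
        a1.natAbs * b2.natAbs + a2.natAbs * b1.natAbs := by
      refine (Int.natAbs_add_le _ _).trans ?_
      rw [Int.natAbs_mul, Int.natAbs_mul]
    have h3 := Nat.mul_le_mul_right (a2.natAbs * b2.natAbs) hM
    calc (a1 * b1 + d * (a2 * b2)).natAbs + M * (a1 * b2 + a2 * b1).natAbs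
        ≤ (a1.natAbs * b1.natAbs + d.natAbs * (a2.natAbs * b2.natAbs)) +
          M * (a1.natAbs * b2.natAbs + a2.natAbs * b1.natAbs) :=
        Nat.add_le_add h1 (Nat.mul_le_mul_left M h2)
      _ ≤ (a1.natAbs * b1.natAbs + M * M * (a2.natAbs * b2.natAbs)) +
          M * (a1.natAbs * b2.natAbs + a2.natAbs * b1.natAbs) := by omega
      _ = (a1.natAbs + M * a2.natAbs) * (b1.natAbs + M * b2.natAbs) := by ring

theorem dg_bound (d : ℤ) (e : E) (j : ℕ) :
    ((pol d e).1.coeff j).natDegree ≤ dg e ∧ ((pol d e).2.coeff j).natDegree ≤ dg e := by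
  have hm : ∀ (p q : ℤ[X][X]) (m n : ℕ), (∀ j, (p.coeff j).natDegree ≤ m) →
      (∀ j, (q.coeff j).natDegree ≤ n) → ∀ j, ((p * q).coeff j).natDegree ≤ m + n := by
    intro p q m n hp hq j
    rw [coeff_mul]
    refine natDegree_sum_le_of_forall_le _ _ fun x _ => ?_
    exact natDegree_mul_le.trans (Nat.add_le_add (hp _) (hq _))
  have hC : ∀ j, ((C (C d) : ℤ[X][X]).coeff j).natDegree ≤ 0 := by
    intro j
    rw [coeff_C]
    split_ifs <;> simp
  induction e generalizing j with
  | c z =>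
    have h1 : pol d (c z) = (C (C z), 0) := by simp [pol, pv]
    rw [h1]
    constructor
    · change ((C (C z) : ℤ[X][X]).coeff j).natDegree ≤ _
      rw [coeff_C]
      split_ifs <;> simp
    · simp
  | s =>
    constructor
    · change ((C X : ℤ[X][X]).coeff j).natDegree ≤ _
      rw [coeff_C]
      split_ifs
      · exact natDegree_X_le
      · simp
    · change ((0 : ℤ[X][X]).coeff j).natDegree ≤ _
      simp
  | t =>
    constructor
    · change ((X : ℤ[X][X]).coeff j).natDegree ≤ _
      rw [coeff_X]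
      split_ifs <;> simp
    · change ((0 : ℤ[X][X]).coeff j).natDegree ≤ _
      simp
  | r =>
    constructor
    · change ((0 : ℤ[X][X]).coeff j).natDegree ≤ _
      simp
    · change ((1 : ℤ[X][X]).coeff j).natDegree ≤ _
      rw [coeff_one]
      split_ifs <;> simp
  | add a b iha ihb =>
    constructor
    · change (((pol d a).1 + (pol d b).1).coeff j).natDegree ≤ _
      rw [coeff_add]
      exact (natDegree_add_le _ _).trans (max_le_max (iha _).1 (ihb _).1)
    · change (((pol d a).2 + (pol d b).2).coeff j).natDegree ≤ _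
      rw [coeff_add]
      exact (natDegree_add_le _ _).trans (max_le_max (iha _).2 (ihb _).2)
  | sub a b iha ihb =>
    constructor
    · change (((pol d a).1 - (pol d b).1).coeff j).natDegree ≤ _
      rw [coeff_sub]
      exact (natDegree_sub_le _ _).trans (max_le_max (iha _).1 (ihb _).1)
    · change (((pol d a).2 - (pol d b).2).coeff j).natDegree ≤ _
      rw [coeff_sub]
      exact (natDegree_sub_le _ _).trans (max_le_max (iha _).2 (ihb _).2)
  | mul a b iha ihb =>
    have e1 : dg (mul a b) = dg a + dg b := rfl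
    constructor
    · change (((pol d a).1 * (pol d b).1 + C (C d) * ((pol d a).2 * (pol d b).2)).coeff
        j).natDegree ≤ _
      rw [coeff_add, e1]
      refine (natDegree_add_le _ _).trans (max_le ?_ ?_)
      · exact hm _ _ _ _ (fun j => (iha j).1) (fun j => (ihb j).1) j
      · have h1 := hm _ _ 0 (dg a + dg b) hC
          (hm _ _ _ _ (fun j => (iha j).2) (fun j => (ihb j).2)) j
        rwa [zero_add] at h1
    · change (((pol d a).1 * (pol d b).2 + (pol d a).2 * (pol d b).1).coeff j).natDegree ≤ _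
      rw [coeff_add, e1]
      refine (natDegree_add_le _ _).trans (max_le ?_ ?_)
      · exact hm _ _ _ _ (fun j => (iha j).1) (fun j => (ihb j).2) j
      · exact hm _ _ _ _ (fun j => (iha j).2) (fun j => (ihb j).1) j

/-- the test -/
def isZero (p : Pm) (e : E) : Bool :=
  Nat.ble 1 p.M && Nat.ble p.dl.natAbs (Nat.mul p.M p.M) && Nat.blt (evN 1 1 p.M e) p.B &&
    Nat.blt (dg e) p.D &&
    Nat.blt (Nat.add (Nat.mul (evN p.B (p.B ^ p.D) p.M e) (Nat.succ p.R)) p.dl.natAbs)
      (Nat.mul p.R p.R) &&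
    Nat.beq (Nat.mod (evM (Int.toNat (Int.sub (Int.ofNat (Nat.mul p.R p.R)) p.dl)) p.B
      (p.B ^ p.D) p.R e) (Int.toNat (Int.sub (Int.ofNat (Nat.mul p.R p.R)) p.dl))) 0

theorem pol_zero {p : Pm} {e : E} (h : isZero p e = true) : pol p.dl e = (0, 0) := by
  unfold isZero at h
  simp only [Bool.and_eq_true] at h
  obtain ⟨⟨⟨⟨⟨h1, h2⟩, h3⟩, h4⟩, h5⟩, h6⟩ := h
  have hM1 : 1 ≤ p.M := Nat.le_of_ble_eq_true h1
  have hM : p.dl.natAbs ≤ p.M * p.M := Nat.le_of_ble_eq_true h2
  have hB : evN 1 1 p.M e < p.B := by simpa [Nat.blt_eq] using h3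
  have hD : dg e < p.D := by simpa [Nat.blt_eq] using h4
  have hR : evN p.B (p.B ^ p.D) p.M e * (p.R + 1) + p.dl.natAbs < p.R * p.R := by
    simpa [Nat.blt_eq] using h5
  set m : ℕ := Int.toNat (Int.sub (Int.ofNat (Nat.mul p.R p.R)) p.dl) with hm
  have hm1 : (m : ℤ) = (p.R : ℤ) * p.R - p.dl := by
    rw [hm]
    have h7 : Int.sub (Int.ofNat (Nat.mul p.R p.R)) p.dl = (p.R : ℤ) * p.R - p.dl := by
      change ((p.R * p.R : ℕ) : ℤ) - p.dl = _
      push_cast
      ring
    rw [h7]
    apply Int.toNat_of_nonneg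
    have h8 : (p.dl.natAbs : ℤ) < p.R * p.R := by exact_mod_cast (Nat.le_add_left _ _).trans_lt hR
    have h9 : p.dl ≤ (p.dl.natAbs : ℤ) := Int.le_natAbs
    linarith
  have hm0 : m ≠ 0 := by
    intro h0
    have h8 : (p.dl.natAbs : ℤ) < p.R * p.R := by exact_mod_cast (Nat.le_add_left _ _).trans_lt hR
    have h9 : p.dl ≤ (p.dl.natAbs : ℤ) := Int.le_natAbs
    rw [h0] at hm1
    push_cast at hm1
    linarith
  have h7 : ((evM m p.B (p.B ^ p.D) p.R e : ℕ) : ZMod m) = 0 := by
    rw [ZMod.natCast_eq_zero_iff]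
    exact Nat.dvd_of_mod_eq_zero (Nat.eq_of_beq_eq_true h6)
  rw [evM_eq _ _ _ _ hm0] at h7
  have hz : (p.R : ZMod m) * (p.R : ZMod m) = (p.dl : ZMod m) := by
    have h8 : ((m : ℤ) : ZMod m) = (((p.R : ℤ) * p.R - p.dl : ℤ) : ZMod m) := by rw [hm1]
    push_cast at h8
    rw [ZMod.natCast_self] at h8
    linear_combination -h8
  rw [ev_eq_pv _ _ _ _ hz] at h7
  set A : ℤ × ℤ := pv p.dl (p.B : ℤ) ((p.B ^ p.D : ℕ) : ℤ) e with hA
  have h8 : ((A.1 + p.R * A.2 : ℤ) : ZMod m) = 0 := by
    have h9 := pv_map (Int.castRingHom (ZMod m)) p.dl (p.B : ℤ) ((p.B ^ p.D : ℕ) : ℤ) e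
    rw [← hA] at h9
    simp only [eq_intCast, Int.cast_natCast] at h9
    rw [h9] at h7
    push_cast
    exact h7
  have h9 : (m : ℤ) ∣ A.1 + p.R * A.2 := (ZMod.intCast_zmod_eq_zero_iff_dvd _ _).1 h8
  have h10 := pv_evN p.dl p.M p.B (p.B ^ p.D) hM e
  rw [← hA] at h10
  set N := evN p.B (p.B ^ p.D) p.M e with hN
  have h11 : A.1.natAbs ≤ N := (Nat.le_add_right _ _).trans h10
  have h12 : A.2.natAbs ≤ N := by
    refine le_trans ?_ ((Nat.le_add_left _ _).trans h10)
    exact Nat.le_mul_of_pos_left _ hM1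
  have h13 : A.1 + p.R * A.2 = 0 := by
    by_contra hne
    have h14 := Int.natAbs_dvd_natAbs.2 h9
    have h15 := Nat.le_of_dvd (Int.natAbs_pos.2 hne) h14
    rw [Int.natAbs_natCast] at h15
    have h16 : (A.1 + p.R * A.2).natAbs ≤ N + p.R * N := by
      refine (Int.natAbs_add_le _ _).trans (Nat.add_le_add h11 ?_)
      rw [Int.natAbs_mul, Int.natAbs_natCast]
      exact Nat.mul_le_mul_left _ h12
    have h17 : (m : ℤ) ≤ ((N + p.R * N : ℕ) : ℤ) := by exact_mod_cast h15.trans h16
    rw [hm1] at h17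
    have h18 : ((N * (p.R + 1) + p.dl.natAbs : ℕ) : ℤ) < ((p.R * p.R : ℕ) : ℤ) := by
      exact_mod_cast hR
    have h19 : p.dl ≤ |p.dl| := le_abs_self _
    push_cast at h17 h18
    linarith
  have h14 : A.2 = 0 := by
    by_contra hne
    have h15 : 1 ≤ A.2.natAbs := Int.natAbs_pos.2 hne
    have h16 : A.1.natAbs = p.R * A.2.natAbs := by
      have h17 : A.1 = -(p.R * A.2) := eq_neg_of_add_eq_zero_left h13
      rw [h17, Int.natAbs_neg, Int.natAbs_mul, Int.natAbs_natCast]
    have h17 : p.R ≤ N := by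
      calc p.R = p.R * 1 := (mul_one _).symm
        _ ≤ p.R * A.2.natAbs := Nat.mul_le_mul_left _ h15
        _ = A.1.natAbs := h16.symm
        _ ≤ N := h11
    have h18 : p.R * p.R ≤ N * (p.R + 1) := Nat.mul_le_mul h17 (Nat.le_succ _)
    omega
  have h15 : A.1 = 0 := by
    rw [h14, mul_zero, add_zero] at h13
    exact h13
  have h16 := pv_map ((evalRingHom (p.B : ℤ)).comp (evalRingHom (C (((p.B ^ p.D : ℕ) : ℤ)))))
    (C (C p.dl)) (C X) X e
  simp only [RingHom.coe_comp, Function.comp_apply, coe_evalRingHom, eval_C, eval_X] at h16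
  rw [← hA] at h16
  have hpw : (((p.B ^ p.D : ℕ) : ℤ)) = (p.B : ℤ) ^ p.D := by push_cast; ring
  have h17 := mj_evN p.dl.natAbs p.M 1 1 hM e
  have h18 := mj_bound p.dl e
  have h19 := dg_bound p.dl e
  have hq1 : ∀ j i, (((pol p.dl e).1.coeff j).coeff i).natAbs < p.B := by
    intro j i
    refine ((h18.1 j i).trans (GSE.E.coeff_coeff_le _ j i)).trans_lt ?_
    refine lt_of_le_of_lt ?_ hB
    exact (Nat.le_add_right _ _).trans h17
  have hq2 : ∀ j i, (((pol p.dl e).2.coeff j).coeff i).natAbs < p.B := by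
    intro j i
    refine ((h18.2 j i).trans (GSE.E.coeff_coeff_le _ j i)).trans_lt ?_
    refine lt_of_le_of_lt ?_ hB
    refine le_trans ?_ ((Nat.le_add_left _ _).trans h17)
    exact Nat.le_mul_of_pos_left _ hM1
  have e1 : (pol p.dl e).1 = 0 := by
    refine GSE.E.biv_zero p.B p.D _ _ le_rfl hq1 (fun j => (h19 j).1.trans_lt hD) ?_
    have h20 := congrArg Prod.fst h16
    rw [h15] at h20
    rw [← hpw]
    exact h20.symm
  have e2 : (pol p.dl e).2 = 0 := by
    refine GSE.E.biv_zero p.B p.D _ _ le_rfl hq2 (fun j => (h19 j).2.trans_lt hD) ?_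
    have h20 := congrArg Prod.snd h16
    rw [h14] at h20
    rw [← hpw]
    exact h20.symm
  exact Prod.ext e1 e2

/-- **The zero test.** -/
theorem zero {p : Pm} {e : E} (h : isZero p e = true) {R : Type} [CommRing R] (x y z : R)
    (hz : z * z = p.dl) : ev x y z e = 0 := by
  have h1 := pol_zero h
  have h2 := pv_map (R := ℤ[X][X]) (eval₂RingHom (eval₂RingHom (Int.castRingHom R) x) y)
    (C (C p.dl)) (C X) X e
  have h3 : pv (C (C p.dl) : ℤ[X][X]) (C X) X e = (0, 0) := h1
  rw [h3, map_zero] at h2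
  rw [ev_eq_pv _ _ _ _ hz]
  have h4 : (eval₂RingHom (eval₂RingHom (Int.castRingHom R) x) y) (C (C p.dl)) = (p.dl : R) := by
    simp
  have h5 : (eval₂RingHom (eval₂RingHom (Int.castRingHom R) x) y) (C X) = x := by
    simp
  have h6 : (eval₂RingHom (eval₂RingHom (Int.castRingHom R) x) y) X = y := by
    simp
  rw [h4, h5, h6] at h2
  rw [h2]
  simp

end E

end Pool.Agent.GSW
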